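import Mathlib

/-! Signed sums of matrices: a lower bound for the size of matrices which carry an `ℓ₁`-sequence. -/

set_option autoImplicit false
set_option linter.unusedSectionVars false

open Finset
open scoped InnerProductSpace

namespace Run7.h190.E

/-- the sign -/
def sg (b : Bool) : ℝ := if b then 1 else -1

theorem sg_mul_self (b : Bool) : sg b * sg b = 1 := by cases b <;> norm_num [sg]

variable {n : ℕ}

/-- the characters of the group of signs -/
def ch (A : Finset (Fin n)) (z : Fin n → Bool) : ℝ := ∏ j ∈ A, sg (z j)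

theorem ch_empty (z : Fin n → Bool) : ch ∅ z = 1 := by rw [ch, prod_empty]

theorem ch_mul (A B : Finset (Fin n)) (z : Fin n → Bool) :
    ch A z * ch (symmDiff A B) z = ch B z := by
  classical
  have h : ∀ C : Finset (Fin n), ch C z = ∏ j, if j ∈ C then sg (z j) else 1 := by
    intro C
    rw [ch, prod_ite_mem, univ_inter]
  rw [h, h, h, ← prod_mul_distrib]
  refine prod_congr rfl fun j _ => ?_
  by_cases h1 : j ∈ A <;> by_cases h2 : j ∈ B <;> simp [mem_symmDiff, h1, h2, sg_mul_self]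

theorem sum_ch (A : Finset (Fin n)) :
    ∑ z : Fin n → Bool, ch A z = if A = ∅ then (2 : ℝ) ^ n else 0 := by
  classical
  have h : ∀ z, ch A z = ∏ j, if j ∈ A then sg (z j) else 1 := by
    intro z
    rw [ch, prod_ite_mem, univ_inter]
  simp only [h]
  have h2 := Finset.prod_univ_sum (fun _ : Fin n => (univ : Finset Bool))
    (fun j b => if j ∈ A then sg b else 1)
  rw [Fintype.piFinset_univ] at h2
  rw [← h2]
  split_ifs with h3
  · subst h3; simp
  · obtain ⟨j, hj⟩ := Finset.nonempty_iff_ne_empty.2 h3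
    refine prod_eq_zero (mem_univ j) ?_
    simp [hj, sg]

section dom

variable {𝓐 : Type*} [NormedRing 𝓐] [NormedAlgebra ℝ 𝓐]

/-- domination of the Fourier coefficients -/
def Dom (F : (Fin n → Bool) → 𝓐) (f : (Fin n → Bool) → ℝ) : Prop :=
  ∃ (a : Finset (Fin n) → 𝓐) (b : Finset (Fin n) → ℝ), (∀ z, F z = ∑ A, ch A z • a A) ∧
    (∀ z, f z = ∑ A, ch A z * b A) ∧ ∀ A, ‖a A‖ ≤ b A

theorem resum {M : Type*} [AddCommMonoid M] (A : Finset (Fin n)) (φ : Finset (Fin n) → M) :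
    ∑ B, φ B = ∑ C, φ (symmDiff A C) := by
  classical
  refine (Function.Involutive.bijective (f := fun C => symmDiff A C) ?_).sum_comp φ |>.symm
  intro C
  exact symmDiff_symmDiff_cancel_left A C

theorem Dom.mul {F G : (Fin n → Bool) → 𝓐} {f g : (Fin n → Bool) → ℝ} (hF : Dom F f)
    (hG : Dom G g) : Dom (fun z => F z * G z) (fun z => f z * g z) := by
  classical
  obtain ⟨a, b, h1, h2, h3⟩ := hF
  obtain ⟨a', b', h1', h2', h3'⟩ := hG
  refine ⟨fun C => ∑ A, a A * a' (symmDiff A C), fun C => ∑ A, b A * b' (symmDiff A C), ?_, ?_, ?_⟩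
  · intro z
    have e : F z * G z = ∑ A, ∑ C, ch C z • (a A * a' (symmDiff A C)) := by
      rw [h1, h1', Finset.sum_mul]
      refine sum_congr rfl fun A _ => ?_
      rw [resum A (fun B => ch B z • a' B), Finset.mul_sum]
      refine sum_congr rfl fun C _ => ?_
      rw [smul_mul_smul_comm, ch_mul]
    show F z * G z = _
    rw [e, sum_comm]
    refine sum_congr rfl fun C _ => ?_
    rw [Finset.smul_sum]
  · intro z
    have e : f z * g z = ∑ A, ∑ C, ch C z * (b A * b' (symmDiff A C)) := by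
      rw [h2, h2', Finset.sum_mul]
      refine sum_congr rfl fun A _ => ?_
      rw [resum A (fun B => ch B z * b' B), Finset.mul_sum]
      refine sum_congr rfl fun C _ => ?_
      rw [mul_mul_mul_comm, ch_mul]
    show f z * g z = _
    rw [e, sum_comm]
    refine sum_congr rfl fun C _ => ?_
    rw [Finset.mul_sum]
  · intro C
    refine (norm_sum_le _ _).trans (sum_le_sum fun A _ => ?_)
    refine (norm_mul_le _ _).trans ?_
    exact mul_le_mul (h3 A) (h3' _) (norm_nonneg _) ((norm_nonneg _).trans (h3 A))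

theorem Dom.one (h : ‖(1 : 𝓐)‖ ≤ 1) : Dom (fun _ : Fin n → Bool => (1 : 𝓐)) (fun _ => 1) := by
  classical
  refine ⟨fun A => if A = ∅ then 1 else 0, fun A => if A = ∅ then 1 else 0, ?_, ?_, ?_⟩
  · intro z
    simp [ch_empty]
  · intro z
    simp [ch_empty]
  · intro A
    show ‖(if A = ∅ then 1 else 0 : 𝓐)‖ ≤ if A = ∅ then 1 else 0
    split_ifs
    · exact h
    · simp

theorem Dom.pow (h : ‖(1 : 𝓐)‖ ≤ 1) {F : (Fin n → Bool) → 𝓐} {f : (Fin n → Bool) → ℝ}
    (hF : Dom F f) (p : ℕ) : Dom (fun z => F z ^ p) (fun z => f z ^ p) := by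
  induction p with
  | zero => simpa using Dom.one h
  | succ p ih => simpa only [pow_succ] using ih.mul hF

theorem base_key {M : Type*} [AddCommMonoid M] [Module ℝ M] [DecidableEq (Finset (Fin n))]
    (C : Fin n → M) (z : Fin n → Bool) :
    ∑ j, sg (z j) • C j = ∑ A, ch A z • ∑ j, if A = {j} then C j else 0 := by
  simp only [Finset.smul_sum]
  rw [sum_comm]
  refine sum_congr rfl fun j _ => ?_
  rw [Finset.sum_eq_single {j}]
  · simp [ch]
  · intro A _ hA
    simp [hA]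
  · intro h; exact absurd (mem_univ _) h

theorem Dom.base (B : Fin n → 𝓐) (hB : ∀ j, ‖B j‖ ≤ 1) :
    Dom (fun z => ∑ j, sg (z j) • B j) (fun z => ∑ j, sg (z j)) := by
  classical
  refine ⟨fun A => ∑ j, if A = {j} then B j else 0, fun A => ∑ j, if A = {j} then 1 else 0,
    fun z => base_key B z, fun z => ?_, fun A => ?_⟩
  · have := base_key (fun _ => (1 : ℝ)) z
    simpa using this
  · refine (norm_sum_le _ _).trans (sum_le_sum fun j _ => ?_)
    split_ifs
    · exact hB j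
    · simp

theorem Dom.sum {F : (Fin n → Bool) → 𝓐} {f : (Fin n → Bool) → ℝ} (h : Dom F f) :
    ‖∑ z, F z‖ ≤ ∑ z, f z := by
  classical
  obtain ⟨a, b, h1, h2, h3⟩ := h
  have e1 : ∑ z, F z = (2 : ℝ) ^ n • a ∅ := by
    simp only [h1]
    rw [sum_comm]
    simp only [← Finset.sum_smul, sum_ch]
    rw [Finset.sum_eq_single ∅]
    · simp
    · intro A _ hA; simp [hA]
    · intro h; exact absurd (mem_univ _) h
  have e2 : ∑ z, f z = (2 : ℝ) ^ n * b ∅ := by
    simp only [h2]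
    rw [sum_comm]
    simp only [← Finset.sum_mul, sum_ch]
    rw [Finset.sum_eq_single ∅]
    · simp
    · intro A _ hA; simp [hA]
    · intro h; exact absurd (mem_univ _) h
  rw [e1, e2, norm_smul, Real.norm_of_nonneg (by positivity)]
  exact mul_le_mul_of_nonneg_left (h3 ∅) (by positivity)

end dom

/-- the scalar moments -/
theorem scalar_moment (n m : ℕ) (t : ℝ) (ht : 0 < t) :
    ∑ z : Fin n → Bool, (∑ j, sg (z j)) ^ (2 * m) ≤
      ((2 * m).factorial : ℝ) / t ^ (2 * m) * (2 * (2 * Real.cosh t) ^ n) := by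
  classical
  have h1 : ∀ s : ℝ, ∑ z : Fin n → Bool, Real.exp (s * ∑ j, sg (z j)) = (2 * Real.cosh s) ^ n := by
    intro s
    have h2 := Finset.prod_univ_sum (fun _ : Fin n => (univ : Finset Bool))
      (fun _ b => Real.exp (s * sg b))
    rw [Fintype.piFinset_univ] at h2
    simp only [Finset.mul_sum, Real.exp_sum]
    rw [← h2]
    have h3 : ∑ b : Bool, Real.exp (s * sg b) = 2 * Real.cosh s := by
      rw [Fintype.sum_bool, Real.cosh_eq]
      simp [sg]; ring
    rw [h3, prod_const, card_univ, Fintype.card_fin]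
  have h2 : ∀ x : ℝ, x ^ (2 * m) ≤ ((2 * m).factorial : ℝ) / t ^ (2 * m) *
      (Real.exp (t * x) + Real.exp (-t * x)) := by
    intro x
    have h3 := Real.pow_div_factorial_le_exp |t * x| (abs_nonneg _) (2 * m)
    rw [(even_two_mul m).pow_abs, mul_pow] at h3
    have h4 : Real.exp |t * x| ≤ Real.exp (t * x) + Real.exp (-t * x) := by
      rcases abs_cases (t * x) with ⟨h, _⟩ | ⟨h, _⟩
      · rw [h]; linarith [Real.exp_pos (-t * x)]
      · rw [h, neg_mul]; linarith [Real.exp_pos (t * x)]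
    have h5 : (0 : ℝ) < (2 * m).factorial := by exact_mod_cast Nat.factorial_pos _
    have h6 : 0 < t ^ (2 * m) := by positivity
    rw [div_mul_eq_mul_div, le_div_iff₀ h6]
    rw [div_le_iff₀ h5] at h3
    calc x ^ (2 * m) * t ^ (2 * m) = t ^ (2 * m) * x ^ (2 * m) := by ring
      _ ≤ Real.exp |t * x| * (2 * m).factorial := h3
      _ ≤ (Real.exp (t * x) + Real.exp (-t * x)) * (2 * m).factorial :=
        mul_le_mul_of_nonneg_right h4 h5.le
      _ = _ := by ring
  refine (sum_le_sum fun z _ => h2 _).trans ?_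
  rw [← Finset.mul_sum, sum_add_distrib, h1, h1, Real.cosh_neg]
  rw [two_mul (((2 : ℝ) * Real.cosh t) ^ n)]

variable {k : ℕ} {K : Type} [NormedAddCommGroup K] [InnerProductSpace ℂ K] [CompleteSpace K]
  (b : OrthonormalBasis (Fin k) ℂ K)

include b in
theorem norm_sq_le_hs (R : K →L[ℂ] K) : ‖R‖ ^ 2 ≤ ∑ i, ‖R (b i)‖ ^ 2 := by
  have h1 : ‖R‖ ≤ √(∑ i, ‖R (b i)‖ ^ 2) := by
    refine R.opNorm_le_bound (Real.sqrt_nonneg _) fun x => ?_
    have h2 : R x = ∑ i, b.repr x i • R (b i) := by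
      conv_lhs => rw [← b.sum_repr x]
      rw [map_sum]
      refine sum_congr rfl fun i _ => ?_
      rw [map_smul]
    have h0 : ‖x‖ = √(∑ i, ‖b.repr x i‖ ^ 2) := by
      rw [← EuclideanSpace.norm_eq, b.repr.norm_map]
    rw [h2, h0]
    refine (norm_sum_le univ (fun i => b.repr x i • R (b i))).trans ?_
    simp only [norm_smul]
    have h3 := Real.sum_mul_le_sqrt_mul_sqrt univ (fun i => ‖b.repr x i‖) (fun i => ‖R (b i)‖)
    rw [mul_comm (√(∑ i, ‖R (b i)‖ ^ 2))]
    exact h3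
  calc ‖R‖ ^ 2 ≤ (√(∑ i, ‖R (b i)‖ ^ 2)) ^ 2 := pow_le_pow_left₀ (norm_nonneg _) h1 2
    _ = _ := Real.sq_sqrt (sum_nonneg fun i _ => by positivity)

include b in
/-- **signed sums** -/
theorem moment (B : Fin n → (K →L[ℂ] K)) (hB : ∀ j, ‖B j‖ ≤ 1) (r : ℕ) :
    ∑ z : Fin n → Bool, ‖∑ j, sg (z j) • B j‖ ^ (4 * 2 ^ r) ≤
      k * ∑ z : Fin n → Bool, (∑ j, sg (z j)) ^ (4 * 2 ^ r) := by
  set q := 2 ^ r with hq
  set S : (Fin n → Bool) → (K →L[ℂ] K) := fun z => ∑ j, sg (z j) • B j with hS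
  have hstar : ∀ z, star (S z) = ∑ j, sg (z j) • star (B j) := by
    intro z
    rw [hS]
    simp only [star_sum]
    refine sum_congr rfl fun j _ => ?_
    rw [star_smul, star_trivial]
  have hD : Dom (fun z => (star (S z) * S z) ^ (2 * q)) (fun z => (∑ j, sg (z j)) ^ (4 * q)) := by
    have h1 := Dom.base B hB
    have h2 := Dom.base (fun j => star (B j)) (fun j => by rw [norm_star]; exact hB j)
    have h3 := (h2.mul h1).pow ContinuousLinearMap.norm_id_le (2 * q)
    refine (iff_of_eq ?_).1 h3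
    congr 1
    · funext z
      simp only [hstar z]
      rfl
    · funext z
      rw [← pow_two, ← pow_mul]
      congr 1
      ring
  have hz : ∀ z, ‖S z‖ ^ (4 * q) ≤
      ∑ i, (⟪b i, ((star (S z) * S z) ^ (2 * q)) (b i)⟫_ℂ).re := by
    intro z
    have hsa : IsSelfAdjoint (star (S z) * S z) := IsSelfAdjoint.star_mul_self _
    have h1 : ‖(star (S z) * S z) ^ q‖ = ‖S z‖ ^ (2 * q) := by
      rw [hq, hsa.norm_pow_two_pow r, CStarRing.norm_star_mul_self, ← pow_two, ← pow_mul]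
    have h4 := norm_sq_le_hs b ((star (S z) * S z) ^ q)
    rw [h1, ← pow_mul] at h4
    have e : 2 * q * 2 = 4 * q := by ring
    rw [e] at h4
    refine h4.trans (le_of_eq (sum_congr rfl fun i _ => ?_))
    set T := (star (S z) * S z) ^ q with hT
    have hTs : star T = T := (hsa.pow q).star_eq
    have e2 : (star (S z) * S z) ^ (2 * q) = T * T := by rw [two_mul, pow_add]
    rw [e2]
    have h5 : ⟪b i, (T * T) (b i)⟫_ℂ = ⟪T (b i), T (b i)⟫_ℂ := by
      show ⟪b i, T (T (b i))⟫_ℂ = _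
      rw [← ContinuousLinearMap.adjoint_inner_left, ← ContinuousLinearMap.star_eq_adjoint, hTs]
    rw [h5, inner_self_eq_norm_sq_to_K]
    norm_cast
  calc ∑ z, ‖S z‖ ^ (4 * q) ≤ ∑ z, ∑ i, (⟪b i, ((star (S z) * S z) ^ (2 * q)) (b i)⟫_ℂ).re :=
        sum_le_sum fun z _ => hz z
    _ = ∑ i : Fin k, (⟪b i, (∑ z, (star (S z) * S z) ^ (2 * q)) (b i)⟫_ℂ).re := by
        rw [sum_comm]
        refine sum_congr rfl fun i _ => ?_
        rw [_root_.sum_apply, inner_sum, Complex.re_sum]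
    _ ≤ ∑ _i : Fin k, ∑ z : Fin n → Bool, (∑ j, sg (z j)) ^ (4 * q) := by
        refine sum_le_sum fun i _ => ?_
        refine (Complex.re_le_norm _).trans ((norm_inner_le_norm _ _).trans ?_)
        rw [b.norm_eq_one, one_mul]
        refine (ContinuousLinearMap.le_opNorm _ _).trans ?_
        rw [b.norm_eq_one, mul_one]
        exact hD.sum
    _ = _ := by rw [sum_const, card_univ, Fintype.card_fin, nsmul_eq_mul]

include b in
/-- **matrices which carry an `ℓ₁`-sequence are exponentially large** -/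
theorem large (r q : ℕ) (hq : q = 2 ^ r) (B : Fin (384 * q) → (K →L[ℂ] K)) (hB : ∀ j, ‖B j‖ ≤ 1)
    (h : ∀ z : Fin (384 * q) → Bool, 96 * (q : ℝ) ≤ ‖∑ j, sg (z j) • B j‖) :
    (4 : ℝ) ^ q ≤ 2 * k := by
  have hq0 : 0 < (q : ℝ) := by rw [hq]; positivity
  have h1 := moment b B hB r
  rw [← hq] at h1
  have h2 := scalar_moment (384 * q) (2 * q) (1 / 8) (by norm_num)
  rw [show 2 * (2 * q) = 4 * q by ring] at h2
  have h3 : ∑ z : Fin (384 * q) → Bool, (96 * (q : ℝ)) ^ (4 * q) ≤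
      ∑ z : Fin (384 * q) → Bool, ‖∑ j, sg (z j) • B j‖ ^ (4 * q) :=
    sum_le_sum fun z _ => pow_le_pow_left₀ (by positivity) (h z) _
  rw [sum_const, card_univ, Fintype.card_fun, Fintype.card_bool, Fintype.card_fin, nsmul_eq_mul] at h3
  have h4 : Real.cosh (1 / 8) ^ (384 * q) ≤ Real.exp (3 * q) := by
    have h5 : Real.cosh (1 / 8) ≤ Real.exp ((1 / 8) ^ 2 / 2) := Real.cosh_le_exp_half_sq _
    refine (pow_le_pow_left₀ (Real.cosh_pos _).le h5 _).trans ?_
    rw [← Real.exp_nat_mul]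
    refine Real.exp_le_exp.2 (le_of_eq ?_)
    push_cast
    ring
  have h6 : ((4 * q).factorial : ℝ) ≤ (4 * q : ℝ) ^ (4 * q) := by
    have := Nat.factorial_le_pow (4 * q)
    exact_mod_cast this
  -- combine
  have h7 : (2 : ℝ) ^ (384 * q) * (96 * (q : ℝ)) ^ (4 * q) ≤
      k * ((4 * q : ℝ) ^ (4 * q) * 8 ^ (4 * q) * (2 * (2 ^ (384 * q) * Real.exp (3 * q)))) := by
    have h8 : (k : ℝ) * (∑ z : Fin (384 * q) → Bool, (∑ j, sg (z j)) ^ (4 * q)) ≤
        k * ((4 * q : ℝ) ^ (4 * q) * 8 ^ (4 * q) * (2 * (2 ^ (384 * q) * Real.exp (3 * q)))) := by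
      refine mul_le_mul_of_nonneg_left (h2.trans ?_) (Nat.cast_nonneg k)
      have e1 : ((4 * q).factorial : ℝ) / (1 / 8) ^ (4 * q) = (4 * q).factorial * 8 ^ (4 * q) := by
        rw [one_div, inv_pow, div_inv_eq_mul]
      rw [e1, mul_pow 2 (Real.cosh (1 / 8))]
      have h9 : (0 : ℝ) < 8 ^ (4 * q) := by positivity
      refine mul_le_mul (mul_le_mul_of_nonneg_right h6 h9.le) ?_ (by positivity) (by positivity)
      exact mul_le_mul_of_nonneg_left (mul_le_mul_of_nonneg_left h4 (by positivity)) (by norm_num)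
    have h10 : ((2 ^ (384 * q) : ℕ) : ℝ) = (2 : ℝ) ^ (384 * q) := by push_cast; ring
    rw [h10] at h3
    exact h3.trans (h1.trans h8)
  have e2 : (96 * (q : ℝ)) ^ (4 * q) = (4 * q : ℝ) ^ (4 * q) * 8 ^ (4 * q) * 3 ^ (4 * q) := by
    rw [← mul_pow, ← mul_pow]
    congr 1
    ring
  rw [e2] at h7
  have hpos : (0 : ℝ) < 2 ^ (384 * q) * ((4 * q : ℝ) ^ (4 * q) * 8 ^ (4 * q)) := by positivity
  have h11 : (3 : ℝ) ^ (4 * q) ≤ 2 * k * Real.exp (3 * q) := by
    refine le_of_mul_le_mul_left (a := (2 : ℝ) ^ (384 * q) * ((4 * q : ℝ) ^ (4 * q) * 8 ^ (4 * q))) ?_ hpos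
    calc _ = (2 : ℝ) ^ (384 * q) * ((4 * q : ℝ) ^ (4 * q) * 8 ^ (4 * q) * 3 ^ (4 * q)) := by ring
      _ ≤ _ := h7
      _ = _ := by ring
  have h12 : Real.exp (3 * q) ≤ (81 / 4 : ℝ) ^ q := by
    have h13 : Real.exp 3 ≤ 81 / 4 := by
      have h14 := Real.exp_one_lt_d9
      have h15 : Real.exp 3 = Real.exp 1 ^ 3 := by rw [← Real.exp_nat_mul]; norm_num
      rw [h15]
      have h16 : Real.exp 1 ^ 3 ≤ (2.7182818286 : ℝ) ^ 3 :=
        pow_le_pow_left₀ (Real.exp_pos 1).le h14.le 3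
      refine h16.trans (by norm_num)
    rw [mul_comm, Real.exp_nat_mul]
    exact pow_le_pow_left₀ (Real.exp_pos 3).le h13 q
  have h17 : (3 : ℝ) ^ (4 * q) = 4 ^ q * (81 / 4) ^ q := by
    rw [← mul_pow, pow_mul]
    norm_num
  have h18 : (0 : ℝ) < (81 / 4) ^ q := by positivity
  have h19 : (4 : ℝ) ^ q * (81 / 4) ^ q ≤ 2 * k * (81 / 4) ^ q := by
    rw [← h17]
    exact h11.trans (mul_le_mul_of_nonneg_left h12 (by positivity))
  exact le_of_mul_le_mul_right h19 h18

end Run7.h190.E
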