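import Pool.Agent.Run7.h190.Erg

/-! The polynomial ergodic theorem, and Möbius orthogonality. -/

set_option autoImplicit false
set_option linter.unusedSectionVars false

open Finset Filter Topology
open scoped InnerProductSpace ComplexOrder

namespace Run7.h190.H

open Pool.Agent.TH261.AB Pool.Agent.TH261.NP Pool.Agent.Helper188.NCM Pool.Agent.W661.Nrm Run7.h190.G

/-- from the square to arbitrary bounded weights -/
theorem null_of_sq {Γ : Type} [Group Γ] {K L : Type} [NormedAddCommGroup K] [InnerProductSpace ℂ K]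
    [NormedAddCommGroup L] [InnerProductSpace ℂ L] {π : Γ →* (K ≃ₗᵢ[ℂ] K)}
    {ρ : Γ →* (L ≃ₗᵢ[ℂ] L)} {v : K → L} (hv : ∀ ξ η, ⟪v ξ, v η⟫_ℂ = ⟪ξ, η⟫_ℂ * ⟪η, ξ⟫_ℂ)
    (hρ : ∀ g ξ, ρ g (v ξ) = v (π g ξ)) {x : ℕ → Γ}
    (h : Z (fun _ => 1) (fun n => ρ (x n)) = ⊤) {w : ℕ → ℂ} (hw : ∀ n, ‖w n‖ ≤ 1) :
    Z w (fun n => π (x n)) = ⊤ := by
  rw [Submodule.eq_top_iff']
  intro ξ
  rw [mem_Z]
  have h1 : v ξ ∈ Z (fun _ => 1) (fun n => ρ (x n)) := by rw [h]; trivial
  have h2 := mem_Z.1 h1
  rw [tendsto_zero_iff_norm_tendsto_zero] at h2 ⊢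
  have h3 : Tendsto (fun N => ‖vav (fun n => w n • π (x n) ξ) N‖ ^ 2) atTop (𝓝 0) := by
    refine squeeze_zero (fun N => by positivity) (fun N => ?_) h2
    have h4 := sq_ineq hv hw (fun n => π (x n) ξ) N
    refine h4.trans (le_of_eq ?_)
    congr 2
    funext n
    rw [one_smul, hρ]
  have h5 := h3.sqrt
  rw [Real.sqrt_zero] at h5
  exact h5.congr fun N => Real.sqrt_sq (norm_nonneg _)

/-- **The polynomial ergodic theorem for unitary representations of nilpotent groups.** -/
theorem erg : ∀ (r : ℕ) (Γ : Type) [i : Group Γ], Group.IsNilpotent Γ → CS r Γ i →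
    ∀ (k : ℕ) (x : ℕ → Γ), PS k x → x 0 = 1 → Subgroup.closure (Set.range x) = ⊤ →
    ∀ (K : Type) [NormedAddCommGroup K] [InnerProductSpace ℂ K] [CompleteSpace K]
      (π : Γ →* (K ≃ₗᵢ[ℂ] K)), NF π → Z (fun _ => 1) (fun n => π (x n)) = ⊤ := by
  intro r
  induction r with
  | zero =>
    intro Γ i _ hCS k x _ _ _ K _ _ _ π hNF
    have hs : Subsingleton Γ := hCS
    rw [Submodule.eq_top_iff']
    intro ξ
    have h0 : ξ = 0 := hNF ⊤ inferInstance ξ fun g _ => by
      rw [Subsingleton.elim g 1, map_one]; rfl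
    rw [h0]
    exact Submodule.zero_mem _
  | succ r ih =>
    intro Γ i hnil hCS k x hx hx0 hgen K _ _ _ π hNF
    obtain ⟨c, hc, Δ, iΔ, q, hq, hk, hΔ⟩ := hCS
    have hnilΔ : Group.IsNilpotent Δ := Group.nilpotent_of_surjective q hq
    refine gen_of_scal π hNF x c hc ?_
    rintro K' _ _ _ π' hNF' ⟨θ, hθ⟩
    refine decomp π' (fun n => by simp) x ?_ ?_
    · intro W hW
      have hf : FiniteDimensional ℂ W := hW.1
      have hn : Nontrivial W := Submodule.nontrivial_iff_ne_bot.2 hW.2.2.1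
      exact fd_erg _ hW.irrR (hNF'.sub _ _) hx hx0 hgen
    · intro W hW hWc hno
      obtain ⟨L, _, _, _, ρ, v, hv, hρ, hd⟩ := exists_sq (sub π' W hW)
      have hρNF : NF ρ := nf_of_noFD hno hv hρ hd
      -- `c` acts trivially
      have hρc : ρ c = 1 := by
        ext ζ
        show ρ c ζ = ζ
        have h1 : ∀ ξ, ρ c (v ξ) = v ξ := by
          intro ξ
          rw [hρ]
          have e : sub π' W hW c ξ = ee θ • ξ := Subtype.ext (hθ ξ)
          rw [e]
          have h2 : ⟪v (ee θ • ξ) - v ξ, v (ee θ • ξ) - v ξ⟫_ℂ = 0 := by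
            have h3 : (starRingEnd ℂ) (ee θ) * ee θ = 1 := by
              rw [mul_comm, Complex.mul_conj, Complex.normSq_eq_norm_sq, norm_ee]; simp
            rw [inner_sub_left, inner_sub_right, inner_sub_right, hv, hv, hv, hv]
            simp only [inner_smul_left, inner_smul_right]
            linear_combination (⟪ξ, ξ⟫_ℂ * ⟪ξ, ξ⟫_ℂ * ((starRingEnd ℂ) (ee θ) * ee θ + 1) -
              2 * ⟪ξ, ξ⟫_ℂ * ⟪ξ, ξ⟫_ℂ) * h3
          exact sub_eq_zero.1 (inner_self_eq_zero.1 h2)
        refine sub_eq_zero.1 (hd _ fun ξ => ?_)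
        rw [inner_sub_right, rep_inner]
        have h4 : ρ c⁻¹ (v ξ) = v ξ := by
          conv_lhs => rw [← h1 ξ]
          exact rep_inv ρ c _
        rw [h4, sub_self]
      obtain ⟨ρ', hρ'⟩ := exists_factor q hq ρ (by
        rw [hk, Subgroup.zpowers_le]
        exact hρc)
      have hNF'' : NF ρ' := by
        intro N hN ζ hζ
        refine hρNF (N.comap q) ⟨by
          rw [Subgroup.index_comap_of_surjective N hq]
          exact hN.index_ne_zero⟩ ζ fun g hg => ?_
        rw [← hρ']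
        exact hζ _ hg
      have h5 := ih Δ hnilΔ hΔ k (fun n => q (x n)) (hx.map q) (by rw [hx0, map_one]) (by
        have : Set.range (fun n => q (x n)) = q '' Set.range x := by
          rw [← Set.range_comp]; rfl
        rw [this, ← MonoidHom.map_closure, hgen, Subgroup.map_top_of_surjective q hq]) L ρ' hNF''
      refine null_of_sq hv hρ ?_ (fun n => by simp)
      simp_rw [hρ'] at h5
      exact h5

/-- **Weights which are orthogonal to the polynomial phases** -/
theorem weights {Γ : Type} [Group Γ] [Group.IsNilpotent Γ] {k : ℕ} {x : ℕ → Γ} (hx : PS k x)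
    (hx0 : x 0 = 1) (hgen : Subgroup.closure (Set.range x) = ⊤) {K : Type} [NormedAddCommGroup K]
    [InnerProductSpace ℂ K] [CompleteSpace K] (π : Γ →* (K ≃ₗᵢ[ℂ] K)) {w : ℕ → ℂ}
    (hw : ∀ n, ‖w n‖ ≤ 1) (h : ∀ (P : ℕ → ℝ), IsPF P → ∀ T s : ℕ, s < T →
      Tendsto (vav fun j => w (T * j + s) * ee (P (T * j + s))) atTop (𝓝 0)) :
    Z w (fun n => π (x n)) = ⊤ := by
  have hfg : Group.FG Γ := Group.fg_def.2 (by rw [← hgen]; exact hx.fg)
  obtain ⟨r, hr⟩ := CS.of_nilpotent Γ
  refine decomp π hw x ?_ ?_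
  · intro W hW
    have hf : FiniteDimensional ℂ W := hW.1
    have hn : Nontrivial W := Submodule.nontrivial_iff_ne_bot.2 hW.2.2.1
    obtain ⟨P, T, A, hP, hT, hA, hπ, -⟩ := fd_form _ hW.irrR hx hgen
    exact fd_null hT hA hπ hw fun s hs => h P hP T s hs
  · intro W hW hWc hno
    obtain ⟨L, _, _, _, ρ, v, hv, hρ, hd⟩ := exists_sq (sub π W hW)
    have hρNF : NF ρ := nf_of_noFD hno hv hρ hd
    exact null_of_sq hv hρ (erg r Γ inferInstance hr k x hx hx0 hgen L ρ hρNF) hw

/-- **Möbius orthogonality of polynomial sequences of nilpotent groups.** -/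
theorem mob_null {Γ : Type} [Group Γ] [Group.IsNilpotent Γ] {k : ℕ} {x : ℕ → Γ} (hx : PS k x)
    (hx0 : x 0 = 1) {K : Type} [NormedAddCommGroup K]
    [InnerProductSpace ℂ K] [CompleteSpace K] (π : Γ →* (K ≃ₗᵢ[ℂ] K)) {f : ℕ → ℝ} (hf : IsPF f)
    {m r : ℕ} (hm : 0 < m) (hr : r < m) (ξ : K) :
    Tendsto (vav fun j => mob (m * j + r) • (ee (f j) • π (x j) ξ)) atTop (𝓝 0) := by
  set H : Subgroup Γ := Subgroup.closure (Set.range x) with hH
  let x' : ℕ → H := fun n => ⟨x n, Subgroup.subset_closure ⟨n, rfl⟩⟩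
  have hx' : PS k x' := by
    intro n
    have h2 := dd_map H.subtype k x'
    have h3 := congrFun h2 n
    exact Subtype.ext (h3.symm.trans (hx n))
  have hgen : Subgroup.closure (Set.range x') = ⊤ := by
    have h1 : (Subgroup.closure (Set.range x')).map H.subtype = (⊤ : Subgroup H).map H.subtype := by
      rw [MonoidHom.map_closure, ← Set.range_comp, ← MonoidHom.range_eq_map, H.range_subtype]
      rfl
    exact Subgroup.map_injective H.subtype_injective h1
  have h1 := weights hx' (Subtype.ext hx0) hgen (π.comp H.subtype)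
    (w := fun j => mob (m * j + r) * ee (f j)) (fun n => by
      rw [norm_mul, norm_ee, mul_one]; exact norm_mob_le _) (by
      intro P hP T s hs
      have hT : 0 < T := by omega
      obtain ⟨R, hR⟩ := hf.add hP
      have h2 := mob_poly (R.comp (Polynomial.C (T : ℝ) * Polynomial.X + Polynomial.C (s : ℝ))).natDegree
        (R.comp (Polynomial.C (T : ℝ) * Polynomial.X + Polynomial.C (s : ℝ))) (Nat.le_succ _)
        (m * T) (m * s + r) (Nat.mul_pos hm hT) (by
          have : m * (s + 1) ≤ m * T := Nat.mul_le_mul_left _ hs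
          have : m * (s + 1) = m * s + m := by ring
          omega)
      rw [cav_smul_iff] at h2
      refine h2.congr fun N => ?_
      rw [vav]
      congr 1
      refine Finset.sum_congr rfl fun j _ => ?_
      rw [show m * (T * j + s) + r = m * T * j + (m * s + r) by ring, mul_assoc (mob _), ← ee_add]
      congr 2
      have h3 : f (T * j + s) + P (T * j + s) = Polynomial.eval (((T * j + s : ℕ)) : ℝ) R :=
        hR (T * j + s)
      rw [h3, Polynomial.eval_comp]
      simp)
  have h2 : ξ ∈ Z (fun j => mob (m * j + r) * ee (f j)) (fun n => (π.comp H.subtype) (x' n)) := by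
    rw [h1]; trivial
  refine (mem_Z.1 h2).congr fun N => ?_
  rw [vav, vav]
  congr 1
  refine Finset.sum_congr rfl fun j _ => ?_
  rw [mul_smul]
  rfl

end Run7.h190.H
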