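import Pool.Agent.Run7.h190.Un
import Pool.Agent.Run7.h190.Main

/-! Unitaries whose differences lie in nilpotent groups: Möbius orthogonality of the orbits and of the
products of functionals. -/

set_option autoImplicit false
set_option linter.unusedSectionVars false

open Finset Filter Topology
open scoped InnerProductSpace ComplexOrder

namespace Run7.h190.G

section un

variable {N : Type} [Group N]

/-- iterates as homomorphisms -/
def pw (τ : N →* N) : ℕ → (N →* N)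
  | 0 => MonoidHom.id N
  | n + 1 => (pw τ n).comp τ

theorem pw_coe (τ : N →* N) (n : ℕ) : (pw τ n : N → N) = τ^[n] := by
  induction n with
  | zero => rfl
  | succ n ih =>
    funext x
    show pw τ n (τ x) = _
    rw [ih, Function.iterate_succ_apply]

theorem it_mul (τ : N →* N) (n : ℕ) (x y : N) : τ^[n] (x * y) = τ^[n] x * τ^[n] y := by
  rw [← pw_coe, map_mul]

theorem it_inv (τ : N →* N) (n : ℕ) (x : N) : τ^[n] x⁻¹ = (τ^[n] x)⁻¹ := by
  rw [← pw_coe, map_inv]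

theorem it_one (τ : N →* N) (n : ℕ) : τ^[n] (1 : N) = 1 := by
  rw [← pw_coe, map_one]

theorem un_raise {τ : N →* N} {M k : ℕ} {y : N} (h : (De (τ^[M]))^[k] y = 1) {l : ℕ} (hl : k ≤ l) :
    (De (τ^[M]))^[l] y = 1 := by
  obtain ⟨d, rfl⟩ := Nat.exists_eq_add_of_le hl
  rw [add_comm, Function.iterate_add_apply, h]
  exact De_one_iter τ M d

theorem un_mem [Group.IsNilpotent N] {τ : N →* N} {M : ℕ} {E : Set N} (hE : E.Finite)
    (h : ∀ e ∈ E, Un (τ^[M]) e) (j : ℕ) {y : N} (hy : y ∈ Subgroup.closure E) :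
    Un (τ^[M * j]) y := by
  choose! k hk using h
  obtain ⟨K, hK⟩ : ∃ K, ∀ e ∈ E, k e ≤ K :=
    ⟨hE.toFinset.sup k, fun e he => Finset.le_sup (hE.mem_toFinset.2 he)⟩
  have h1 := un_closure (pw τ M) E (k := K) (fun e he => by
    rw [pw_coe]
    exact un_raise (hk e he) (hK e he)) j hy
  rwa [pw_coe, ← Function.iterate_mul] at h1

theorem un_up [Group.IsNilpotent N] {τ : N →* N} {M : ℕ} {y : N} (h : Un (τ^[M]) y) (j : ℕ) :
    Un (τ^[M * j]) y :=
  un_mem (Set.finite_singleton y) (by rintro _ rfl; exact h) j (Subgroup.subset_closure rfl)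

theorem un_mul [Group.IsNilpotent N] {τ : N →* N} {M : ℕ} {x y : N} (hx : Un (τ^[M]) x)
    (hy : Un (τ^[M]) y) : Un (τ^[M]) (x * y) := by
  have := un_mem (τ := τ) (M := M) (E := {x, y}) (Set.toFinite _) (by
    rintro e (rfl | rfl)
    · exact hx
    · exact hy) 1 (y := x * y) (Subgroup.mul_mem _ (Subgroup.subset_closure (Or.inl rfl))
      (Subgroup.subset_closure (Or.inr rfl)))
  rwa [mul_one] at this

theorem un_inv [Group.IsNilpotent N] {τ : N →* N} {M : ℕ} {x : N} (hx : Un (τ^[M]) x) :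
    Un (τ^[M]) x⁻¹ := by
  have := un_mem (τ := τ) (M := M) (E := {x}) (Set.toFinite _) (by
    rintro e rfl
    exact hx) 1 (y := x⁻¹) (Subgroup.inv_mem _ (Subgroup.subset_closure rfl))
  rwa [mul_one] at this

theorem un_one (τ : N →* N) (M : ℕ) : Un (τ^[M]) (1 : N) := ⟨0, rfl⟩

theorem De_it (τ : N →* N) (M n k : ℕ) (y : N) :
    (De (τ^[M]))^[k] (τ^[n] y) = τ^[n] ((De (τ^[M]))^[k] y) := by
  induction k generalizing y with
  | zero => rfl
  | succ k ih =>
    rw [Function.iterate_succ_apply, Function.iterate_succ_apply, ← ih]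
    congr 1
    rw [De, De, it_mul, it_inv, ← Function.iterate_add_apply, ← Function.iterate_add_apply,
      add_comm]

theorem un_orbit {τ : N →* N} {M : ℕ} {x : N} (hx : Un (τ^[M]) x) (n : ℕ) :
    Un (τ^[M]) (τ^[n] x) := by
  obtain ⟨k, hk⟩ := hx
  exact ⟨k, by rw [De_it, hk, it_one]⟩

/-- the differences with larger steps -/
theorem De_step (τ : N →* N) (m j : ℕ) (g : N) (P : N → Prop) (h1 : P 1)
    (hm : ∀ x y, P x → P y → P (x * y)) (hP : ∀ i, P (τ^[i] (De (τ^[m]) g))) :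
    P (De (τ^[m * j]) g) := by
  induction j with
  | zero =>
    have : De (τ^[m * 0]) g = 1 := by simp [De]
    rw [this]; exact h1
  | succ j ih =>
    have e : De (τ^[m * (j + 1)]) g = De (τ^[m * j]) g * τ^[m * j] (De (τ^[m]) g) := by
      rw [De, De, De, Nat.mul_succ, Function.iterate_add_apply, it_mul, it_inv, ← mul_assoc,
        mul_assoc g⁻¹, mul_inv_cancel, mul_one]
    rw [e]
    exact hm _ _ ih (hP _)

/-- restriction of an endomorphism to an invariant subgroup -/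
theorem exists_restrict (σ : N →* N) (M : Subgroup N) (hM : ∀ x ∈ M, σ x ∈ M) :
    ∃ τ : M →* M, (∀ (n : ℕ) (x : M), ((τ^[n] x : M) : N) = σ^[n] (x : N)) ∧
      ∀ (i t : ℕ) (x : M), (((De (τ^[i]))^[t] x : M) : N) = (De (σ^[i]))^[t] (x : N) := by
  let τ : M →* M := (σ.comp M.subtype).codRestrict M fun x => hM x x.2
  have hτ : ∀ (n : ℕ) (x : M), ((τ^[n] x : M) : N) = σ^[n] (x : N) := by
    intro n
    induction n with
    | zero => intro x; rfl
    | succ n ih => intro x; rw [Function.iterate_succ_apply, Function.iterate_succ_apply, ih]; rfl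
  refine ⟨τ, hτ, fun i t => ?_⟩
  induction t with
  | zero => intro x; rfl
  | succ t ih =>
    intro x
    rw [Function.iterate_succ_apply, Function.iterate_succ_apply, ih]
    congr 1
    show ((x : N))⁻¹ * ((τ^[i] x : M) : N) = _
    rw [hτ, De]

/-- tame elements, with the step `M` -/
def TN (σ : N →* N) (M : ℕ) (g : N) : Prop :=
  ∃ L : Subgroup N, Group.IsNilpotent L ∧ (∀ x ∈ L, σ x ∈ L) ∧ De (σ^[M]) g ∈ L ∧
    Un (σ^[M]) (De (σ^[M]) g)

/-- quasi-unipotent elements -/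
def QU (σ : N →* N) (g : N) : Prop := ∃ m : ℕ, 0 < m ∧ Un (σ^[m]) g

/-- quasi-unipotence on the group generated by quasi-unipotent elements -/
theorem qu_closure [Group.IsNilpotent N] (τ : N →* N) (E : Set N) (hE : ∀ e ∈ E, QU τ e) {y : N}
    (hy : y ∈ Subgroup.closure E) : QU τ y := by
  induction hy using Subgroup.closure_induction with
  | mem x hx => exact hE x hx
  | one => exact ⟨1, one_pos, un_one τ 1⟩
  | mul a b _ _ ha hb =>
    obtain ⟨m, hm, h1⟩ := ha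
    obtain ⟨m', hm', h2⟩ := hb
    refine ⟨m * m', Nat.mul_pos hm hm', un_mul (un_up h1 m') ?_⟩
    rw [mul_comm]
    exact un_up h2 m
  | inv a _ ha =>
    obtain ⟨m, hm, h1⟩ := ha
    exact ⟨m, hm, un_inv h1⟩

theorem TN.mul {σ : N →* N} {M : ℕ} {g : N} (h : TN σ M g) (j : ℕ) : TN σ (M * j) g := by
  obtain ⟨L, hL, hσ, hmem, hun⟩ := h
  obtain ⟨τ, hτ, hDe⟩ := exists_restrict σ L hσ
  have hit : ∀ (n : ℕ), ∀ x ∈ L, σ^[n] x ∈ L := fun n x hx => by
    rw [← hτ n ⟨x, hx⟩]; exact (τ^[n] ⟨x, hx⟩).2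
  have hunL : ∀ (M : ℕ) (x : L), Un (τ^[M]) x ↔ Un (σ^[M]) (x : N) := by
    intro M x
    constructor
    · rintro ⟨k, hk⟩; exact ⟨k, by rw [← hDe, hk]; rfl⟩
    · rintro ⟨k, hk⟩; exact ⟨k, Subtype.ext (by rw [hDe, hk]; rfl)⟩
  have key : ∃ hm : De (σ^[M * j]) g ∈ L, Un (τ^[M * j]) ⟨De (σ^[M * j]) g, hm⟩ := by
    refine De_step σ M j g (fun y => ∃ hm : y ∈ L, Un (τ^[M * j]) ⟨y, hm⟩)
      ⟨L.one_mem, un_one _ _⟩ ?_ ?_
    · rintro x y ⟨hx, h1⟩ ⟨hy, h2⟩
      exact ⟨L.mul_mem hx hy, un_mul h1 h2⟩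
    · intro i
      have h1 : Un (τ^[M]) ⟨De (σ^[M]) g, hmem⟩ := (hunL _ _).2 hun
      have h2 := un_orbit (un_up h1 j) i
      have e : τ^[i] ⟨De (σ^[M]) g, hmem⟩ = ⟨σ^[i] (De (σ^[M]) g), hit i _ hmem⟩ :=
        Subtype.ext (hτ i _)
      rw [e] at h2
      exact ⟨_, h2⟩
  obtain ⟨hm, hu⟩ := key
  exact ⟨L, hL, hσ, hm, (hunL _ _).1 hu⟩

/-- from quasi-unipotent generators -/
theorem TN.of_qu {σ : N →* N} {L : Subgroup N} (hL : Group.IsNilpotent L) (hσ : ∀ x ∈ L, σ x ∈ L)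
    (hgen : ∀ x ∈ L, x ∈ Subgroup.closure {y | y ∈ L ∧ QU σ y}) {m : ℕ} (hm : 0 < m) {g : N}
    (hg : De (σ^[m]) g ∈ L) : ∃ M, 0 < M ∧ TN σ M g := by
  obtain ⟨τ, hτ, hDe⟩ := exists_restrict σ L hσ
  have hit : ∀ (n : ℕ), ∀ x ∈ L, σ^[n] x ∈ L := fun n x hx => by
    rw [← hτ n ⟨x, hx⟩]; exact (τ^[n] ⟨x, hx⟩).2
  have hunL : ∀ (M : ℕ) (x : L), Un (τ^[M]) x ↔ Un (σ^[M]) (x : N) := by
    intro M x
    constructor
    · rintro ⟨k, hk⟩; exact ⟨k, by rw [← hDe, hk]; rfl⟩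
    · rintro ⟨k, hk⟩; exact ⟨k, Subtype.ext (by rw [hDe, hk]; rfl)⟩
  have hqu : ∀ x : L, QU τ x := by
    intro x
    refine qu_closure τ {y : L | QU τ y} (fun e he => he) ?_
    have h1 := hgen x x.2
    have h2 : (Subgroup.closure {y : L | QU τ y}).map L.subtype =
        Subgroup.closure {y | y ∈ L ∧ QU σ y} := by
      rw [MonoidHom.map_closure]
      congr 1
      ext y
      constructor
      · rintro ⟨z, ⟨m, hm, hz⟩, rfl⟩
        exact ⟨z.2, m, hm, (hunL _ _).1 hz⟩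
      · rintro ⟨hy, m, hm, hu⟩
        exact ⟨⟨y, hy⟩, ⟨m, hm, (hunL _ _).2 hu⟩, rfl⟩
    rw [← h2] at h1
    obtain ⟨z, hz, hzx⟩ := h1
    have : z = x := Subtype.ext hzx
    rwa [← this]
  obtain ⟨m', hm', hu⟩ := hqu ⟨De (σ^[m]) g, hg⟩
  refine ⟨m * m', Nat.mul_pos hm hm', ?_⟩
  have key : ∃ hm : De (σ^[m * m']) g ∈ L, Un (τ^[m * m']) ⟨De (σ^[m * m']) g, hm⟩ := by
    refine De_step σ m m' g (fun y => ∃ hm : y ∈ L, Un (τ^[m * m']) ⟨y, hm⟩)
      ⟨L.one_mem, un_one _ _⟩ ?_ ?_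
    · rintro x y ⟨hx, h1⟩ ⟨hy, h2⟩
      exact ⟨L.mul_mem hx hy, un_mul h1 h2⟩
    · intro i
      have h2 := un_orbit (un_up hu m) i
      rw [mul_comm m' m] at h2
      have e : τ^[i] ⟨De (σ^[m]) g, hg⟩ = ⟨σ^[i] (De (σ^[m]) g), hit i _ hg⟩ :=
        Subtype.ext (hτ i _)
      rw [e] at h2
      exact ⟨_, h2⟩
  obtain ⟨hm1, hu1⟩ := key
  exact ⟨L, hL, hσ, hm1, (hunL _ _).1 hu1⟩

/-- **The orbits of tame elements are polynomial sequences.** -/
theorem TN.orbit {σ : N →* N} {M : ℕ} {g : N} (h : TN σ M g) (r : ℕ) :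
    ∃ (L : Subgroup N) (_ : Group.IsNilpotent L) (k : ℕ) (x : ℕ → L), PS k x ∧ x 0 = 1 ∧
      ∀ n, σ^[M * n + r] g = σ^[r] g * (x n : N) := by
  obtain ⟨L, hL, hσ, hmem, hun⟩ := h
  obtain ⟨τ, hτ, hDe⟩ := exists_restrict σ L hσ
  obtain ⟨k, hk⟩ := hun
  set y : L := ⟨De (σ^[M]) g, hmem⟩ with hy
  have hk' : (De (τ^[M]))^[k] y = 1 := Subtype.ext (by rw [hDe, hk]; rfl)
  let x : ℕ → L := fun n => Nat.rec 1 (fun n p => p * τ^[M * n + r] y) n
  have hx0 : x 0 = 1 := rfl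
  have hxs : ∀ n, x (n + 1) = x n * τ^[M * n + r] y := fun n => rfl
  have hdd : dd x = fun n => τ^[M * n + r] y := by
    funext n
    rw [dd, hxs, inv_mul_cancel_left]
  have hddk : ∀ j, dd^[j] (fun n => τ^[M * n + r] y) = fun n => τ^[M * n + r] ((De (τ^[M]))^[j] y) := by
    intro j
    induction j with
    | zero => rfl
    | succ j ih =>
      rw [Function.iterate_succ_apply', ih, Function.iterate_succ_apply']
      funext n
      have e : M * (n + 1) + r = (M * n + r) + M := by ring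
      simp only [dd]
      rw [e, Function.iterate_add_apply τ (M * n + r) M, ← it_inv, ← it_mul]
      rfl
  refine ⟨L, hL, k + 1, x, fun n => ?_, hx0, fun n => ?_⟩
  · rw [Function.iterate_succ_apply, hdd, hddk]
    show τ^[M * n + r] ((De (τ^[M]))^[k] y) = 1
    rw [hk', it_one]
  · induction n with
    | zero => rw [hx0, mul_zero, zero_add]; simp
    | succ n ih =>
      have e : M * (n + 1) + r = (M * n + r) + M := by ring
      have e2 : σ^[M] g = g * De (σ^[M]) g := by rw [De, mul_inv_cancel_left]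
      rw [e, Function.iterate_add_apply, e2, it_mul, ih, hxs, Subgroup.coe_mul, hτ, mul_assoc]

end un

end Run7.h190.G
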