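import Pool.Agent.Run7.h190.LV3
import Pool.Agent.Run7.h190.Cst

/-! Automorphisms of groups with a solvable normal subgroup. -/

set_option autoImplicit false
set_option linter.unusedSectionVars false

open Subgroup
open scoped commutatorElement

namespace Run7.h190.V

open Pool.Agent.H648R4 Run7.h190.G

section series

variable {D : Type} [Group D]

theorem map_EE {D' : Type} [Group D'] (f : D →* D') (s g : D) (m : ℕ) :
    (EE s g m).map f = EE (f s) (f g) m := by
  rw [EE, EE, MonoidHom.map_closure, Set.image_insert_eq, ← Set.range_comp]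
  congr 2
  · simp
  · congr 1
    funext j
    simp

theorem map_db {D' : Type} [Group D'] (f : D →* D') (b v : D) : f (db b v) = db (f b) (f v) := by
  rw [db, db]; simp

theorem map_db_iter {D' : Type} [Group D'] (f : D →* D') (b v : D) (k : ℕ) :
    f ((db b)^[k] v) = (db (f b))^[k] (f v) := by
  induction k generalizing v with
  | zero => rfl
  | succ k ih => rw [Function.iterate_succ_apply, ih, map_db, Function.iterate_succ_apply]

/-- induction along a series with abelian factors -/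
theorem series (s g : D) (R : ℕ → Subgroup D) (hR : ∀ i, (R i).Normal)
    (hab : ∀ i, ∀ x ∈ R i, ∀ y ∈ R i, ⁅x, y⁆ ∈ R (i + 1))
    (hLQ : ∀ i, ∀ v ∈ R i, ∃ M : ℕ, 0 < M ∧ ∃ k : ℕ, (db (s ^ M))^[k] v ∈ R (i + 1))
    (h0 : ∃ m : ℕ, 0 < m ∧ ∃ c, (EE s g m).lowerCentralSeries c ≤ R 0) (i : ℕ) :
    ∃ m : ℕ, 0 < m ∧ ∃ c, (EE s g m).lowerCentralSeries c ≤ R i := by
  induction i with
  | zero => exact h0
  | succ i ih =>
    obtain ⟨m, hm, c, hc⟩ := ih
    have inst := hR (i + 1)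
    set q := QuotientGroup.mk' (R (i + 1)) with hq
    have hqs : Function.Surjective q := QuotientGroup.mk'_surjective _
    have inst2 : ((R i).map q).Normal := (hR i).map q hqs
    have hA : ∀ x ∈ (R i).map q, ∀ y ∈ (R i).map q, x * y = y * x := by
      rintro _ ⟨x, hx, rfl⟩ _ ⟨y, hy, rfl⟩
      have h1 : q ⁅x, y⁆ = 1 := by
        rw [← MonoidHom.mem_ker, hq, QuotientGroup.ker_mk']
        exact hab i x hx y hy
      rw [map_commutatorElement, commutatorElement_eq_one_iff_mul_comm] at h1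
      exact h1
    have hL : LQ ((R i).map q) (q s) := by
      rintro _ ⟨v, hv, rfl⟩
      obtain ⟨M, hM, k, hk⟩ := hLQ i v hv
      refine ⟨M, hM, k, ?_⟩
      rw [← map_pow, ← map_db_iter, ← MonoidHom.mem_ker, hq, QuotientGroup.ker_mk']
      exact hk
    have hc' : (EE (q s) (q g) m).lowerCentralSeries c ≤ (R i).map q := by
      rw [← map_EE, ← map_lowerCentralSeries]
      exact map_mono hc
    obtain ⟨m', hm', hn⟩ := step hA hL hm hc'
    obtain ⟨n, hn⟩ := (isNilpotent_iff_lowerCentralSeries _).1 hn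
    refine ⟨m', hm', n, ?_⟩
    rw [← map_EE, ← map_lowerCentralSeries, Subgroup.map_eq_bot_iff, hq, QuotientGroup.ker_mk'] at hn
    exact hn

end series

variable {G : Type} [Group G]

/-- the derived series of a subgroup -/
def DR (R : Subgroup G) : ℕ → Subgroup G
  | 0 => R
  | i + 1 => ⁅DR R i, DR R i⁆

theorem DR_normal (R : Subgroup G) [hR : R.Normal] (i : ℕ) : (DR R i).Normal := by
  induction i with
  | zero => exact hR
  | succ i ih => exact Subgroup.commutator_normal _ _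

theorem DR_map (R : Subgroup G) (σ : G →* G) (h : ∀ x ∈ R, σ x ∈ R) (i : ℕ) :
    ∀ x ∈ DR R i, σ x ∈ DR R i := by
  induction i with
  | zero => exact h
  | succ i ih =>
    have h1 : DR R (i + 1) ≤ (DR R (i + 1)).comap σ := by
      show ⁅DR R i, DR R i⁆ ≤ _
      rw [commutator_le]
      intro a ha b hb
      rw [mem_comap, map_commutatorElement]
      exact commutator_mem_commutator (ih a ha) (ih b hb)
    exact fun x hx => h1 hx

theorem DR_eq (R : Subgroup G) (i : ℕ) : (derivedSeries R i).map R.subtype = DR R i := by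
  induction i with
  | zero =>
    rw [derivedSeries_zero, DR, ← MonoidHom.range_eq_map, R.range_subtype]
  | succ i ih => rw [derivedSeries_succ, map_commutator, ih]; rfl

theorem DR_bot (R : Subgroup G) (h : Group.IsSolvable R) : ∃ n, DR R n = ⊥ := by
  obtain ⟨n, hn⟩ := h.solvable
  exact ⟨n, by rw [← DR_eq, hn, Subgroup.map_bot]⟩

theorem sigma_iter (σ : G ≃* G) (n : ℕ) (x : G) : ((σ : MulAut G) ^ n) x = (σ : G → G)^[n] x := by
  induction n generalizing x with
  | zero => rfl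
  | succ n ih => rw [pow_succ, MulAut.mul_apply, ih, Function.iterate_succ_apply]

/-- the group theoretic part, in a group which contains the automorphism -/
theorem tame_aux {D : Type} [Group D] (ι : G →* D) (hι : Function.Injective ι) (s : D)
    (σ : G ≃* G) (hs1 : ∀ x : G, s * ι x * s⁻¹ = ι (σ x))
    (hnorm : ∀ Q : Subgroup G, Q.Normal → (∀ x ∈ Q, σ x ∈ Q) → (∀ x ∈ Q, σ.symm x ∈ Q) →
      (Q.map ι).Normal)
    (R : Subgroup G) [hRn : R.Normal] (hs : Group.IsSolvable R)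
    (h1 : ∀ x ∈ R, σ x ∈ R) (h2 : ∀ x ∈ R, σ.symm x ∈ R)
    (hLQ : ∀ i, ∀ x ∈ DR R i, ∃ M : ℕ, 0 < M ∧ ∃ k : ℕ, (De ((σ : G → G)^[M]))^[k] x ∈ DR R (i + 1))
    (g : G) (hg : ∃ m : ℕ, 0 < m ∧ De ((σ : G → G)^[m]) g ∈ R) :
    ∃ m : ℕ, 0 < m ∧ ∃ L : Subgroup G, Group.IsNilpotent L ∧ (∀ x ∈ L, σ x ∈ L) ∧
      De ((σ : G → G)^[m]) g ∈ L ∧ ∀ x ∈ L, ∃ k : ℕ, (De ((σ : G → G)^[m]))^[k] x = 1 := by
  have hsn : ∀ (n : ℕ) (x : G), s ^ n * ι x * (s ^ n)⁻¹ = ι ((σ : G → G)^[n] x) := by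
    intro n
    induction n with
    | zero => intro x; simp
    | succ n ih =>
      intro x
      rw [Function.iterate_succ_apply, ← ih, ← hs1, pow_succ]; group
  have hdb : ∀ (M : ℕ) (x : G), db (s ^ M) (ι x) = ι (De ((σ : G → G)^[M]) x) := by
    intro M x
    rw [db, hsn, De, map_mul, map_inv]
  have hdbk : ∀ (M k : ℕ) (x : G), (db (s ^ M))^[k] (ι x) = ι ((De ((σ : G → G)^[M]))^[k] x) := by
    intro M k
    induction k with
    | zero => intro x; rfl
    | succ k ih => intro x; rw [Function.iterate_succ_apply, hdb, ih, Function.iterate_succ_apply]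
  -- the series
  let RR : ℕ → Subgroup D := fun i => (DR R i).map ι
  have hRR : ∀ i, (RR i).Normal := fun i => hnorm _ (DR_normal R i)
    (DR_map R (σ : G →* G) h1 i) (DR_map R (σ.symm : G →* G) h2 i)
  have hab : ∀ i, ∀ x ∈ RR i, ∀ y ∈ RR i, ⁅x, y⁆ ∈ RR (i + 1) := by
    rintro i _ ⟨x, hx, rfl⟩ _ ⟨y, hy, rfl⟩
    refine ⟨⁅x, y⁆, commutator_mem_commutator hx hy, ?_⟩
    rw [map_commutatorElement]
  have hLQ' : ∀ i, ∀ v ∈ RR i, ∃ M : ℕ, 0 < M ∧ ∃ k : ℕ, (db (s ^ M))^[k] v ∈ RR (i + 1) := by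
    rintro i _ ⟨x, hx, rfl⟩
    obtain ⟨M, hM, k, hk⟩ := hLQ i x hx
    exact ⟨M, hM, k, _, hk, (hdbk M k x).symm⟩
  have hbase : ∃ m : ℕ, 0 < m ∧ ∃ c, (EE s (ι g) m).lowerCentralSeries c ≤ RR 0 := by
    obtain ⟨m, hm, hmR⟩ := hg
    refine ⟨m, hm, 1, ?_⟩
    have hnz : ∀ x : D, Nz (RR 0) x := by
      intro x
      have := hRR 0
      exact Nz.of_normal _ x
    have hle : EE s (ι g) m ≤ RR 0 ⊔ zpowers (s ^ m) := by
      rw [EE, closure_le]
      refine Set.insert_subset (mem_sup_right (mem_zpowers _)) ?_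
      rintro _ ⟨j, rfl⟩
      have e : (s ^ j * (ι g)⁻¹) * s ^ m * (s ^ j * (ι g)⁻¹)⁻¹ =
          (s ^ j * db (s ^ m) (ι g) * (s ^ j)⁻¹) * s ^ m := by
        have e3 : (s ^ j)⁻¹ * s ^ m = s ^ m * (s ^ j)⁻¹ := by
          rw [← zpow_neg, ← zpow_natCast, ← zpow_add, ← zpow_add, add_comm]
        have e4 : (s ^ j * db (s ^ m) (ι g) * (s ^ j)⁻¹) * s ^ m =
            s ^ j * db (s ^ m) (ι g) * ((s ^ j)⁻¹ * s ^ m) := by group
        rw [e4, e3, db]
        group
      simp only [SetLike.mem_coe]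
      rw [e]
      refine mul_mem (mem_sup_left ?_) (mem_sup_right (mem_zpowers _))
      refine (hnz (s ^ j) _ ?_).1
      rw [hdb]
      exact ⟨_, hmR, rfl⟩
    refine (commutator_mono hle hle).trans (comm_cyc (hnz _))
  obtain ⟨n, hn⟩ := DR_bot R hs
  obtain ⟨m, hm, c, hc⟩ := series s (ι g) RR hRR hab hLQ' hbase n
  have hbot : RR n = ⊥ := by
    show (DR R n).map ι = ⊥
    rw [hn, Subgroup.map_bot]
  rw [hbot] at hc
  set E := EE s (ι g) m with hE
  have hsE : Nz E s := by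
    refine Nz.closure ?_
    rintro y (rfl | ⟨j, rfl⟩)
    · have e1 : s * s ^ m * s⁻¹ = s ^ m := by rw [← pow_succ', pow_succ]; group
      have e2 : s⁻¹ * s ^ m * s = s ^ m := by
        have : s ^ m * s = s * s ^ m := by rw [← pow_succ', pow_succ]
        rw [mul_assoc, this, inv_mul_cancel_left]
      rw [e1, e2]
      exact ⟨subset_closure (Or.inl rfl), subset_closure (Or.inl rfl)⟩
    · refine ⟨subset_closure (Or.inr ⟨1 + j, ?_⟩), subset_closure (Or.inr ⟨-1 + j, ?_⟩)⟩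
      · simp only
        rw [zpow_add, zpow_one]; group
      · simp only
        rw [zpow_add, zpow_neg_one]; group
  refine ⟨m, hm, E.comap ι, ?_, ?_, ?_, ?_⟩
  · refine (isNilpotent_iff_lowerCentralSeries _).2 ⟨c, ?_⟩
    rw [← Subgroup.map_eq_bot_iff_of_injective _ hι, map_lowerCentralSeries, eq_bot_iff]
    exact (lowerCentralSeries_mono c (map_comap_le ι E)).trans hc
  · intro x hx
    rw [mem_comap] at hx ⊢
    rw [← hs1]
    exact (hsE _ hx).1
  · rw [mem_comap, ← hdb, db]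
    have h3 : ((ι g)⁻¹ * s ^ m * ((ι g)⁻¹)⁻¹) ∈ E := by
      have h4 : (s ^ (0 : ℤ) * (ι g)⁻¹) * s ^ m * (s ^ (0 : ℤ) * (ι g)⁻¹)⁻¹ ∈ E :=
        subset_closure (Or.inr ⟨0, rfl⟩)
      rwa [zpow_zero, one_mul] at h4
    have h5 : (s ^ m)⁻¹ ∈ E := inv_mem (subset_closure (Or.inl rfl))
    have := mul_mem h3 h5
    rw [inv_inv, mul_assoc, mul_assoc] at this
    rwa [mul_assoc]
  · intro x hx
    refine ⟨c, hι ?_⟩
    rw [map_one, ← hdbk]
    have h6 : ∀ k : ℕ, (db (s ^ m))^[k] (ι x) ∈ E.lowerCentralSeries k := by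
      intro k
      induction k with
      | zero => exact hx
      | succ k ih =>
        rw [Function.iterate_succ_apply']
        have e : ∀ y : D, db (s ^ m) y = ⁅y⁻¹, s ^ m⁆ := fun y => by
          rw [db, commutatorElement_def]; group
        rw [e]
        exact commutator_mem_commutator (inv_mem ih) (subset_closure (Or.inl rfl))
    exact Subgroup.mem_bot.1 (hc (h6 c))

theorem inv_zpow {σ : G ≃* G} {Q : Subgroup G} (h1 : ∀ x ∈ Q, σ x ∈ Q)
    (h2 : ∀ x ∈ Q, σ.symm x ∈ Q) : ∀ (n : ℤ) (x : G), x ∈ Q → ((σ : MulAut G) ^ n) x ∈ Q := by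
  intro n
  induction n using Int.induction_on with
  | zero => intro x hx; simpa using hx
  | succ n ih =>
    intro x hx
    rw [zpow_add_one, MulAut.mul_apply]
    exact ih _ (h1 x hx)
  | pred n ih =>
    intro x hx
    rw [zpow_sub_one, MulAut.mul_apply]
    exact ih _ (h2 x hx)

/-- **the group theoretic part** -/
theorem tame_group (σ : G ≃* G) (R : Subgroup G) [hRn : R.Normal] (hs : Group.IsSolvable R)
    (h1 : ∀ x ∈ R, σ x ∈ R) (h2 : ∀ x ∈ R, σ.symm x ∈ R)
    (hLQ : ∀ i, ∀ x ∈ DR R i, ∃ M : ℕ, 0 < M ∧ ∃ k : ℕ, (De ((σ : G → G)^[M]))^[k] x ∈ DR R (i + 1))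
    (g : G) (hg : ∃ m : ℕ, 0 < m ∧ De ((σ : G → G)^[m]) g ∈ R) :
    ∃ m : ℕ, 0 < m ∧ ∃ L : Subgroup G, Group.IsNilpotent L ∧ (∀ x ∈ L, σ x ∈ L) ∧
      De ((σ : G → G)^[m]) g ∈ L ∧ ∀ x ∈ L, ∃ k : ℕ, (De ((σ : G → G)^[m]))^[k] x = 1 := by
  refine tame_aux (D := G ⋊[zpowersHom (MulAut G) σ] Multiplicative ℤ) SemidirectProduct.inl
    SemidirectProduct.inl_injective (SemidirectProduct.inr (Multiplicative.ofAdd 1)) σ ?_ ?_ R hs h1
    h2 hLQ g hg
  · intro x
    have := SemidirectProduct.inl_aut (φ := zpowersHom (MulAut G) σ) (Multiplicative.ofAdd 1) x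
    rw [map_inv] at this
    rw [← this, zpowersHom_apply]
    simp
  · intro Q hQ h3 h4
    refine ⟨?_⟩
    rintro _ ⟨x, hx, rfl⟩ d
    have e2 := SemidirectProduct.inl_aut (φ := zpowersHom (MulAut G) σ) d.right x
    rw [map_inv] at e2
    have e3 : ∀ y z w : G ⋊[zpowersHom (MulAut G) σ] Multiplicative ℤ,
        y * z * w * (y * z)⁻¹ = y * (z * w * z⁻¹) * y⁻¹ := by
      intro y z w; group
    have e1 : d * SemidirectProduct.inl x * d⁻¹ =
        SemidirectProduct.inl (d.left * (zpowersHom (MulAut G) σ d.right x) * d.left⁻¹) := by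
      rw [map_mul, map_mul, map_inv, e2, ← e3, SemidirectProduct.inl_left_mul_inr_right]
    rw [e1]
    refine ⟨_, hQ.conj_mem _ ?_ _, rfl⟩
    rw [zpowersHom_apply]
    exact inv_zpow h3 h4 _ x hx

end Run7.h190.V
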