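import Pool.Agent.Run7.h190.Mdl
import Pool.Agent.Run7.h190.LV4

/-! Automorphisms without dissociate orbits. -/

set_option autoImplicit false
set_option linter.unusedSectionVars false

open Polynomial

namespace Run7.h190.M

open Run7.h190.G Run7.h190.V

/-- no orbit of a power of `σ` is dissociate in an abelian section -/
def NX (G : Type) [Group G] (σ : G → G) : Prop :=
  ∀ (H₁ : Subgroup G) (M : Type) [AddCommGroup M] (φ : H₁ →* Multiplicative M) (h : G) (s : ℕ)
    (hw : ∀ j : ℕ, σ^[s * j] h ∈ H₁), 0 < s →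
    ¬ Dis (fun j => Multiplicative.toAdd (φ ⟨_, hw j⟩))

section one

variable {H : Type} [Group H] (τ : H ≃* H)

/-- the induced map of the abelianization -/
noncomputable def TT : Module.End ℤ (Additive (Abelianization H)) :=
  (MonoidHom.toAdditive (τ.abelianizationCongr : Abelianization H →* Abelianization H)).toIntLinearMap

theorem TT_of (h : H) : TT τ (Additive.ofMul (Abelianization.of h)) =
    Additive.ofMul (Abelianization.of (τ h)) := rfl

theorem TT_injective : Function.Injective (TT τ) := by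
  intro x y hxy
  exact Additive.toMul.injective (τ.abelianizationCongr.injective (congrArg Additive.toMul hxy))

theorem TT_pow (n : ℕ) (h : H) : (TT τ ^ n) (Additive.ofMul (Abelianization.of h)) =
    Additive.ofMul (Abelianization.of ((τ : H → H)^[n] h)) := by
  induction n generalizing h with
  | zero => rfl
  | succ n ih => rw [pow_succ, Module.End.mul_apply, TT_of, ih, Function.iterate_succ_apply]

theorem TT_diff (m k : ℕ) (h : H) :
    ((TT τ ^ m - 1) ^ k) (Additive.ofMul (Abelianization.of h)) =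
    Additive.ofMul (Abelianization.of ((De ((τ : H → H)^[m]))^[k] h)) := by
  induction k generalizing h with
  | zero => rfl
  | succ k ih =>
    rw [pow_succ, Module.End.mul_apply, LinearMap.sub_apply, TT_pow, Module.End.one_apply,
      Function.iterate_succ_apply, ← ih]
    congr 1
    rw [← ofMul_div, div_eq_inv_mul, ← map_inv, ← map_mul]
    rfl

theorem lq_one (hnx : NX H τ) (h : H) :
    ∃ M : ℕ, 0 < M ∧ ∃ k : ℕ, (De ((τ : H → H)^[M]))^[k] h ∈ commutator H := by
  have h1 : ¬ Ex (Module.AEval' (TT τ)) := by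
    rintro ⟨N₁, M, _, φ, w, s, hw, hs, hd⟩
    let e : Additive (Abelianization H) ≃ₗ[ℤ] Module.AEval' (TT τ) := Module.AEval'.of (TT τ)
    obtain ⟨w0, rfl⟩ := e.surjective w
    obtain ⟨w1, rfl⟩ := Additive.ofMul.surjective w0
    obtain ⟨h, rfl⟩ := QuotientGroup.mk_surjective w1
    -- the pull back
    let f : H →* Multiplicative (Module.AEval' (TT τ)) :=
      (AddMonoidHom.toMultiplicative e.toLinearMap.toAddMonoidHom).comp
        ((MonoidHom.id _).comp (Abelianization.of : H →* Abelianization H))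
    have hf : ∀ (x : H), Multiplicative.toAdd (f x) = e (Additive.ofMul (Abelianization.of x)) :=
      fun x => rfl
    let H₁ : Subgroup H := (AddSubgroup.toSubgroup N₁).comap f
    have hH₁ : ∀ x : H, x ∈ H₁ ↔ e (Additive.ofMul (Abelianization.of x)) ∈ N₁ := fun x => Iff.rfl
    let φ' : H₁ →* Multiplicative M :=
      { toFun := fun x => Multiplicative.ofAdd (φ ⟨_, (hH₁ x).1 x.2⟩)
        map_one' := by
          rw [← ofAdd_zero, ← map_zero φ]
          congr 2
        map_mul' := by
          intro x y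
          rw [← ofAdd_add, ← map_add φ]
          congr 2 }
    have hkey : ∀ j : ℕ, (X ^ (s * j) : ℤ[X]) • e (Additive.ofMul (Abelianization.of h)) =
        e (Additive.ofMul (Abelianization.of ((τ : H → H)^[s * j] h))) := by
      intro j
      have := Module.AEval.X_pow_smul_of (R := ℤ) (M := Additive (Abelianization H)) (TT τ)
        (Additive.ofMul (Abelianization.of h)) (s * j)
      rw [Module.End.smul_def, TT_pow] at this
      exact this
    refine hnx H₁ M φ' h s (fun j => ?_) hs ?_
    · rw [hH₁, ← hkey]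
      exact hw j
    · refine Dis.congr (fun j => ?_) hd
      show φ _ = φ _
      congr 1
      exact Subtype.ext (hkey j).symm
  obtain ⟨a, m, k, hm, h2⟩ := qp_of_not_ex _ h1
    (Module.AEval'.of (TT τ) (Additive.ofMul (Abelianization.of h)))
  refine ⟨m, hm, k, ?_⟩
  have h3 := Module.AEval.of_aeval_smul (R := ℤ) (M := Additive (Abelianization H)) (TT τ)
    (X ^ a * (X ^ m - 1) ^ k) (Additive.ofMul (Abelianization.of h))
  have h4 : (aeval (TT τ) (X ^ a * (X ^ m - 1) ^ k : ℤ[X])) •
      (Additive.ofMul (Abelianization.of h)) = (0 : Additive (Abelianization H)) := by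
    apply (Module.AEval.of ℤ (Additive (Abelianization H)) (TT τ)).injective
    rw [h3, map_zero]
    exact h2
  rw [map_mul, map_pow, map_pow, map_sub, map_pow, aeval_X, map_one, Module.End.smul_def,
    Module.End.mul_apply, TT_diff] at h4
  have h5 : Additive.ofMul (Abelianization.of ((De ((τ : H → H)^[m]))^[k] h)) = 0 := by
    have h6 : Function.Injective (TT τ ^ a) := by
      rw [Module.End.coe_pow]
      exact (TT_injective τ).iterate a
    apply h6
    rw [h4, map_zero]
  have h7 : Abelianization.of ((De ((τ : H → H)^[m]))^[k] h) = 1 := h5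
  rwa [← MonoidHom.mem_ker, Abelianization.ker_of] at h7

end one

variable {G : Type} [Group G]

theorem lq_of_nx (σ : G ≃* G) (hnx : NX G σ) (H : Subgroup G) (h1 : ∀ x ∈ H, σ x ∈ H)
    (h2 : ∀ x ∈ H, σ.symm x ∈ H) (h : G) (hh : h ∈ H) :
    ∃ M : ℕ, 0 < M ∧ ∃ k : ℕ, (De ((σ : G → G)^[M]))^[k] h ∈ ⁅H, H⁆ := by
  let τ : H ≃* H :=
    { toFun := fun x => ⟨σ x, h1 x x.2⟩
      invFun := fun x => ⟨σ.symm x, h2 x x.2⟩
      left_inv := fun x => Subtype.ext (σ.symm_apply_apply x)
      right_inv := fun x => Subtype.ext (σ.apply_symm_apply x)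
      map_mul' := fun x y => Subtype.ext (map_mul σ _ _) }
  have hτ : ∀ (n : ℕ) (x : H), (((τ : H → H)^[n] x : H) : G) = (σ : G → G)^[n] (x : G) := by
    intro n
    induction n with
    | zero => intro x; rfl
    | succ n ih => intro x; rw [Function.iterate_succ_apply, Function.iterate_succ_apply, ih]; rfl
  have hDe : ∀ (M k : ℕ) (x : H), (((De ((τ : H → H)^[M]))^[k] x : H) : G) =
      (De ((σ : G → G)^[M]))^[k] (x : G) := by
    intro M k
    induction k with
    | zero => intro x; rfl
    | succ k ih =>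
      intro x
      rw [Function.iterate_succ_apply, Function.iterate_succ_apply, ih]
      congr 1
      rw [De, De, Subgroup.coe_mul, hτ, Subgroup.coe_inv]
  have hnx' : NX H τ := by
    intro H₁ M _ φ x s hw hs hd
    refine hnx (H₁.map H.subtype) M
      (φ.comp (H₁.equivMapOfInjective H.subtype H.subtype_injective).symm.toMonoidHom) (x : G) s
      (fun j => ⟨_, hw j, hτ _ x⟩) hs ?_
    refine Dis.congr (fun j => ?_) hd
    show Multiplicative.toAdd (φ _) = Multiplicative.toAdd (φ _)
    congr 2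
    show (H₁.equivMapOfInjective H.subtype H.subtype_injective).symm _ = _
    rw [MulEquiv.symm_apply_eq]
    exact Subtype.ext (hτ _ x).symm
  obtain ⟨M, hM, k, h3⟩ := lq_one τ hnx' ⟨h, hh⟩
  refine ⟨M, hM, k, ?_⟩
  rw [← hDe M k ⟨h, hh⟩, ← Subgroup.map_subtype_commutator]
  exact ⟨_, h3, rfl⟩

/-- **The group theoretic conclusion.** -/
theorem tame_of_nx (σ : G ≃* G) (hnx : NX G σ) (R : Subgroup G) [hRn : R.Normal]
    (hs : Group.IsSolvable R) (h1 : ∀ x ∈ R, σ x ∈ R) (h2 : ∀ x ∈ R, σ.symm x ∈ R)
    (g : G) (hg : ∃ m : ℕ, 0 < m ∧ De ((σ : G → G)^[m]) g ∈ R) :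
    ∃ m : ℕ, 0 < m ∧ ∃ L : Subgroup G, Group.IsNilpotent L ∧ (∀ x ∈ L, σ x ∈ L) ∧
      De ((σ : G → G)^[m]) g ∈ L ∧ ∀ x ∈ L, ∃ k : ℕ, (De ((σ : G → G)^[m]))^[k] x = 1 :=
  tame_group σ R hs h1 h2 (fun i x hx => lq_of_nx σ hnx (DR R i)
    (DR_map R (σ : G →* G) h1 i) (DR_map R (σ.symm : G →* G) h2 i) x hx) g hg

end Run7.h190.M
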