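import Pool.Agent.Helper86.NC.LGDefs
import Pool.Agent.Run7.h190.Ent
import Pool.Agent.Run7.h190.Lqn

/-! Signed sums of unitaries of a group in a quasi-regular representation. -/

set_option autoImplicit false
set_option linter.unusedSectionVars false

open Finset
open scoped InnerProductSpace

namespace Run7.h190.E

open Pool.Agent.Helper86.NC Run7.h190.M

section perm

variable {G X : Type} [Group G] [MulAction G X]

/-- the permutation representation -/
noncomputable def pr (G X : Type) [Group G] [MulAction G X] : G →* unitary (L2 X →L[ℂ] L2 X) where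
  toFun g := ⟨permOp (MulAction.toPerm g), by
    rw [Unitary.mem_iff, permOp_star, permOp_mul, permOp_mul]
    constructor
    · rw [Equiv.self_trans_symm]; exact permOp_one
    · rw [Equiv.symm_trans_self]; exact permOp_one⟩
  map_one' := by
    apply Subtype.ext
    show permOp (MulAction.toPerm (1 : G)) = 1
    rw [← permOp_one]
    congr 1
    ext x; simp
  map_mul' g h := by
    apply Subtype.ext
    show permOp (MulAction.toPerm (g * h)) = permOp (MulAction.toPerm g) * permOp (MulAction.toPerm h)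
    rw [permOp_mul]
    congr 1
    ext x; simp [mul_smul]

theorem pr_delta [DecidableEq X] (g : G) (x : X) :
    ((pr G X g : unitary (L2 X →L[ℂ] L2 X)) : L2 X →L[ℂ] L2 X) (delta x) = delta (g • x) :=
  permOp_delta (MulAction.toPerm g) x

theorem inner_delta [DecidableEq X] (x y : X) :
    ⟪(delta x : L2 X), delta y⟫_ℂ = if x = y then 1 else 0 := by
  have h := lp.inner_single_left (𝕜 := ℂ) (G := fun _ : X => ℂ) x (1 : ℂ) (delta y : L2 X)
  have h2 : ⟪(delta x : L2 X), delta y⟫_ℂ = ⟪(1 : ℂ), (delta y : L2 X) x⟫_ℂ := h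
  rw [h2]
  unfold delta
  rw [lp.single_apply, Pi.single_apply]
  split_ifs <;> simp

/-- the lower bound -/
theorem lower {n : ℕ} (h : Fin n → G) (x : Finset (Fin n) → X) (hx : Function.Injective x)
    (h1 : ∀ F : Finset (Fin n), ∀ j, j ∉ F → h j • x F = x (insert j F))
    (h2 : ∀ F F' : Finset (Fin n), ∀ j ∈ F, h j • x F = x F' → F' = F.erase j)
    (z : Fin n → Bool) :
    (n : ℝ) / 2 ≤ ‖∑ j, sg (z j) • ((pr G X (h j) : unitary (L2 X →L[ℂ] L2 X)) :
      L2 X →L[ℂ] L2 X)‖ := by
  classical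
  set T : L2 X →L[ℂ] L2 X := ∑ j, sg (z j) • ((pr G X (h j) : unitary (L2 X →L[ℂ] L2 X)) :
      L2 X →L[ℂ] L2 X) with hT
  set ξ : L2 X := ∑ F : Finset (Fin n), (ch F z : ℂ) • delta (x F) with hξ
  have hsq : ∀ F : Finset (Fin n), ch F z * ch F z = 1 := by
    intro F
    rw [ch, ← prod_mul_distrib]
    exact prod_eq_one fun j _ => sg_mul_self _
  -- inner products with basis vectors
  have hin : ∀ y : X, ⟪ξ, delta y⟫_ℂ = ((∑ F : Finset (Fin n), if x F = y then ch F z else 0 : ℝ) : ℂ) := by
    intro y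
    rw [hξ, sum_inner]
    push_cast
    refine sum_congr rfl fun F _ => ?_
    rw [inner_smul_left, inner_delta]
    split_ifs <;> simp
  have hinx : ∀ F : Finset (Fin n), ⟪ξ, delta (x F)⟫_ℂ = (ch F z : ℂ) := by
    intro F
    rw [hin, Finset.sum_eq_single F]
    · simp
    · intro F' _ hF'
      rw [if_neg]
      exact fun h => hF' (hx h)
    · intro h; exact absurd (mem_univ _) h
  have hnorm : ‖ξ‖ ^ 2 = 2 ^ n := by
    have e : ⟪ξ, ξ⟫_ℂ = (((2 : ℝ) ^ n : ℝ) : ℂ) := by
      have : ⟪ξ, ∑ F : Finset (Fin n), (ch F z : ℂ) • (delta (x F) : L2 X)⟫_ℂ =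
          (((2 : ℝ) ^ n : ℝ) : ℂ) := by
        rw [inner_sum]
        have e2 : ∀ F ∈ (univ : Finset (Finset (Fin n))),
            ⟪ξ, (ch F z : ℂ) • (delta (x F) : L2 X)⟫_ℂ = 1 := by
          intro F _
          rw [inner_smul_right, hinx, ← Complex.ofReal_mul, hsq, Complex.ofReal_one]
        rw [sum_congr rfl e2]
        simp
      rwa [← hξ] at this
    have e3 : (⟪ξ, ξ⟫_ℂ).re = ‖ξ‖ ^ 2 := inner_self_eq_norm_sq (𝕜 := ℂ) ξ
    rw [← e3, e, Complex.ofReal_re]
  -- the quadratic form
  have hTξ : ⟪ξ, T ξ⟫_ℂ = ((∑ j, ∑ F : Finset (Fin n), sg (z j) * ch F z *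
      (∑ F' : Finset (Fin n), if x F' = h j • x F then ch F' z else 0) : ℝ) : ℂ) := by
    have e1 : T ξ = ∑ j, ∑ F : Finset (Fin n), ((sg (z j) * ch F z : ℝ) : ℂ) • (delta (h j • x F) : L2 X) := by
      rw [hT, _root_.sum_apply]
      refine sum_congr rfl fun j _ => ?_
      rw [_root_.smul_apply, hξ, map_sum, Finset.smul_sum]
      refine sum_congr rfl fun F _ => ?_
      rw [map_smul, pr_delta, Complex.ofReal_mul, mul_smul, Complex.coe_smul, Complex.coe_smul]
      rfl
    rw [e1, inner_sum]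
    push_cast
    refine sum_congr rfl fun j _ => ?_
    rw [inner_sum]
    refine sum_congr rfl fun F _ => ?_
    rw [inner_smul_right, hin]
    push_cast
    ring
  have hterm : ∀ (j : Fin n) (F : Finset (Fin n)), (if j ∉ F then (1 : ℝ) else 0) ≤
      sg (z j) * ch F z * (∑ F' : Finset (Fin n), if x F' = h j • x F then ch F' z else 0) := by
    intro j F
    by_cases hj : j ∈ F
    · rw [if_neg (not_not.2 hj)]
      by_cases hex : ∃ F', x F' = h j • x F
      · obtain ⟨F', hF'⟩ := hex
        have h3 := h2 F F' j hj hF'.symm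
        rw [Finset.sum_eq_single F']
        · rw [if_pos hF', h3]
          have e3 : ch F z = sg (z j) * ch (F.erase j) z := by
            rw [ch, ch, mul_prod_erase F (fun j => sg (z j)) hj]
          rw [e3]
          have e4 : sg (z j) * (sg (z j) * ch (F.erase j) z) * ch (F.erase j) z = 1 := by
            have := hsq (F.erase j)
            have h5 := sg_mul_self (z j)
            calc _ = (sg (z j) * sg (z j)) * (ch (F.erase j) z * ch (F.erase j) z) := by ring
              _ = 1 := by rw [this, h5, one_mul]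
          rw [e4]; norm_num
        · intro F'' _ hF''
          rw [if_neg]
          intro h4
          exact hF'' (hx (h4.trans hF'.symm))
        · intro h; exact absurd (mem_univ _) h
      · rw [Finset.sum_eq_zero, mul_zero]
        intro F' _
        rw [if_neg]
        exact fun h => hex ⟨F', h⟩
    · rw [if_pos hj, Finset.sum_eq_single (insert j F)]
      · rw [if_pos (h1 F j hj).symm]
        have e3 : ch (insert j F) z = sg (z j) * ch F z := by
          rw [ch, ch, prod_insert hj]
        rw [e3]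
        have := hsq F
        have h5 := sg_mul_self (z j)
        have e4 : sg (z j) * ch F z * (sg (z j) * ch F z) = 1 := by
          calc _ = (sg (z j) * sg (z j)) * (ch F z * ch F z) := by ring
            _ = 1 := by rw [this, h5, one_mul]
        rw [e4]
      · intro F' _ hF'
        rw [if_neg]
        intro h4
        rw [h1 F j hj] at h4
        exact hF' (hx h4)
      · intro h; exact absurd (mem_univ _) h
  have hcount : ∀ j : Fin n, 2 * ∑ F : Finset (Fin n), (if j ∉ F then (1 : ℝ) else 0) = 2 ^ n := by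
    intro j
    have e1 : ∑ F : Finset (Fin n), (if j ∉ F then (1 : ℝ) else 0) =
        ∑ F : Finset (Fin n), (if j ∈ F then (1 : ℝ) else 0) := by
      rw [resum {j} (fun F => if j ∉ F then (1 : ℝ) else 0)]
      refine sum_congr rfl fun F _ => ?_
      by_cases hj : j ∈ F <;> simp [mem_symmDiff, hj]
    have e2 : ∑ F : Finset (Fin n), (if j ∉ F then (1 : ℝ) else 0) +
        ∑ F : Finset (Fin n), (if j ∈ F then (1 : ℝ) else 0) = 2 ^ n := by
      rw [← sum_add_distrib]
      have : ∀ F ∈ (univ : Finset (Finset (Fin n))),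
          (if j ∉ F then (1 : ℝ) else 0) + (if j ∈ F then (1 : ℝ) else 0) = 1 := by
        intro F _
        by_cases hj : j ∈ F <;> simp [hj]
      rw [sum_congr rfl this]
      simp
    rw [← e1] at e2
    linarith
  have hlow : (n : ℝ) / 2 * 2 ^ n ≤ ‖⟪ξ, T ξ⟫_ℂ‖ := by
    rw [hTξ, Complex.norm_real, Real.norm_eq_abs]
    refine le_trans ?_ (le_abs_self _)
    have h3 : ∑ j : Fin n, ∑ F : Finset (Fin n), (if j ∉ F then (1 : ℝ) else 0) ≤
        ∑ j, ∑ F : Finset (Fin n), sg (z j) * ch F z *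
      (∑ F' : Finset (Fin n), if x F' = h j • x F then ch F' z else 0) :=
      sum_le_sum fun j _ => sum_le_sum fun F _ => hterm j F
    refine le_trans (le_of_eq ?_) h3
    have h4 : ∀ j ∈ (univ : Finset (Fin n)), ∑ F : Finset (Fin n), (if j ∉ F then (1 : ℝ) else 0) =
        2 ^ n / 2 := by
      intro j _
      have := hcount j
      linarith
    rw [sum_congr rfl h4, sum_const, card_univ, Fintype.card_fin, nsmul_eq_mul]
    ring
  have hup : ‖⟪ξ, T ξ⟫_ℂ‖ ≤ ‖T‖ * 2 ^ n := by
    calc ‖⟪ξ, T ξ⟫_ℂ‖ ≤ ‖ξ‖ * ‖T ξ‖ := norm_inner_le_norm _ _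
      _ ≤ ‖ξ‖ * (‖T‖ * ‖ξ‖) := mul_le_mul_of_nonneg_left (T.le_opNorm ξ) (norm_nonneg _)
      _ = ‖T‖ * ‖ξ‖ ^ 2 := by ring
      _ = ‖T‖ * 2 ^ n := by rw [hnorm]
  have h2n : (0 : ℝ) < 2 ^ n := by positivity
  exact le_of_mul_le_mul_right (hlow.trans hup) h2n

end perm

/-- the lower bound from a dissociate orbit in an abelian section -/
theorem lower_dis {G : Type} [Group G] (H₁ : Subgroup G) {M : Type} [AddCommGroup M]
    (φ : H₁ →* Multiplicative M) (h : ℕ → G) (hh : ∀ j, h j ∈ H₁)
    (hd : Dis (fun j => Multiplicative.toAdd (φ ⟨h j, hh j⟩))) (n : ℕ) (z : Fin n → Bool) :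
    ∃ (K : Subgroup G), (n : ℝ) / 2 ≤ ‖∑ j : Fin n, sg (z j) •
      ((pr G (G ⧸ K) (h j) : unitary (L2 (G ⧸ K) →L[ℂ] L2 (G ⧸ K))) :
        L2 (G ⧸ K) →L[ℂ] L2 (G ⧸ K))‖ := by
  classical
  set K : Subgroup G := φ.ker.map H₁.subtype with hK
  refine ⟨K, ?_⟩
  -- representatives
  have hmk : ∀ a b : H₁, ((a : G) : G ⧸ K) = ((b : G) : G ⧸ K) ↔ φ a = φ b := by
    intro a b
    rw [QuotientGroup.eq]
    constructor
    · rintro ⟨c, hc, hce⟩
      have e : c = a⁻¹ * b := Subtype.ext hce
      rw [SetLike.mem_coe, MonoidHom.mem_ker, e, map_mul, map_inv] at hc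
      exact (inv_mul_eq_one.1 hc)
    · intro hab
      refine ⟨a⁻¹ * b, ?_, rfl⟩
      rw [SetLike.mem_coe, MonoidHom.mem_ker, map_mul, map_inv, hab, inv_mul_cancel]
  let e : Fin n → H₁ := fun j => ⟨h j, hh j⟩
  let pf : Finset (Fin n) → H₁ := fun F => ((F.toList.map e).prod)
  have hpf : ∀ F, Multiplicative.toAdd (φ (pf F)) = ∑ j ∈ F, Multiplicative.toAdd (φ (e j)) := by
    intro F
    show Multiplicative.toAdd (φ ((F.toList.map e).prod)) = _
    rw [map_list_prod, List.map_map]
    have h1 : Multiplicative.toAdd ((List.map (⇑φ ∘ e) F.toList).prod) =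
        (List.map (fun j => Multiplicative.toAdd (φ (e j))) F.toList).sum := by
      induction F.toList with
      | nil => rfl
      | cons a l ih => rw [List.map_cons, List.prod_cons, List.map_cons, List.sum_cons, toAdd_mul, ih]; rfl
    rw [h1, Finset.sum_map_toList]
  -- the embedding of the index sets
  let ι : Fin n ↪ ℕ := Fin.valEmbedding
  have hsum : ∀ F : Finset (Fin n), ∑ j ∈ F, Multiplicative.toAdd (φ (e j)) =
      ∑ i ∈ F.map ι, Multiplicative.toAdd (φ ⟨h i, hh i⟩) := by
    intro F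
    rw [Finset.sum_map]
    rfl
  refine lower (fun j : Fin n => h j) (fun F => ((pf F : G) : G ⧸ K)) ?_ ?_ ?_ z
  · intro F F' hF
    have h1 := (hmk _ _).1 hF
    have h2 := congrArg Multiplicative.toAdd h1
    rw [hpf, hpf, hsum, hsum] at h2
    exact Finset.map_injective ι ((hd _ _).1 h2)
  · intro F j hj
    show ((h j * (pf F : G) : G) : G ⧸ K) = _
    refine (hmk (e j * pf F) (pf (insert j F))).2 ?_
    apply Multiplicative.toAdd.injective
    rw [hpf, map_mul, toAdd_mul, hpf, sum_insert hj]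
  · intro F F' j hj hF
    have h0 : ((h j * (pf F : G) : G) : G ⧸ K) = ((pf F' : G) : G ⧸ K) := hF
    have h1 := (hmk (e j * pf F) (pf F')).1 h0
    have h2 := congrArg Multiplicative.toAdd h1
    rw [map_mul, toAdd_mul, hpf, hpf, hsum, hsum] at h2
    have h3 := (hd (F.map ι) (F'.map ι)).2 (ι j) (Finset.mem_map_of_mem ι hj) h2
    rw [← Finset.map_erase] at h3
    exact Finset.map_injective ι h3

end Run7.h190.E
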