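import Pool.Agent.Run7.h190.FD
import Pool.Agent.TH261.NP.TopS

/-! A polynomial ergodic theorem for unitary representations of nilpotent groups. -/

set_option autoImplicit false
set_option linter.unusedSectionVars false

open Finset Filter Topology
open scoped InnerProductSpace ComplexOrder

namespace Run7.h190.H

open Pool.Agent.TH261.AB Pool.Agent.TH261.NP Pool.Agent.Helper188.NCM Pool.Agent.W661.Nrm Run7.h190.G

/-- strong convergence to zero needs to be checked in irreducible representations only -/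
theorem rain_vec {U : Type} [CStarAlgebra U] {a : ℕ → U} {C : ℝ} (ha : ∀ N, ‖a N‖ ≤ C)
    (h : ∀ (K : Type) [NormedAddCommGroup K] [InnerProductSpace ℂ K] [CompleteSpace K]
      (π : U →⋆ₐ[ℂ] (K →L[ℂ] K)), Irr π → ∀ ξ : K, Tendsto (fun N => π (a N) ξ) atTop (𝓝 0))
    (K : Type) [NormedAddCommGroup K] [InnerProductSpace ℂ K] [CompleteSpace K]
    (π : U →⋆ₐ[ℂ] (K →L[ℂ] K)) (ξ : K) : Tendsto (fun N => π (a N) ξ) atTop (𝓝 0) := by
  let _ : PartialOrder U := CStarAlgebra.spectralOrder U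
  have _ : StarOrderedRing U := CStarAlgebra.spectralOrderedRing U
  have hC : 0 ≤ C := (norm_nonneg _).trans (ha 0)
  have hb : ∀ N, ‖star (a N) * a N‖ ≤ C * C := by
    intro N
    rw [CStarRing.norm_star_mul_self]
    have := ha N
    gcongr
  have hsq : ∀ (K' : Type) [NormedAddCommGroup K'] [InnerProductSpace ℂ K'] [CompleteSpace K']
      (π' : U →⋆ₐ[ℂ] (K' →L[ℂ] K')) (η : K') (a : U),
      ⟪η, π' (star a * a) η⟫_ℂ = ((‖π' a η‖ : ℂ)) ^ 2 := by
    intro K' _ _ _ π' η a
    rw [map_mul, map_star, mul_apply_eq_comp, ContinuousLinearMap.star_eq_adjoint,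
      ContinuousLinearMap.adjoint_inner_right, inner_self_eq_norm_sq_to_K]
    rfl
  have h1 : ∀ φ : U →ₚ[ℂ] ℂ, Pure φ → Tendsto (fun N => φ (star (a N) * a N)) atTop (𝓝 0) := by
    intro φ hφ
    have h2 := h φ.GNS φ.gnsStarAlgHom (irr_of_pure hφ) (om φ)
    rw [tendsto_zero_iff_norm_tendsto_zero] at h2
    have h3 := (Complex.continuous_ofReal.tendsto 0).comp h2
    rw [Complex.ofReal_zero] at h3
    have h4 := h3.pow 2
    rw [zero_pow two_ne_zero] at h4
    refine h4.congr fun N => ?_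
    rw [← gns_inner, hsq]
    rfl
  have h5 := rain hb h1 (vec π ξ)
  have h6 : Tendsto (fun N => ‖π (a N) ξ‖ ^ 2) atTop (𝓝 0) := by
    have h7 := (Complex.continuous_re.tendsto 0).comp h5
    rw [Complex.zero_re] at h7
    refine h7.congr fun N => ?_
    rw [Function.comp_apply, vec_apply, hsq, ← Complex.ofReal_pow, Complex.ofReal_re]
  rw [tendsto_zero_iff_norm_tendsto_zero]
  have h8 := h6.sqrt
  rw [Real.sqrt_zero] at h8
  refine h8.congr fun N => ?_
  rw [Real.sqrt_sq (norm_nonneg _)]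

section

variable {K : Type} [NormedAddCommGroup K] [InnerProductSpace ℂ K]

/-- the mean ergodic theorem for one unitary -/
theorem mean_one [CompleteSpace K] (V : K →L[ℂ] K) (hV : ‖V‖ ≤ 1) (ω : ℂ) (hω : ‖ω‖ = 1) (ξ : K)
    (h : ∀ η, V η = ω • η → ⟪η, ξ⟫_ℂ = 0) :
    Tendsto (fun M : ℕ => ((M : ℂ)⁻¹ • ∑ n ∈ range M, (star ω) ^ n • V ^ n) ξ) atTop (𝓝 0) := by
  have hωω : star ω * ω = 1 := by
    rw [Complex.star_def, mul_comm, Complex.mul_conj, Complex.normSq_eq_norm_sq, hω]; simp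
  have hf : ‖star ω • V‖ ≤ 1 := by rw [norm_smul, norm_star, hω, one_mul]; exact hV
  have h1 := ContinuousLinearMap.tendsto_birkhoffAverage_orthogonalProjection (star ω • V) hf ξ
  have h2 : ((((star ω • V).eqLocus (1 : K →L[ℂ] K)).orthogonalProjectionOnto ξ :
      ((star ω • V).eqLocus (1 : K →L[ℂ] K))) : K) = 0 := by
    have h3 : ((star ω • V).eqLocus (1 : K →L[ℂ] K)).orthogonalProjectionOnto ξ = 0 := by
      rw [Submodule.orthogonalProjectionOnto_eq_zero_iff]
      rw [Submodule.mem_orthogonal]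
      intro u hu
      refine h u ?_
      have h4 : star ω • V u = u := hu
      calc V u = (ω * star ω) • V u := by rw [mul_comm, hωω, one_smul]
        _ = ω • u := by rw [mul_smul, h4]
    rw [h3]; rfl
  rw [h2] at h1
  refine h1.congr fun M => ?_
  rw [birkhoffAverage, birkhoffSum, smul_apply, _root_.sum_apply]
  congr 1
  refine Finset.sum_congr rfl fun n _ => ?_
  rw [id]
  have h5 : ∀ n : ℕ, ∀ ξ : K, ((star ω • V : K →L[ℂ] K))^[n] ξ = ((star ω) ^ n • V ^ n) ξ := by
    intro n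
    induction n with
    | zero => intro ξ; simp
    | succ n ih =>
      intro ξ
      rw [Function.iterate_succ_apply, ih]
      show (star ω) ^ n • (V ^ n) (star ω • V ξ) = (star ω) ^ (n + 1) • (V ^ (n + 1)) ξ
      rw [map_smul, smul_smul, pow_succ, pow_succ]
      rfl
  exact h5 n ξ

/-- contractions -/
theorem norm_one_sub_le {K : Type} [NormedAddCommGroup K] [InnerProductSpace ℂ K] [CompleteSpace K]
    (B : K →L[ℂ] K) (hB : ‖B‖ ≤ 1) : ‖1 - star B * B‖ ≤ 1 := by
  have hBs : ‖star B‖ ≤ 1 := by rw [norm_star]; exact hB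
  refine ContinuousLinearMap.opNorm_le_bound _ zero_le_one fun ζ => ?_
  rw [one_mul]
  have h1 : (1 - star B * B) ζ = ζ - star B (B ζ) := rfl
  rw [h1]
  have h2 : ‖star B (B ζ)‖ ≤ ‖B ζ‖ := by
    refine ((star B).le_opNorm _).trans ?_
    exact mul_le_of_le_one_left (norm_nonneg _) hBs
  have h3 : ‖ζ - star B (B ζ)‖ ^ 2 = ‖ζ‖ ^ 2 - 2 * ‖B ζ‖ ^ 2 + ‖star B (B ζ)‖ ^ 2 := by
    rw [@norm_sub_sq ℂ]
    have h4 : ⟪ζ, star B (B ζ)⟫_ℂ = ⟪B ζ, B ζ⟫_ℂ := by
      rw [ContinuousLinearMap.star_eq_adjoint, ContinuousLinearMap.adjoint_inner_right]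
    rw [h4, inner_self_eq_norm_sq]
  have h5 : ‖star B (B ζ)‖ ^ 2 ≤ ‖B ζ‖ ^ 2 := by gcongr
  have h6 : ‖ζ - star B (B ζ)‖ ^ 2 ≤ ‖ζ‖ ^ 2 := by
    rw [h3]
    have : 0 ≤ ‖B ζ‖ ^ 2 := by positivity
    linarith
  exact (sq_le_sq₀ (norm_nonneg _) (norm_nonneg _)).1 h6

end

section gen

variable {Γ : Type} [Group Γ] {K : Type} [NormedAddCommGroup K] [InnerProductSpace ℂ K]

theorem NF.sub {π : Γ →* (K ≃ₗᵢ[ℂ] K)} (h : NF π) (W : Submodule ℂ K) (hW : Inv π W) :
    NF (sub π W hW) := by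
  intro N hN ξ hξ
  refine Subtype.ext (h N hN ξ fun x hx => ?_)
  exact congrArg Subtype.val (hξ x hx)

/-- the representation given by a homomorphism to unitaries of a C*-algebra -/
noncomputable def repU {U : Type} [CStarAlgebra U] (u : Γ →* unitary U) {K : Type}
    [NormedAddCommGroup K] [InnerProductSpace ℂ K] [CompleteSpace K] (σ : U →⋆ₐ[ℂ] (K →L[ℂ] K)) :
    Γ →* (K ≃ₗᵢ[ℂ] K) where
  toFun g := opU σ (u g) (u g).2
  map_one' := by
    ext x
    rw [opU_apply, map_one]
    show σ 1 x = x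
    rw [map_one]; rfl
  map_mul' g h := by
    ext x
    rw [opU_apply, map_mul]
    show σ ((u g : U) * (u h : U)) x = σ (u g) (σ (u h) x)
    rw [map_mul]; rfl

theorem repU_apply {U : Type} [CStarAlgebra U] (u : Γ →* unitary U) {K : Type}
    [NormedAddCommGroup K] [InnerProductSpace ℂ K] [CompleteSpace K] (σ : U →⋆ₐ[ℂ] (K →L[ℂ] K))
    (g : Γ) (x : K) : repU u σ g x = σ (u g) x := rfl

/-- the representation of the unitaries of `B(K)` -/
noncomputable def toU [CompleteSpace K] (π : Γ →* (K ≃ₗᵢ[ℂ] K)) : Γ →* unitary (K →L[ℂ] K) :=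
  (Unitary.linearIsometryEquiv (𝕜 := ℂ) (H := K)).symm.toMonoidHom.comp π

theorem toU_apply [CompleteSpace K] (π : Γ →* (K ≃ₗᵢ[ℂ] K)) (g : Γ) (ξ : K) :
    (toU π g : K →L[ℂ] K) ξ = π g ξ := rfl

/-- the phases of finite order -/
theorem rat_phase {θ : ℝ} {e : ℕ} (he : 0 < e) (h : ee θ ^ e = 1) : ∃ q : ℚ, ee θ = ee (q : ℝ) := by
  rw [← ee_nat_mul, ee, Complex.exp_eq_one_iff] at h
  obtain ⟨n, hn⟩ := h
  have hpi : (2 * Real.pi * Complex.I : ℂ) ≠ 0 := by
    simp [Real.pi_ne_zero]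
  have h1 : ((θ * e : ℝ) : ℂ) = n := by
    have h2 : (2 * Real.pi * Complex.I : ℂ) * ((θ * e : ℝ) : ℂ) = (2 * Real.pi * Complex.I : ℂ) * n := by
      rw [hn]; ring
    exact mul_left_cancel₀ hpi h2
  have h2 : θ * e = n := by exact_mod_cast h1
  refine ⟨(n : ℚ) / e, ?_⟩
  congr 1
  have : (e : ℝ) ≠ 0 := by exact_mod_cast he.ne'
  push_cast
  rw [← h2]
  field_simp

/-- products of `1 - b j` -/
def hp {A : Type} [Ring A] (b : ℕ → A) : ℕ → A
  | 0 => 1
  | n + 1 => hp b n * (1 - b n)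

theorem hp_comm {A : Type} [Ring A] {b : ℕ → A} (hb : ∀ j a, b j * a = a * b j) (N : ℕ) (a : A) :
    hp b N * a = a * hp b N := by
  induction N with
  | zero => rw [hp, one_mul, mul_one]
  | succ N ih => rw [hp, mul_assoc, sub_mul, hb, one_mul, ← mul_one_sub, ← mul_assoc, ih, mul_assoc]

theorem hp_norm {A : Type} [NormedRing A] {b : ℕ → A} (h1 : ‖(1 : A)‖ ≤ 1)
    (hb : ∀ j, ‖1 - b j‖ ≤ 1) (N : ℕ) : ‖hp b N‖ ≤ 1 := by
  induction N with
  | zero => exact h1
  | succ N ih =>
    rw [hp]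
    refine (norm_mul_le _ _).trans ?_
    exact mul_le_one₀ ih (norm_nonneg _) (hb N)

/-- **Reduction to the case where a central element acts as a scalar.** -/
theorem gen_of_scal [CompleteSpace K] (π : Γ →* (K ≃ₗᵢ[ℂ] K)) (hNF : NF π) (x : ℕ → Γ) (c : Γ)
    (hc : ∀ g, c * g = g * c)
    (hs : ∀ (K' : Type) [NormedAddCommGroup K'] [InnerProductSpace ℂ K'] [CompleteSpace K']
      (π' : Γ →* (K' ≃ₗᵢ[ℂ] K')), NF π' → (∃ θ : ℝ, ∀ ξ, π' c ξ = ee θ • ξ) →
      Z (fun _ => 1) (fun n => π' (x n)) = ⊤) :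
    Z (fun _ => 1) (fun n => π (x n)) = ⊤ := by
  have hw1 : ∀ n : ℕ, ‖(fun _ : ℕ => (1 : ℂ)) n‖ ≤ 1 := fun n => by simp
  obtain ⟨s, hsurj⟩ := exists_surjective_nat ℚ
  -- the eigenspaces
  let E : ℕ → Submodule ℂ K := fun j =>
    { carrier := {ξ | π c ξ = ee (s j : ℝ) • ξ}
      add_mem' := fun {a b} ha hb => by
        show π c (a + b) = _
        rw [map_add, ha, hb, smul_add]
      zero_mem' := by simp
      smul_mem' := fun t a ha => by
        show π c (t • a) = _
        rw [LinearIsometryEquiv.map_smul, ha, smul_comm] }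
  have hEc : ∀ j, IsClosed (E j : Set K) := fun j =>
    isClosed_eq (LinearIsometryEquiv.continuous (π c)) (continuous_const_smul _)
  have hEI : ∀ j, Inv π (E j) := by
    intro j g w hw
    show π c (π g w) = ee (s j : ℝ) • π g w
    rw [← rep_mul, hc, rep_mul]
    have h1 : π c w = ee (s j : ℝ) • w := hw
    rw [h1, LinearIsometryEquiv.map_smul]
  set D : Submodule ℂ K := ⨆ j, E j with hD
  refine Z_top hw1 _ D ?_ ?_
  · refine iSup_le fun j => Z_of_sub (hEI j) ?_
    have : CompleteSpace (E j) := (hEc j).completeSpace_coe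
    exact hs _ _ (hNF.sub _ _) ⟨s j, fun ξ => Subtype.ext ξ.2⟩
  -- the orthogonal complement
  intro ξ hξ
  set V : K →L[ℂ] K := ((toU π c : unitary (K →L[ℂ] K)) : K →L[ℂ] K) with hV
  have hVu : V ∈ unitary (K →L[ℂ] K) := (toU π c).2
  let 𝔄 : StarSubalgebra ℂ (K →L[ℂ] K) := StarSubalgebra.centralizer ℂ {V}
  have hcl : IsClosed (𝔄 : Set (K →L[ℂ] K)) := by
    have h1 : (𝔄 : Set (K →L[ℂ] K)) = Set.centralizer ({V} ∪ star {V}) := rfl
    rw [h1]
    exact Set.isClosed_centralizer _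
  have hcl' : Fact (IsClosed (𝔄 : Set (K →L[ℂ] K))) := ⟨hcl⟩
  let _ : CStarAlgebra 𝔄 := StarSubalgebra.cstarAlgebra 𝔄 (h_closed := hcl)
  have hmem : ∀ g, (toU π g : K →L[ℂ] K) ∈ 𝔄 := by
    intro g
    rw [StarSubalgebra.mem_centralizer_iff]
    rintro _ rfl
    have h1 : V * (toU π g : K →L[ℂ] K) = (toU π g : K →L[ℂ] K) * V := by
      rw [hV, ← Submonoid.coe_mul, ← Submonoid.coe_mul, ← map_mul, ← map_mul, hc]
    refine ⟨h1, ?_⟩
    calc star V * (toU π g : K →L[ℂ] K) = star V * ((toU π g : K →L[ℂ] K) * V) * star V := by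
          rw [mul_assoc, mul_assoc, Unitary.mul_star_self_of_mem hVu, mul_one]
      _ = star V * (V * (toU π g : K →L[ℂ] K)) * star V := by rw [h1]
      _ = _ := by
          rw [← mul_assoc, Unitary.star_mul_self_of_mem hVu, one_mul]
  let u : Γ →* unitary 𝔄 :=
    { toFun := fun g => ⟨⟨toU π g, hmem g⟩, by
        constructor
        · exact Subtype.ext (Unitary.star_mul_self_of_mem (toU π g).2)
        · exact Subtype.ext (Unitary.mul_star_self_of_mem (toU π g).2)⟩
      map_one' := by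
        refine Subtype.ext (Subtype.ext ?_)
        show (toU π 1 : K →L[ℂ] K) = 1
        rw [map_one]; rfl
      map_mul' := fun g h => by
        refine Subtype.ext (Subtype.ext ?_)
        show (toU π (g * h) : K →L[ℂ] K) = (toU π g : K →L[ℂ] K) * (toU π h : K →L[ℂ] K)
        rw [map_mul]; rfl }
  set Vc : 𝔄 := ((u c : unitary 𝔄) : 𝔄) with hVc
  have hVcen : ∀ a : 𝔄, Vc * a = a * Vc := by
    intro a
    refine Subtype.ext ?_
    exact ((StarSubalgebra.mem_centralizer_iff (R := ℂ)).1 a.2 V rfl).1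
  have hCU : Vc ∈ CU 𝔄 := ⟨(u c).2, hVcen⟩
  have hV1 : ‖V‖ ≤ 1 := ContinuousLinearMap.opNorm_le_bound _ zero_le_one fun ζ => by
    rw [one_mul]
    exact (LinearIsometryEquiv.norm_map (π c) ζ).le
  have h11 : ‖(1 : 𝔄)‖ ≤ 1 := ContinuousLinearMap.opNorm_le_bound _ zero_le_one fun ζ => by
    rw [one_mul]; rfl
  have hVn : ∀ n : ℕ, ‖Vc ^ n‖ ≤ 1 := by
    intro n
    induction n with
    | zero => rw [pow_zero]; exact h11
    | succ n ih =>
      rw [pow_succ]
      exact (norm_mul_le _ _).trans (mul_le_one₀ ih (norm_nonneg _) hV1)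
  let ω : ℕ → ℂ := fun j => ee (s j : ℝ)
  have hωn : ∀ j, ‖ω j‖ = 1 := fun j => norm_ee _
  let B : ℕ → ℕ → 𝔄 := fun j M => (M : ℂ)⁻¹ • ∑ n ∈ range M, (star (ω j)) ^ n • Vc ^ n
  have hBn : ∀ j M, ‖B j M‖ ≤ 1 := by
    intro j M
    refine vav_le (a := fun n => (star (ω j)) ^ n • Vc ^ n) zero_le_one (fun n => ?_) M
    rw [norm_smul, norm_pow, norm_star, hωn, one_pow, one_mul]
    exact hVn n
  have hVm : Vc ∈ Subalgebra.center ℂ 𝔄 := Subalgebra.mem_center_iff.2 fun a => (hVcen a).symm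
  have hBm : ∀ j M, B j M ∈ Subalgebra.center ℂ 𝔄 := fun j M =>
    Subalgebra.smul_mem _ (Subalgebra.sum_mem _ fun n _ =>
      Subalgebra.smul_mem _ (Subalgebra.pow_mem _ hVm n) _) _
  have hBc : ∀ j M (a : 𝔄), B j M * a = a * B j M := fun j M a =>
    (Subalgebra.mem_center_iff.1 (hBm j M) a).symm
  have hBs : ∀ j M (a : 𝔄), star (B j M) * a = a * star (B j M) := by
    intro j M a
    have := congrArg star (hBc j M (star a))
    rw [star_mul, star_mul, star_star] at this
    exact this.symm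
  let ι : 𝔄 →⋆ₐ[ℂ] (K →L[ℂ] K) := 𝔄.subtype
  have hιB : ∀ j M, ι (B j M) = (M : ℂ)⁻¹ • ∑ n ∈ range M, (star (ω j)) ^ n • V ^ n := by
    intro j M
    show ι ((M : ℂ)⁻¹ • ∑ n ∈ range M, (star (ω j)) ^ n • Vc ^ n) = _
    rw [map_smul, map_sum]
    congr 1
  have hBξ : ∀ j, Tendsto (fun M => ι (B j M) ξ) atTop (𝓝 0) := by
    intro j
    have h1 := mean_one V hV1 (ω j) (hωn j) ξ (fun η hη => by
      have h2 : η ∈ D := (le_iSup E j) hη
      exact (Submodule.mem_orthogonal _ _).1 hξ η h2)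
    exact h1.congr fun M => by rw [hιB]
  set S : ℕ → 𝔄 := vav fun n => ((u (x n) : unitary 𝔄) : 𝔄) with hS
  have hun : ∀ g, ‖((u g : unitary 𝔄) : 𝔄)‖ ≤ 1 := fun g =>
    ContinuousLinearMap.opNorm_le_bound _ zero_le_one fun ζ => by
      rw [one_mul]
      exact (LinearIsometryEquiv.norm_map (π g) ζ).le
  have hSn : ∀ N, ‖S N‖ ≤ 1 := fun N => vav_le zero_le_one (fun n => hun _) N
  have hσS : ∀ (K' : Type) [NormedAddCommGroup K'] [InnerProductSpace ℂ K'] [CompleteSpace K']
      (σ : 𝔄 →⋆ₐ[ℂ] (K' →L[ℂ] K')) (ζ : K') N,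
      σ (S N) ζ = vav (fun n => (1 : ℂ) • repU u σ (x n) ζ) N := by
    intro K' _ _ _ σ ζ N
    rw [hS, vav, vav, map_smul, map_sum, smul_apply, _root_.sum_apply]
    congr 1
    exact Finset.sum_congr rfl fun n _ => by rw [one_smul]; rfl
  -- the key estimate
  have key : ∀ ε : ℝ, 0 < ε → ∃ a : ℕ → ℝ, Tendsto a atTop (𝓝 0) ∧
      ∀ N, ‖vav (fun n => (1 : ℂ) • π (x n) ξ) N‖ ≤ ε + a N := by
    intro ε hε
    have hM : ∀ j, ∃ M : ℕ, 0 < M ∧ ‖ι (B j M) ξ‖ ≤ ε / 2 / 2 ^ j := by
      intro j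
      obtain ⟨M0, hM0⟩ := Metric.tendsto_atTop.1 (hBξ j) (ε / 2 / 2 ^ j) (by positivity)
      have h1 := hM0 (max M0 1) (le_max_left _ _)
      rw [dist_zero_right] at h1
      exact ⟨max M0 1, lt_of_lt_of_le one_pos (le_max_right _ _), h1.le⟩
    choose M hM0 hMξ using hM
    let b : ℕ → 𝔄 := fun j => star (B j (M j)) * B j (M j)
    have hbc : ∀ j (a : 𝔄), b j * a = a * b j := by
      intro j a
      show star (B j (M j)) * B j (M j) * a = a * (star (B j (M j)) * B j (M j))
      rw [mul_assoc, hBc, ← mul_assoc, hBs, mul_assoc]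
    have hb1 : ∀ j, ‖1 - b j‖ ≤ 1 := fun j => norm_one_sub_le (ι (B j (M j))) (hBn _ _)
    have hH1 : ∀ N, ‖hp b N‖ ≤ 1 := hp_norm h11 hb1
    have hHc : ∀ N (a : 𝔄), hp b N * a = a * hp b N := hp_comm hbc
    have hrain := rain_vec (U := 𝔄) (a := fun N => hp b N * S N) (C := 1) (fun N =>
      (norm_mul_le _ _).trans (mul_le_one₀ (hH1 N) (norm_nonneg _) (hSn N))) (by
      intro K' _ _ _ σ hσ ζ
      obtain ⟨θ, hθ⟩ := scal hσ hCU
      by_cases hj : ∃ j, ee θ = ω j
      · obtain ⟨j, hj⟩ := hj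
        have hσB : σ (B j (M j)) = 1 := by
          ext y
          show σ ((M j : ℂ)⁻¹ • ∑ n ∈ range (M j), (star (ω j)) ^ n • Vc ^ n) y = y
          have h1 : ∀ n : ℕ, (star (ω j)) ^ n • σ (Vc ^ n) y = y := by
            intro n
            have h2 : σ (Vc ^ n) y = (ω j) ^ n • y := by
              induction n with
              | zero => rw [pow_zero, map_one, pow_zero, one_smul]; rfl
              | succ n ih =>
                rw [pow_succ', map_mul, mul_apply_eq_comp, ih, hθ, hj, smul_smul, pow_succ']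
            rw [h2, smul_smul, ← mul_pow]
            have h3 : star (ω j) * ω j = 1 := by
              rw [Complex.star_def, mul_comm, Complex.mul_conj, Complex.normSq_eq_norm_sq, hωn]
              simp
            rw [h3, one_pow, one_smul]
          rw [map_smul, map_sum, smul_apply, _root_.sum_apply]
          have h4 : ∀ n ∈ range (M j), (σ ((star (ω j)) ^ n • Vc ^ n)) y = y := by
            intro n _
            rw [map_smul, smul_apply, h1]
          rw [Finset.sum_congr rfl h4, Finset.sum_const, card_range, ← Nat.cast_smul_eq_nsmul ℂ,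
            smul_smul, inv_mul_cancel₀ (by exact_mod_cast (hM0 j).ne'), one_smul]
        have hσh : ∀ N, j + 1 ≤ N → σ (hp b N) = 0 := by
          intro N hN
          induction N, hN using Nat.le_induction with
          | base =>
            rw [hp, map_mul, map_sub, map_one]
            have h5 : σ (b j) = 1 := by
              show σ (star (B j (M j)) * B j (M j)) = 1
              rw [map_mul, map_star, hσB, star_one, one_mul]
            rw [h5, sub_self, mul_zero]
          | succ N _ ih => rw [hp, map_mul, ih, zero_mul]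
        refine tendsto_const_nhds.congr' ?_
        filter_upwards [eventually_ge_atTop (j + 1)] with N hN
        rw [map_mul, hσh N hN, zero_mul]
        rfl
      · have hNF' : NF (repU u σ) := by
          intro N hN ζ hζ
          by_contra hζ0
          obtain ⟨e, he, -, hce⟩ := Subgroup.exists_pow_mem_of_index_ne_zero hN.index_ne_zero c
          have h1 := hζ _ hce
          have h2 : ∀ n : ℕ, repU u σ (c ^ n) ζ = (ee θ) ^ n • ζ := by
            intro n
            induction n with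
            | zero => rw [pow_zero, map_one, pow_zero, one_smul]; rfl
            | succ n ih =>
              rw [pow_succ', rep_mul, ih, LinearIsometryEquiv.map_smul, pow_succ, mul_smul]
              congr 1
              exact hθ ζ
          rw [h2] at h1
          have h3 : (ee θ ^ e - 1) • ζ = 0 := by rw [sub_smul, one_smul, h1, sub_self]
          rcases smul_eq_zero.1 h3 with h4 | h4
          · obtain ⟨q, hq⟩ := rat_phase he (sub_eq_zero.1 h4)
            obtain ⟨j, rfl⟩ := hsurj q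
            exact hj ⟨j, hq⟩
          · exact hζ0 h4
        have h1 := hs K' (repU u σ) hNF' ⟨θ, hθ⟩
        have h2 : ζ ∈ Z (fun _ => 1) (fun n => repU u σ (x n)) := by rw [h1]; trivial
        have h3 := mem_Z.1 h2
        rw [tendsto_zero_iff_norm_tendsto_zero] at h3 ⊢
        refine squeeze_zero (fun N => norm_nonneg _) (fun N => ?_) h3
        rw [map_mul, mul_apply_eq_comp, hσS]
        refine (ContinuousLinearMap.le_opNorm _ _).trans ?_
        refine mul_le_of_le_one_left (norm_nonneg _) ?_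
        exact (NonUnitalStarAlgHom.norm_apply_le σ _).trans (hH1 N)) K ι ξ
    refine ⟨fun N => ‖ι (hp b N * S N) ξ‖, tendsto_zero_iff_norm_tendsto_zero.1 hrain, fun N => ?_⟩
    -- the remaining part
    have hdiff : ∀ N, ‖ξ - ι (hp b N) ξ‖ ≤ ε * (1 - 1 / 2 ^ N) := by
      intro N
      induction N with
      | zero =>
        rw [hp, map_one]
        simp
      | succ N ih =>
        have e1 : ι (hp b (N + 1)) ξ = ι (hp b N) ξ - ι (hp b N) (ι (b N) ξ) := by
          rw [hp, mul_sub, mul_one, map_sub, map_mul]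
          rfl
        have h2 : ‖ι (b N) ξ‖ ≤ ε / 2 / 2 ^ N := by
          show ‖ι (star (B N (M N)) * B N (M N)) ξ‖ ≤ _
          rw [map_mul, mul_apply_eq_comp]
          refine (ContinuousLinearMap.le_opNorm _ _).trans ?_
          have h3 : ‖ι (star (B N (M N)))‖ ≤ 1 := by
            rw [map_star, norm_star]; exact hBn _ _
          exact (mul_le_of_le_one_left (norm_nonneg _) h3).trans (hMξ N)
        have h4 : ‖ι (hp b N) (ι (b N) ξ)‖ ≤ ε / 2 / 2 ^ N := by
          refine (ContinuousLinearMap.le_opNorm _ _).trans ?_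
          exact (mul_le_of_le_one_left (norm_nonneg _) (hH1 N)).trans h2
        rw [e1]
        have e2 : ξ - (ι (hp b N) ξ - ι (hp b N) (ι (b N) ξ)) =
            (ξ - ι (hp b N) ξ) + ι (hp b N) (ι (b N) ξ) := by abel
        rw [e2]
        refine (norm_add_le _ _).trans ((add_le_add ih h4).trans (le_of_eq ?_))
        rw [pow_succ]
        field_simp
        ring
    have e3 : vav (fun n => (1 : ℂ) • π (x n) ξ) N = ι (S N) (ξ - ι (hp b N) ξ) +
        ι (hp b N * S N) ξ := by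
      have e4 : vav (fun n => (1 : ℂ) • π (x n) ξ) N = ι (S N) ξ := (hσS K ι ξ N).symm
      rw [e4, hHc, map_mul, mul_apply_eq_comp, map_sub]
      abel
    rw [e3]
    refine (norm_add_le _ _).trans ?_
    gcongr
    refine (ContinuousLinearMap.le_opNorm _ _).trans ?_
    refine (mul_le_of_le_one_left (norm_nonneg _) (hSn N)).trans ((hdiff N).trans ?_)
    have : (0 : ℝ) < 1 / 2 ^ N := by positivity
    nlinarith
  rw [mem_Z, Metric.tendsto_atTop]
  intro ε hε
  obtain ⟨a, ha, hle⟩ := key (ε / 2) (by positivity)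
  obtain ⟨N0, hN0⟩ := Metric.tendsto_atTop.1 ha (ε / 2) (by positivity)
  refine ⟨N0, fun N hN => ?_⟩
  have h1 := hN0 N hN
  rw [dist_zero_right] at h1 ⊢
  have h2 := hle N
  have h3 := (le_abs_self (a N)).trans_eq (Real.norm_eq_abs _).symm
  linarith

end gen

end Run7.h190.H
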