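import Pool.Agent.Run7.h190.Hilb

/-! Representations without finite-dimensional subrepresentations. -/

set_option autoImplicit false
set_option linter.unusedSectionVars false

open Finset Filter Topology
open scoped InnerProductSpace

namespace Run7.h190.H

open Pool.Agent.TH261.AB

variable {Γ : Type} [Group Γ]
variable {K : Type} [NormedAddCommGroup K] [InnerProductSpace ℂ K]

theorem polar (T : K →L[ℂ] K) (x y : K) : 4 * ⟪x, T y⟫_ℂ = ⟪x + y, T (x + y)⟫_ℂ -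
    ⟪x - y, T (x - y)⟫_ℂ - Complex.I * ⟪x + Complex.I • y, T (x + Complex.I • y)⟫_ℂ +
    Complex.I * ⟪x - Complex.I • y, T (x - Complex.I • y)⟫_ℂ := by
  simp only [map_add, map_sub, map_smul, inner_add_left, inner_add_right, inner_sub_left,
    inner_sub_right, inner_smul_left, inner_smul_right, Complex.conj_I]
  linear_combination (2 * ⟪x, T y⟫_ℂ - 2 * ⟪y, T x⟫_ℂ) * Complex.I_sq

theorem quad_bound (T : K →L[ℂ] K) {M : ℝ} (hM : 0 ≤ M) (h : ∀ η, ‖⟪η, T η⟫_ℂ‖ ≤ M * ‖η‖ ^ 2) :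
    ‖T‖ ≤ 2 * M := by
  have h1 : ∀ x y : K, ‖⟪x, T y⟫_ℂ‖ ≤ M * (‖x‖ ^ 2 + ‖y‖ ^ 2) := by
    intro x y
    have h2 : ‖4 * ⟪x, T y⟫_ℂ‖ ≤ M * ‖x + y‖ ^ 2 + M * ‖x - y‖ ^ 2 +
        M * ‖x + Complex.I • y‖ ^ 2 + M * ‖x - Complex.I • y‖ ^ 2 := by
      rw [polar]
      refine (norm_add_le _ _).trans ?_
      refine add_le_add ?_ ?_
      · refine (norm_sub_le _ _).trans ?_
        refine add_le_add ?_ ?_
        · refine (norm_sub_le _ _).trans ?_
          exact add_le_add (h _) (h _)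
        · rw [norm_mul, Complex.norm_I, one_mul]; exact h _
      · rw [norm_mul, Complex.norm_I, one_mul]; exact h _
    have h3 := parallelogram_law_with_norm ℂ x y
    have h4 := parallelogram_law_with_norm ℂ x (Complex.I • y)
    rw [norm_smul, Complex.norm_I, one_mul] at h4
    rw [norm_mul] at h2
    have h5 : ‖(4 : ℂ)‖ = 4 := by simp
    rw [h5] at h2
    have h6 : M * ‖x + y‖ ^ 2 + M * ‖x - y‖ ^ 2 + M * ‖x + Complex.I • y‖ ^ 2 +
        M * ‖x - Complex.I • y‖ ^ 2 = M * (4 * (‖x‖ ^ 2 + ‖y‖ ^ 2)) := by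
      linear_combination M * h3 + M * h4
    nlinarith
  refine ContinuousLinearMap.opNorm_le_bound _ (by positivity) fun y => ?_
  by_cases h0 : ‖T y‖ = 0
  · rw [h0]; positivity
  have hb : 0 < ‖T y‖ := lt_of_le_of_ne (norm_nonneg _) (Ne.symm h0)
  by_cases h0' : ‖y‖ = 0
  · rw [norm_eq_zero] at h0'
    rw [h0', map_zero, norm_zero, mul_zero]
  have ha : 0 < ‖y‖ := lt_of_le_of_ne (norm_nonneg _) (Ne.symm h0')
  have h2 := h1 (((‖y‖ / ‖T y‖ : ℝ) : ℂ) • T y) y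
  rw [inner_smul_left, Complex.conj_ofReal, norm_mul, norm_smul, Complex.norm_real,
    Real.norm_of_nonneg (by positivity), inner_self_eq_norm_sq_to_K] at h2
  have h3 : ‖((‖T y‖ : ℝ) : ℂ) ^ 2‖ = ‖T y‖ ^ 2 := by
    rw [norm_pow, Complex.norm_real, norm_norm]
  have h4 : ‖y‖ / ‖T y‖ * ‖T y‖ ^ 2 ≤ M * ((‖y‖ / ‖T y‖ * ‖T y‖) ^ 2 + ‖y‖ ^ 2) := by
    refine le_trans (le_of_eq ?_) h2
    congr 1
    exact h3.symm
  have h5 : ‖y‖ / ‖T y‖ * ‖T y‖ = ‖y‖ := by field_simp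
  have h6 : ‖y‖ / ‖T y‖ * ‖T y‖ ^ 2 = ‖y‖ * ‖T y‖ := by rw [pow_two, ← mul_assoc, h5]
  rw [h5, h6] at h4
  have h7 : ‖y‖ * ‖T y‖ ≤ ‖y‖ * (2 * M * ‖y‖) := by nlinarith
  exact le_of_mul_le_mul_left h7 ha

theorem ext_quad (S T : K →L[ℂ] K) (h : ∀ η, ⟪η, S η⟫_ℂ = ⟪η, T η⟫_ℂ) : S = T := by
  have h1 := quad_bound (S - T) le_rfl fun η => by
    rw [sub_apply, inner_sub_right, h, sub_self, norm_zero, zero_mul]
  rw [mul_zero] at h1
  exact sub_eq_zero.1 (norm_le_zero_iff.1 h1)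

variable {L : Type} [NormedAddCommGroup L] [InnerProductSpace ℂ L]

/-- the vectors of the square are compact operators -/
theorem hs [CompleteSpace K] [CompleteSpace L] {v : K → L}
    (hv : ∀ ξ η, ⟪v ξ, v η⟫_ℂ = ⟪ξ, η⟫_ℂ * ⟪η, ξ⟫_ℂ)
    (hd : ∀ ζ : L, (∀ ξ, ⟪v ξ, ζ⟫_ℂ = 0) → ζ = 0) (ζ : L) :
    ∃ T : K →L[ℂ] K, IsCompactOperator T ∧ ∀ η, ⟪η, T η⟫_ℂ = ⟪v η, ζ⟫_ℂ := by
  have hvn : ∀ ξ, ‖v ξ‖ = ‖ξ‖ ^ 2 := by
    intro ξ
    have h1 := hv ξ ξ
    rw [inner_self_eq_norm_sq_to_K, inner_self_eq_norm_sq_to_K] at h1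
    have h2 : ‖v ξ‖ ^ 2 = ‖ξ‖ ^ 2 * ‖ξ‖ ^ 2 := by exact_mod_cast h1
    have h3 : ‖v ξ‖ ^ 2 = (‖ξ‖ ^ 2) ^ 2 := by rw [h2]; ring
    exact (sq_eq_sq₀ (norm_nonneg _) (by positivity)).1 h3
  let P : Submodule ℂ L :=
    { carrier := {ζ | ∃ T : K →L[ℂ] K, IsCompactOperator T ∧ ∀ η, ⟪η, T η⟫_ℂ = ⟪v η, ζ⟫_ℂ}
      add_mem' := by
        rintro a b ⟨T, hT, h1⟩ ⟨S, hS, h2⟩
        exact ⟨T + S, hT.add hS, fun η => by
          rw [add_apply, inner_add_right, inner_add_right, h1, h2]⟩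
      zero_mem' := ⟨0, isCompactOperator_zero, fun η => by simp⟩
      smul_mem' := by
        rintro c a ⟨T, hT, h1⟩
        exact ⟨c • T, hT.smul c, fun η => by
          rw [smul_apply, inner_smul_right, inner_smul_right, h1]⟩ }
  have hPc : IsClosed (P : Set L) := by
    rw [← isSeqClosed_iff_isClosed]
    intro a ζ ha hlim
    choose T hT hq using ha
    have hb : ∀ k l, ‖T k - T l‖ ≤ 2 * ‖a k - a l‖ := by
      intro k l
      refine quad_bound (T k - T l) (M := ‖a k - a l‖) (norm_nonneg _) fun η => ?_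
      rw [sub_apply, inner_sub_right, hq, hq, ← inner_sub_right]
      refine (norm_inner_le_norm _ _).trans ?_
      rw [hvn]
      exact le_of_eq (mul_comm _ _)
    have hC : CauchySeq T := by
      rw [Metric.cauchySeq_iff]
      intro ε hε
      obtain ⟨N, hN⟩ := Metric.cauchySeq_iff.1 hlim.cauchySeq (ε / 2) (by positivity)
      refine ⟨N, fun k hk l hl => ?_⟩
      have h1 := hN k hk l hl
      rw [dist_eq_norm] at h1 ⊢
      have := hb k l
      linarith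
    obtain ⟨S, hS⟩ := cauchySeq_tendsto_of_complete hC
    refine ⟨S, isCompactOperator_of_tendsto hS (Eventually.of_forall hT), fun η => ?_⟩
    have h1 : Tendsto (fun k => ⟪η, T k η⟫_ℂ) atTop (𝓝 ⟪η, S η⟫_ℂ) := by
      have h2 : Continuous fun R : K →L[ℂ] K => ⟪η, R η⟫_ℂ := by fun_prop
      exact (h2.tendsto S).comp hS
    have h3 : Tendsto (fun k => ⟪η, T k η⟫_ℂ) atTop (𝓝 ⟪v η, ζ⟫_ℂ) := by
      simp_rw [hq]
      have h2 : Continuous fun z : L => ⟪v η, z⟫_ℂ := by fun_prop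
      exact (h2.tendsto ζ).comp hlim
    exact tendsto_nhds_unique h1 h3
  have hvP : ∀ ξ, v ξ ∈ P := by
    intro ξ
    refine ⟨(innerSL ℂ ξ).smulRight ξ, ?_, fun η => ?_⟩
    · have h1 : IsCompactOperator (innerSL ℂ ξ : K →L[ℂ] ℂ) :=
        isCompactOperator_of_locallyCompactSpace_dom (innerSL ℂ ξ)
      have h2 := h1.clm_comp ((ContinuousLinearMap.id ℂ ℂ).smulRight ξ)
      exact h2
    · rw [hv]
      simp
      ring
  have hcP : CompleteSpace P := hPc.completeSpace_coe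
  have h3 : Pᗮ = ⊥ := by
    rw [Submodule.eq_bot_iff]
    intro u hu
    exact hd u fun ξ => (Submodule.mem_orthogonal _ _).1 hu _ (hvP ξ)
  have h4 : P = ⊤ := (Submodule.orthogonal_eq_bot_iff).1 h3
  have : ζ ∈ P := by rw [h4]; trivial
  exact this

/-- no vectors fixed by a subgroup of finite index -/
def NF (π : Γ →* (K ≃ₗᵢ[ℂ] K)) : Prop :=
  ∀ N : Subgroup Γ, N.FiniteIndex → ∀ ξ, (∀ x ∈ N, π x ξ = ξ) → ξ = 0

/-- no finite-dimensional subrepresentations -/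
def NoFD (π : Γ →* (K ≃ₗᵢ[ℂ] K)) : Prop :=
  ∀ W : Submodule ℂ K, FiniteDimensional ℂ W → Inv π W → W = ⊥

theorem nf_of_noFD [CompleteSpace K] [CompleteSpace L] {π : Γ →* (K ≃ₗᵢ[ℂ] K)} (hπ : NoFD π)
    {ρ : Γ →* (L ≃ₗᵢ[ℂ] L)} {v : K → L} (hv : ∀ ξ η, ⟪v ξ, v η⟫_ℂ = ⟪ξ, η⟫_ℂ * ⟪η, ξ⟫_ℂ)
    (hρ : ∀ g ξ, ρ g (v ξ) = v (π g ξ))
    (hd : ∀ ζ : L, (∀ ξ, ⟪v ξ, ζ⟫_ℂ = 0) → ζ = 0) : NF ρ := by
  intro N hN ζ hζ
  obtain ⟨T, hT, hq⟩ := hs hv hd ζ
  -- `T` commutes with `N`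
  have hcomm : ∀ g ∈ N, ∀ η, T (π g η) = π g (T η) := by
    intro g hg η
    set R : K →L[ℂ] K := ((π g⁻¹).toContinuousLinearEquiv : K →L[ℂ] K).comp
      (T.comp ((π g).toContinuousLinearEquiv : K →L[ℂ] K)) with hR
    have h1 : R = T := by
      apply ext_quad R T
      intro η
      show ⟪η, π g⁻¹ (T (π g η))⟫_ℂ = ⟪η, T η⟫_ℂ
      rw [rep_inner, inv_inv, hq, hq, ← hρ]
      have h5 := rep_inner ρ g⁻¹ (v η) ζ
      rw [inv_inv] at h5
      rw [← h5, hζ _ (N.inv_mem hg)]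
    have h2 : π g (R η) = π g (T η) := by rw [h1]
    rw [← h2]
    exact (rep_inv' π g _).symm
  by_contra h0
  have hT0 : T ≠ 0 := by
    intro h
    refine h0 (hd ζ fun ξ => ?_)
    rw [← hq, h]
    simp
  set S : K →L[ℂ] K := (ContinuousLinearMap.adjoint T).comp T with hS
  have hSc : IsCompactOperator S := hT.clm_comp (ContinuousLinearMap.adjoint T)
  have hSs : (S : K →ₗ[ℂ] K).IsSymmetric := by
    intro x y
    show ⟪ContinuousLinearMap.adjoint T (T x), y⟫_ℂ = ⟪x, ContinuousLinearMap.adjoint T (T y)⟫_ℂ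
    rw [ContinuousLinearMap.adjoint_inner_left, ContinuousLinearMap.adjoint_inner_right]
  have hS0 : S ≠ 0 := by
    intro h
    refine hT0 ?_
    ext x
    have h1 : ⟪S x, x⟫_ℂ = 0 := by rw [h]; simp
    have h2 : ⟪S x, x⟫_ℂ = ⟪T x, T x⟫_ℂ := by
      show ⟪ContinuousLinearMap.adjoint T (T x), x⟫_ℂ = ⟪T x, T x⟫_ℂ
      rw [ContinuousLinearMap.adjoint_inner_left]
    rw [h2] at h1
    exact inner_self_eq_zero.1 h1
  have hSg : ∀ g ∈ N, ∀ η, S (π g η) = π g (S η) := by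
    intro g hg η
    refine ext_inner_right ℂ fun y => ?_
    show ⟪ContinuousLinearMap.adjoint T (T (π g η)), y⟫_ℂ = ⟪π g (ContinuousLinearMap.adjoint T (T η)), y⟫_ℂ
    rw [ContinuousLinearMap.adjoint_inner_left, hcomm g hg]
    have e1 : ⟪π g (T η), T y⟫_ℂ = ⟪T η, π g⁻¹ (T y)⟫_ℂ := by
      rw [rep_inner, inv_inv]
    rw [e1, ← hcomm _ (N.inv_mem hg), ← ContinuousLinearMap.adjoint_inner_left, rep_inner, inv_inv]
  obtain ⟨μ, hμ, hμ0⟩ : ∃ μ, Module.End.HasEigenvalue (S : K →ₗ[ℂ] K) μ ∧ μ ≠ 0 := by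
    by_contra hcon
    push Not at hcon
    exact hS0 ((ContinuousLinearMap.eq_zero_of_forall_hasEigenvalue_eq_zero hSc hSs).1 hcon)
  set E : Submodule ℂ K := Module.End.eigenspace (S : K →ₗ[ℂ] K) μ with hE
  have hEfd : FiniteDimensional ℂ E :=
    ContinuousLinearMap.finite_dimensional_eigenspace hSc μ hμ0
  have hEN : ∀ g ∈ N, ∀ w ∈ E, π g w ∈ E := by
    intro g hg w hw
    rw [hE, Module.End.mem_eigenspace_iff] at hw ⊢
    show S (π g w) = _
    rw [hSg g hg]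
    have : S w = μ • w := hw
    rw [this, LinearIsometryEquiv.map_smul]
  -- the sum of the translates
  let F : Γ ⧸ N → Submodule ℂ K := fun c => E.map (π c.out).toLinearEquiv.toLinearMap
  have hF : ∀ g : Γ, E.map (π g).toLinearEquiv.toLinearMap = F (QuotientGroup.mk g) := by
    intro g
    obtain ⟨h, hh⟩ := QuotientGroup.mk_out_eq_mul N g
    apply le_antisymm
    · rw [Submodule.map_le_iff_le_comap]
      intro w hw
      have h5 : π (QuotientGroup.mk g : Γ ⧸ N).out (π (h : Γ)⁻¹ w) = π g w := by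
        rw [hh, ← rep_mul, mul_inv_cancel_right]
      rw [Submodule.mem_comap]
      show π g w ∈ F (QuotientGroup.mk g)
      rw [← h5]
      exact Submodule.mem_map_of_mem (hEN _ (N.inv_mem h.2) w hw)
    · rw [Submodule.map_le_iff_le_comap]
      intro w hw
      have h5 : π g (π (h : Γ) w) = π (QuotientGroup.mk g : Γ ⧸ N).out w := by
        rw [hh, ← rep_mul]
      rw [Submodule.mem_comap]
      show π (QuotientGroup.mk g : Γ ⧸ N).out w ∈ _
      rw [← h5]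
      exact Submodule.mem_map_of_mem (hEN _ h.2 w hw)
  have hfin : Finite (Γ ⧸ N) := Subgroup.finite_quotient_of_finiteIndex
  have hFfd : ∀ c, FiniteDimensional ℂ (F c) := fun c => inferInstance
  have hWfd : FiniteDimensional ℂ (⨆ c, F c : Submodule ℂ K) := inferInstance
  have hWI : Inv π (⨆ c, F c) := by
    intro g
    have h : (⨆ c, F c) ≤ (⨆ c, F c).comap (π g).toLinearEquiv.toLinearMap := by
      apply iSup_le
      intro c
      rw [Submodule.map_le_iff_le_comap]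
      intro u hu
      have h5 : π (g * c.out) u ∈ F (QuotientGroup.mk (g * c.out)) := by
        rw [← hF]
        exact Submodule.mem_map_of_mem hu
      rw [rep_mul] at h5
      exact Submodule.mem_iSup_of_mem _ h5
    exact fun w hw => h hw
  have hW0 := hπ _ hWfd hWI
  have hE0 : E ≤ ⊥ := by
    rw [← hW0]
    have h1 := hF 1
    intro w hw
    have h5 : w ∈ F (QuotientGroup.mk (1 : Γ)) := by
      rw [← h1]
      exact ⟨w, hw, by rw [map_one]; rfl⟩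
    exact Submodule.mem_iSup_of_mem _ h5
  exact hμ (le_bot_iff.1 hE0)

/-- irreducible finite-dimensional invariant subspaces -/
def IrrW (π : Γ →* (K ≃ₗᵢ[ℂ] K)) (W : Submodule ℂ K) : Prop :=
  FiniteDimensional ℂ W ∧ Inv π W ∧ W ≠ ⊥ ∧ ∀ V ≤ W, Inv π V → V = ⊥ ∨ V = W

theorem exists_irrW (π : Γ →* (K ≃ₗᵢ[ℂ] K)) : ∀ (d : ℕ) (W : Submodule ℂ K),
    Module.finrank ℂ W ≤ d → FiniteDimensional ℂ W → Inv π W → W ≠ ⊥ → ∃ V ≤ W, IrrW π V := by
  intro d
  induction d with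
  | zero =>
    intro W hd hf _ h0
    exact absurd (Submodule.finrank_eq_zero.1 (Nat.le_zero.1 hd)) h0
  | succ d ih =>
    intro W hd hf hW h0
    by_cases h : ∀ V ≤ W, Inv π V → V = ⊥ ∨ V = W
    · exact ⟨W, le_rfl, hf, hW, h0, h⟩
    · push Not at h
      obtain ⟨V, hVW, hV, hV0, hne⟩ := h
      have hlt : V < W := lt_of_le_of_ne hVW hne
      have hfV : FiniteDimensional ℂ V := Submodule.finiteDimensional_of_le hVW
      have h1 := Submodule.finrank_lt_finrank_of_lt hlt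
      obtain ⟨V', h2, h3⟩ := ih V (by omega) hfV hV hV0
      exact ⟨V', h2.trans hVW, h3⟩

/-- **Decomposition.** To show that all vectors have null averages it is enough to consider the
irreducible finite-dimensional subrepresentations, and the subrepresentations without
finite-dimensional subrepresentations. -/
theorem decomp [CompleteSpace K] (π : Γ →* (K ≃ₗᵢ[ℂ] K)) {w : ℕ → ℂ} (hw : ∀ n, ‖w n‖ ≤ 1)
    (x : ℕ → Γ) (h1 : ∀ (W : Submodule ℂ K) (hW : IrrW π W),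
      Z w (fun n => sub π W hW.2.1 (x n)) = ⊤)
    (h2 : ∀ (W : Submodule ℂ K) (hW : Inv π W), CompleteSpace W → NoFD (sub π W hW) →
      Z w (fun n => sub π W hW (x n)) = ⊤) :
    Z w (fun n => π (x n)) = ⊤ := by
  set D : Submodule ℂ K := ⨆ W : {W : Submodule ℂ K // IrrW π W}, W.1 with hD
  have hDI : Inv π D := Inv.iSup fun W => W.2.2.1
  refine Z_top hw _ D ?_ ?_
  · exact iSup_le fun W => Z_of_sub W.2.2.1 (h1 W.1 W.2)
  · refine Z_of_sub hDI.orth (h2 _ hDI.orth inferInstance ?_)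
    intro V hVf hVI
    by_contra hV0
    have hV' : V.map Dᗮ.subtype ≠ ⊥ := by
      intro h
      refine hV0 ((Submodule.eq_bot_iff _).2 fun u hu => Subtype.ext ?_)
      exact (Submodule.eq_bot_iff _).1 h _ ⟨u, hu, rfl⟩
    have hf' : FiniteDimensional ℂ (V.map Dᗮ.subtype) := inferInstance
    obtain ⟨W, hW, hWi⟩ := exists_irrW π _ _ le_rfl hf' (sub_mem_map hDI.orth hVI) hV'
    refine hWi.2.2.1 ?_
    rw [Submodule.eq_bot_iff]
    intro u hu
    have h3 : u ∈ D := (le_iSup (fun W : {W : Submodule ℂ K // IrrW π W} => W.1) ⟨W, hWi⟩) hu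
    obtain ⟨u', -, rfl⟩ := hW hu
    have := (Submodule.mem_orthogonal _ _).1 u'.2 _ h3
    exact inner_self_eq_zero.1 this

end Run7.h190.H
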