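import Pool.Agent.Run7.h190.Grp
import Pool.Agent.Run7.h190.HS

/-! Polynomial sequences in finite-dimensional irreducible representations. -/

set_option autoImplicit false
set_option linter.unusedSectionVars false

open Finset Filter Topology
open scoped InnerProductSpace Polynomial

namespace Run7.h190.H

open Pool.Agent.TH261.AB Pool.Agent.Helper188.NCM Run7.h190.G

/-! ### polynomials -/

/-- rational up to the constant term -/
def RatP (R : ℝ[X]) : Prop := ∃ (c : ℝ) (Q : ℚ[X]), R = Polynomial.C c + Q.map (algebraMap ℚ ℝ)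

theorem ratP_of (R : ℝ[X]) (h : ¬ ∃ i, 1 ≤ i ∧ Irrational (R.coeff i)) : RatP R := by
  have h1 : R - Polynomial.C (R.coeff 0) ∈ Polynomial.lifts (algebraMap ℚ ℝ) := by
    rw [Polynomial.lifts_iff_coeff_lifts]
    intro n
    rcases Nat.eq_zero_or_pos n with rfl | hn
    · exact ⟨0, by simp⟩
    · rw [Polynomial.coeff_sub, Polynomial.coeff_C, if_neg hn.ne', sub_zero]
      by_contra hcon
      exact h ⟨n, hn, fun ⟨q, hq⟩ => hcon ⟨q, hq⟩⟩
  obtain ⟨Q, hQ⟩ := (Polynomial.mem_lifts _).1 h1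
  exact ⟨R.coeff 0, Q, by rw [hQ]; ring⟩

theorem RatP.not {R : ℝ[X]} (h : RatP R) : ¬ ∃ i, 1 ≤ i ∧ Irrational (R.coeff i) := by
  obtain ⟨c, Q, rfl⟩ := h
  rintro ⟨i, hi, h⟩
  rw [Polynomial.coeff_add, Polynomial.coeff_C, if_neg (by omega), zero_add,
    Polynomial.coeff_map] at h
  exact h ⟨_, rfl⟩

theorem RatP.comp {R : ℝ[X]} (h : RatP R) (a b : ℚ) :
    RatP (R.comp (Polynomial.C (a : ℝ) * Polynomial.X + Polynomial.C (b : ℝ))) := by
  obtain ⟨c, Q, rfl⟩ := h
  refine ⟨c, Q.comp (Polynomial.C a * Polynomial.X + Polynomial.C b), ?_⟩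
  rw [Polynomial.add_comp, Polynomial.C_comp, Polynomial.map_comp]
  simp

theorem irr_comp {R : ℝ[X]} (h : ∃ i, 1 ≤ i ∧ Irrational (R.coeff i)) (T s : ℕ) (hT : 0 < T) :
    ∃ i, 1 ≤ i ∧ Irrational
      ((R.comp (Polynomial.C (T : ℝ) * Polynomial.X + Polynomial.C (s : ℝ))).coeff i) := by
  by_contra hcon
  have h1 := (ratP_of _ hcon).comp ((T : ℚ)⁻¹) (-(s : ℚ) * (T : ℚ)⁻¹)
  refine h1.not ?_
  have hT0 : (T : ℝ) ≠ 0 := by exact_mod_cast hT.ne'
  have e : (R.comp (Polynomial.C (T : ℝ) * Polynomial.X + Polynomial.C (s : ℝ))).comp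
      (Polynomial.C (((T : ℚ)⁻¹ : ℚ) : ℝ) * Polynomial.X +
        Polynomial.C ((-(s : ℚ) * (T : ℚ)⁻¹ : ℚ) : ℝ)) = R := by
    rw [Polynomial.comp_assoc]
    have e2 : (Polynomial.C (T : ℝ) * Polynomial.X + Polynomial.C (s : ℝ)).comp
      (Polynomial.C (((T : ℚ)⁻¹ : ℚ) : ℝ) * Polynomial.X +
        Polynomial.C ((-(s : ℚ) * (T : ℚ)⁻¹ : ℚ) : ℝ)) = Polynomial.X := by
      simp only [Polynomial.add_comp, Polynomial.mul_comp, Polynomial.C_comp, Polynomial.X_comp]
      rw [mul_add, ← mul_assoc, ← Polynomial.C_mul, ← Polynomial.C_mul, add_assoc,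
        ← Polynomial.C_add]
      push_cast
      rw [mul_inv_cancel₀ hT0, show (T : ℝ) * (-(s : ℝ) * (T : ℝ)⁻¹) + s = 0 by field_simp; ring]
      simp
    rw [e2, Polynomial.comp_X]
  rw [e]
  exact h

/-- common denominators -/
theorem exists_den (Q : ℚ[X]) : ∃ M : ℕ, 0 < M ∧ ∀ n : ℕ, ∃ z : ℤ, (M : ℚ) * Q.eval (n : ℚ) = z := by
  induction Q using Polynomial.induction_on' with
  | add p q hp hq =>
    obtain ⟨M, hM, h1⟩ := hp
    obtain ⟨M', hM', h2⟩ := hq
    refine ⟨M * M', Nat.mul_pos hM hM', fun n => ?_⟩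
    obtain ⟨z, hz⟩ := h1 n
    obtain ⟨z', hz'⟩ := h2 n
    refine ⟨M' * z + M * z', ?_⟩
    rw [Polynomial.eval_add]
    push_cast
    rw [← hz, ← hz']
    ring
  | monomial k a =>
    refine ⟨a.den, a.den_pos, fun n => ⟨a.num * n ^ k, ?_⟩⟩
    rw [Polynomial.eval_monomial, ← mul_assoc, mul_comm (a.den : ℚ), Rat.mul_den_eq_num]
    push_cast; ring

/-- phases of rational polynomials have finite order -/
theorem ratP_pow {R : ℝ[X]} (h : RatP R) (h0 : ee (R.eval 0) = 1) :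
    ∃ M : ℕ, 0 < M ∧ ∀ n : ℕ, ee (R.eval (n : ℝ)) ^ M = 1 := by
  obtain ⟨c, Q, rfl⟩ := h
  obtain ⟨M, hM, h1⟩ := exists_den Q
  refine ⟨M, hM, fun n => ?_⟩
  have h2 : ∀ n : ℕ, ∃ z : ℤ, (M : ℝ) * (Q.map (algebraMap ℚ ℝ)).eval (n : ℝ) = z := by
    intro n
    obtain ⟨z, hz⟩ := h1 n
    refine ⟨z, ?_⟩
    have e : (Q.map (algebraMap ℚ ℝ)).eval (n : ℝ) = ((Q.eval (n : ℚ) : ℚ) : ℝ) := by
      rw [Polynomial.eval_map]
      have := Polynomial.eval₂_at_apply (algebraMap ℚ ℝ) (n : ℚ) (p := Q)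
      simpa using this
    rw [e]
    exact_mod_cast hz
  obtain ⟨z0, hz0⟩ := h2 0
  obtain ⟨z, hz⟩ := h2 n
  have e1 : (Polynomial.C c + Q.map (algebraMap ℚ ℝ)).eval (n : ℝ) * M =
      (Polynomial.C c + Q.map (algebraMap ℚ ℝ)).eval 0 * M + ((z - z0 : ℤ) : ℝ) := by
    rw [Polynomial.eval_add, Polynomial.eval_add, Polynomial.eval_C, Polynomial.eval_C]
    push_cast
    rw [← hz, ← hz0]
    push_cast; ring
  rw [← ee_nat_mul, e1, ee_add, ee_int', ee_nat_mul, h0, one_pow, one_mul]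

/-! ### phases -/

section phases

variable {Γ : Type} [Group Γ]

/-- homomorphisms to the circle turn polynomial sequences into polynomial phases -/
theorem phase_of (δ : Γ →* ℂ) (hδ : ∀ g, ‖δ g‖ = 1) (k : ℕ) : ∀ x : ℕ → Γ, PS k x →
    ∃ P : ℕ → ℝ, IsPF P ∧ ∀ n, δ (x n) = ee (P n) := by
  induction k with
  | zero =>
    intro x hx
    refine ⟨fun _ => 0, IsPF.const 0, fun n => ?_⟩
    have : x n = 1 := hx n
    rw [this, map_one, ee_zero]
  | succ k ih =>
    intro x hx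
    obtain ⟨Q, hQ, h1⟩ := ih (dd x) fun n => by
      have := hx n
      rwa [Function.iterate_succ_apply] at this
    obtain ⟨θ, hθ⟩ := exists_ee (hδ (x 0))
    refine ⟨fun n => θ + ∑ i ∈ range n, Q i, ?_, fun n => ?_⟩
    · refine hQ.antidiff fun n => ?_
      rw [Finset.sum_range_succ]; ring
    · induction n with
      | zero => simpa using hθ
      | succ n ihn =>
        rw [dd_mul x n, map_mul, ihn, h1, ← ee_add]
        simp only [Finset.sum_range_succ]
        congr 1; ring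

/-- polynomial functions are polynomial sequences -/
theorem PS.of_pf {P : ℕ → ℝ} (hP : IsPF P) : ∃ k, PS k fun n => Multiplicative.ofAdd (P n) := by
  obtain ⟨R, hR⟩ := hP
  refine ⟨R.natDegree + 1, fun n => ?_⟩
  have h : ∀ k, dd^[k] (fun n => Multiplicative.ofAdd (P n)) =
      fun n : ℕ => Multiplicative.ofAdd ((fwdDiff 1)^[k] (fun x : ℝ => R.eval x) (n : ℝ)) := by
    intro k
    induction k with
    | zero =>
      funext n
      simp only [Function.iterate_zero, id, hR]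
    | succ k ih =>
      rw [Function.iterate_succ_apply', ih, Function.iterate_succ_apply']
      funext n
      rw [dd, ← ofAdd_neg, ← ofAdd_add, fwdDiff]
      congr 1
      push_cast; ring
  rw [h, Polynomial.fwdDiff_iter_eq_zero_of_degree_lt (P := R) (Nat.lt_succ_self _)]
  rfl

end phases

/-! ### finite-dimensional representations -/

section fd

variable {K : Type} [NormedAddCommGroup K] [InnerProductSpace ℂ K]

/-- the multiplication by a phase -/
noncomputable def sc : Multiplicative ℝ →* (K ≃ₗᵢ[ℂ] K) where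
  toFun t :=
    { toFun := fun x => ee t.toAdd • x
      map_add' := fun x y => smul_add _ _ _
      map_smul' := fun c x => by simp only [RingHom.id_apply]; rw [smul_comm]
      invFun := fun x => ee (-t.toAdd) • x
      left_inv := fun x => by
        show ee (-t.toAdd) • (ee t.toAdd • x) = x
        rw [smul_smul, ee_neg_mul, one_smul]
      right_inv := fun x => by
        show ee t.toAdd • (ee (-t.toAdd) • x) = x
        rw [smul_smul, mul_comm, ee_neg_mul, one_smul]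
      norm_map' := fun x => by
        show ‖ee t.toAdd • x‖ = ‖x‖
        rw [norm_smul, norm_ee, one_mul] }
  map_one' := by
    ext x
    show ee (0 : ℝ) • x = x
    rw [ee_zero, one_smul]
  map_mul' s t := by
    ext x
    show ee (s.toAdd + t.toAdd) • x = ee s.toAdd • (ee t.toAdd • x)
    rw [ee_add, smul_smul]

theorem sc_apply (t : Multiplicative ℝ) (x : K) : sc t x = ee t.toAdd • x := rfl

variable {Γ : Type} [Group Γ]

/-- the twisted representation -/
noncomputable def tw (π : Γ →* (K ≃ₗᵢ[ℂ] K)) : Γ × Multiplicative ℝ →* (K ≃ₗᵢ[ℂ] K) where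
  toFun p := sc p.2 * π p.1
  map_one' := by
    show sc 1 * π 1 = 1
    rw [map_one, map_one, one_mul]
  map_mul' p q := by
    show sc (p.2 * q.2) * π (p.1 * q.1) = (sc p.2 * π p.1) * (sc q.2 * π q.1)
    ext x
    show sc (p.2 * q.2) (π (p.1 * q.1) x) = sc p.2 (π p.1 (sc q.2 (π q.1 x)))
    rw [map_mul, rep_mul]
    show sc p.2 (sc q.2 (π p.1 (π q.1 x))) = sc p.2 (π p.1 (sc q.2 (π q.1 x)))
    exact congrArg (sc p.2) (LinearIsometryEquiv.map_smul _ _).symm

theorem tw_apply (π : Γ →* (K ≃ₗᵢ[ℂ] K)) (p : Γ × Multiplicative ℝ) (x : K) :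
    tw π p x = ee p.2.toAdd • π p.1 x := rfl

/-- the determinant -/
noncomputable def dt : (K ≃ₗᵢ[ℂ] K) →* ℂ where
  toFun g := LinearMap.det (g.toLinearEquiv : K →ₗ[ℂ] K)
  map_one' := by
    have : (((1 : K ≃ₗᵢ[ℂ] K)).toLinearEquiv : K →ₗ[ℂ] K) = LinearMap.id := rfl
    rw [this, LinearMap.det_id]
  map_mul' g h := by
    have : (((g * h : K ≃ₗᵢ[ℂ] K)).toLinearEquiv : K →ₗ[ℂ] K) =
      (g.toLinearEquiv : K →ₗ[ℂ] K) * (h.toLinearEquiv : K →ₗ[ℂ] K) := rfl
    rw [this, map_mul]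

theorem dt_norm [FiniteDimensional ℂ K] (g : K ≃ₗᵢ[ℂ] K) : ‖dt g‖ = 1 := by
  have h1 := LinearMap.normDet_eq_norm_det (𝕜 := ℂ) (g.toLinearEquiv : K →ₗ[ℂ] K)
  have h2 := LinearIsometry.normDet_eq_one g.toLinearIsometry
  show ‖LinearMap.det (g.toLinearEquiv : K →ₗ[ℂ] K)‖ = 1
  rw [← h1]
  exact h2

theorem dt_scalar (g : K ≃ₗᵢ[ℂ] K) (c : ℂ) (h : ∀ x, g x = c • x) :
    dt g = c ^ Module.finrank ℂ K := by
  have : (g.toLinearEquiv : K →ₗ[ℂ] K) = c • LinearMap.id := by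
    ext x
    exact h x
  show LinearMap.det (g.toLinearEquiv : K →ₗ[ℂ] K) = _
  rw [this, LinearMap.det_smul, LinearMap.det_id, mul_one]

/-- **A group of unitary matrices with cyclic central series, irreducible, with determinants of
bounded finite order, is finite.** -/
theorem fin_of_det [FiniteDimensional ℂ K] [Nontrivial K] (𝒢 : Subgroup (K ≃ₗᵢ[ℂ] K)) {r M : ℕ}
    (hCS : CS r 𝒢 inferInstance) (hM : 0 < M) (hdet : ∀ g ∈ 𝒢, dt g ^ M = 1)
    (hirr : ∀ V : Submodule ℂ K, (∀ g ∈ 𝒢, ∀ w ∈ V, g w ∈ V) → V = ⊥ ∨ V = ⊤) : Finite 𝒢 := by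
  refine CS.finite r hCS fun z hz => ?_
  obtain ⟨c, hc⟩ := Module.End.exists_eigenvalue ((z : K ≃ₗᵢ[ℂ] K).toLinearEquiv : K →ₗ[ℂ] K)
  have h1 := hirr (Module.End.eigenspace ((z : K ≃ₗᵢ[ℂ] K).toLinearEquiv : K →ₗ[ℂ] K) c) (by
    intro g hg w hw
    rw [Module.End.mem_eigenspace_iff] at hw ⊢
    show (z : K ≃ₗᵢ[ℂ] K) (g w) = c • g w
    have h2 : (z : K ≃ₗᵢ[ℂ] K) w = c • w := hw
    have h3 := congrArg (fun a : 𝒢 => (a : K ≃ₗᵢ[ℂ] K) w) (hz ⟨g, hg⟩)
    have h4 : (z : K ≃ₗᵢ[ℂ] K) (g w) = g ((z : K ≃ₗᵢ[ℂ] K) w) := h3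
    rw [h4, h2, LinearIsometryEquiv.map_smul])
  have h2 : ∀ x, (z : K ≃ₗᵢ[ℂ] K) x = c • x := by
    intro x
    have h3 := h1.resolve_left hc
    have h4 : x ∈ Module.End.eigenspace ((z : K ≃ₗᵢ[ℂ] K).toLinearEquiv : K →ₗ[ℂ] K) c := by
      rw [h3]; trivial
    exact Module.End.mem_eigenspace_iff.1 h4
  have hd : 0 < Module.finrank ℂ K := Module.finrank_pos
  have h3 := hdet z z.2
  rw [dt_scalar _ c h2, ← pow_mul] at h3
  refine isOfFinOrder_iff_pow_eq_one.2 ⟨_, Nat.mul_pos hd hM, ?_⟩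
  have h4 : ∀ (j : ℕ) x, ((z : K ≃ₗᵢ[ℂ] K) ^ j) x = c ^ j • x := by
    intro j
    induction j with
    | zero => intro x; simp
    | succ j ih =>
      intro x
      rw [pow_succ]
      show ((z : K ≃ₗᵢ[ℂ] K) ^ j) ((z : K ≃ₗᵢ[ℂ] K) x) = _
      rw [h2, LinearIsometryEquiv.map_smul, ih, smul_smul, pow_succ, mul_comm]
  refine Subtype.ext ?_
  ext x
  show ((z : K ≃ₗᵢ[ℂ] K) ^ (Module.finrank ℂ K * M)) x = x
  rw [h4, h3, one_smul]

/-- irreducible representations -/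
def IrrR (π : Γ →* (K ≃ₗᵢ[ℂ] K)) : Prop := ∀ V : Submodule ℂ K, Inv π V → V = ⊥ ∨ V = ⊤

theorem IrrW.irrR {π : Γ →* (K ≃ₗᵢ[ℂ] K)} {W : Submodule ℂ K} (h : IrrW π W) :
    IrrR (sub π W h.2.1) := by
  intro V hV
  rcases h.2.2.2 (V.map W.subtype) (Submodule.map_subtype_le _ _) (sub_mem_map h.2.1 hV) with h1 | h1
  · left
    rw [Submodule.eq_bot_iff] at h1 ⊢
    intro v hv
    exact Subtype.ext (h1 v ⟨v, hv, rfl⟩)
  · right
    rw [Submodule.eq_top_iff']
    intro v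
    have h2 : (v : K) ∈ V.map W.subtype := by rw [h1]; exact v.2
    obtain ⟨u, hu, huv⟩ := h2
    have : u = v := Subtype.ext huv
    rwa [← this]

theorem inv_of_gen {π : Γ →* (K ≃ₗᵢ[ℂ] K)} {x : ℕ → Γ} (hx : Subgroup.closure (Set.range x) = ⊤)
    {V : Submodule ℂ K} (h : ∀ n, ∀ w ∈ V, π (x n) w ∈ V ∧ π (x n)⁻¹ w ∈ V) : Inv π V := by
  intro g
  have hg : g ∈ Subgroup.closure (Set.range x) := by rw [hx]; trivial
  have h1 : ∀ w ∈ V, π g w ∈ V ∧ π g⁻¹ w ∈ V := by
    induction hg using Subgroup.closure_induction with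
    | mem y hy =>
      obtain ⟨n, rfl⟩ := hy
      exact h n
    | one => intro w hw; rw [inv_one, map_one]; exact ⟨hw, hw⟩
    | mul a b _ _ ha hb =>
      intro w hw
      rw [mul_inv_rev, rep_mul, rep_mul]
      exact ⟨(ha _ (hb w hw).1).1, (hb _ (ha w hw).2).2⟩
    | inv a _ ha =>
      intro w hw
      rw [inv_inv]
      exact (ha w hw).symm
  exact fun w hw => (h1 w hw).1

/-- **Polynomial sequences in finite-dimensional irreducible representations.** -/
theorem fd_form [Group.IsNilpotent Γ] [FiniteDimensional ℂ K] [Nontrivial K]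
    (π : Γ →* (K ≃ₗᵢ[ℂ] K)) (hirr : IrrR π) {k : ℕ} {x : ℕ → Γ} (hx : PS k x)
    (hgen : Subgroup.closure (Set.range x) = ⊤) :
    ∃ (P : ℕ → ℝ) (T : ℕ) (A : ℕ → (K ≃ₗᵢ[ℂ] K)), IsPF P ∧ 0 < T ∧ (∀ n, A (n + T) = A n) ∧
      (∀ n ξ, π (x n) ξ = ee (P n) • A n ξ) ∧
      ∀ n, dt (π (x n)) = ee (P n * Module.finrank ℂ K) := by
  obtain ⟨P0, hP0, h1⟩ := phase_of (dt.comp π) (fun g => dt_norm _) k x hx
  set d : ℕ := Module.finrank ℂ K with hd
  have hd0 : 0 < d := Module.finrank_pos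
  have hdr : (d : ℝ) ≠ 0 := by exact_mod_cast hd0.ne'
  set P : ℕ → ℝ := fun n => P0 n * (d : ℝ)⁻¹ with hP
  have hPF : IsPF P := hP0.mul (IsPF.const _)
  obtain ⟨k', hk'⟩ := PS.of_pf hPF.neg
  set y : ℕ → Γ × Multiplicative ℝ := fun n => (x n, Multiplicative.ofAdd (- P n)) with hy
  have hyP : PS (max k k') y := (hx.mono (le_max_left _ _)).prod (hk'.mono (le_max_right _ _))
  set H : Subgroup (Γ × Multiplicative ℝ) := Subgroup.closure (Set.range y) with hH
  have hHfg : Group.FG H := (Group.fg_iff_subgroup_fg _).2 hyP.fg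
  obtain ⟨r, hr⟩ := CS.of_nilpotent H
  set 𝒢 : Subgroup (K ≃ₗᵢ[ℂ] K) := H.map (tw π) with h𝒢
  have hCS : CS r 𝒢 inferInstance :=
    CS.surj r ((tw π).subgroupMap H) ((tw π).subgroupMap_surjective H) hr
  have hA : ∀ n, tw π (y n) ∈ 𝒢 := fun n =>
    Subgroup.mem_map_of_mem _ (Subgroup.subset_closure ⟨n, rfl⟩)
  have hdetA : ∀ n, dt (tw π (y n)) = 1 := by
    intro n
    have e : tw π (y n) = sc (Multiplicative.ofAdd (- P n)) * π (x n) := rfl
    rw [e, map_mul, dt_scalar (sc (Multiplicative.ofAdd (- P n)) : K ≃ₗᵢ[ℂ] K) (ee (- P n))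
      (fun x => rfl), ← hd]
    have h2 : dt (π (x n)) = ee (P0 n) := h1 n
    rw [h2, ← ee_nat_mul, ← ee_add, hP]
    simp only
    rw [show -(P0 n * (d : ℝ)⁻¹) * d + P0 n = 0 by field_simp; ring, ee_zero]
  have hfin : Finite 𝒢 := by
    refine fin_of_det 𝒢 hCS one_pos ?_ ?_
    · have h2 : 𝒢 ≤ (dt (K := K)).ker := by
        rw [h𝒢, hH, MonoidHom.map_closure, Subgroup.closure_le]
        rintro _ ⟨_, ⟨n, rfl⟩, rfl⟩
        exact hdetA n
      intro g hg
      rw [pow_one]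
      exact h2 hg
    · intro V hV
      refine hirr V (inv_of_gen hgen fun n w hw => ?_)
      have h2 := hV _ (hA n) w hw
      have h3 := hV _ (𝒢.inv_mem (hA n)) w hw
      rw [← map_inv] at h3
      rw [tw_apply] at h2 h3
      constructor
      · have h4 := V.smul_mem (ee (- -P n)) h2
        have e : ee (- -P n) • (ee (-P n) • π (x n) w) = π (x n) w := by
          rw [smul_smul, ee_neg_mul, one_smul]
        exact e ▸ h4
      · have h4 := V.smul_mem (ee (-P n)) h3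
        have e : ee (-P n) • (ee (- -P n) • π (x n)⁻¹ w) = π (x n)⁻¹ w := by
          rw [smul_smul, mul_comm, ee_neg_mul, one_smul]
        exact e ▸ h4
  have hAP : PS (max k k') fun n => tw π (y n) := hyP.map (tw π)
  obtain ⟨T, hT, hper⟩ := PS.periodic (Γ := 𝒢) (max k k') (fun n => ⟨tw π (y n), hA n⟩) (by
    intro n
    have h2 := dd_map 𝒢.subtype (max k k') (fun n => (⟨tw π (y n), hA n⟩ : 𝒢))
    have h3 := congrFun h2 n
    have h4 := hAP n
    exact Subtype.ext (h3.symm.trans h4))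
  refine ⟨P, T, fun n => tw π (y n), hPF, hT, fun n => congrArg Subtype.val (hper n),
    fun n ξ => ?_, fun n => ?_⟩
  · show π (x n) ξ = ee (P n) • (ee (-P n) • π (x n) ξ)
    rw [smul_smul, mul_comm, ee_neg_mul, one_smul]
  · have h2 : dt (π (x n)) = ee (P0 n) := h1 n
    rw [h2, hP]
    congr 1
    field_simp

/-- weights which are orthogonal to the phases -/
theorem fd_null {π : Γ →* (K ≃ₗᵢ[ℂ] K)} {x : ℕ → Γ} {P : ℕ → ℝ} {T : ℕ}
    {A : ℕ → (K ≃ₗᵢ[ℂ] K)} (hT : 0 < T) (hA : ∀ n, A (n + T) = A n)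
    (hπ : ∀ n ξ, π (x n) ξ = ee (P n) • A n ξ) {w : ℕ → ℂ} (hw : ∀ n, ‖w n‖ ≤ 1)
    (h : ∀ s < T, Tendsto (vav fun j => w (T * j + s) * ee (P (T * j + s))) atTop (𝓝 0)) :
    Z w (fun n => π (x n)) = ⊤ := by
  rw [Submodule.eq_top_iff']
  intro ξ
  rw [mem_Z]
  refine vav_of_residues (norm_nonneg ξ) (fun n => ?_) hT fun s hs => ?_
  · rw [norm_smul, LinearIsometryEquiv.norm_map]
    exact mul_le_of_le_one_left (norm_nonneg _) (hw n)
  · have hAs : ∀ j, A (T * j + s) = A s := by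
      intro j
      induction j with
      | zero => simp
      | succ j ih => rw [show T * (j + 1) + s = T * j + s + T by ring, hA, ih]
    have h1 := (h s hs).smul_const (A s ξ)
    rw [zero_smul] at h1
    refine h1.congr fun N => ?_
    rw [vav, vav, smul_assoc, Finset.sum_smul]
    congr 1
    refine Finset.sum_congr rfl fun j _ => ?_
    rw [hπ, hAs, smul_smul]

/-- the case without weights -/
theorem fd_erg [Group.IsNilpotent Γ] [FiniteDimensional ℂ K] [Nontrivial K]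
    (π : Γ →* (K ≃ₗᵢ[ℂ] K)) (hirr : IrrR π) (hNF : NF π) {k : ℕ} {x : ℕ → Γ} (hx : PS k x)
    (hx0 : x 0 = 1) (hgen : Subgroup.closure (Set.range x) = ⊤) :
    Z (fun _ => 1) (fun n => π (x n)) = ⊤ := by
  obtain ⟨P, T, A, ⟨R, hR⟩, hT, hA, hπ, hdet⟩ := fd_form π hirr hx hgen
  by_cases hirrat : ∃ i, 1 ≤ i ∧ Irrational (R.coeff i)
  · refine fd_null hT hA hπ (fun n => by simp) fun s hs => ?_
    have h1 := Pool.Agent.H767R2.weyl_poly _ (irr_comp hirrat T s hT)
    rw [cav_smul_iff] at h1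
    refine h1.congr fun N => ?_
    rw [vav]
    congr 1
    refine Finset.sum_congr rfl fun j _ => ?_
    rw [ee_eq, one_mul, hR, Polynomial.eval_comp]
    simp
  · exfalso
    -- the determinants have finite order
    have hd0 : 0 < Module.finrank ℂ K := Module.finrank_pos
    have h1 : RatP (R * Polynomial.C (Module.finrank ℂ K : ℝ)) := by
      obtain ⟨c, Q, hQ⟩ := ratP_of R hirrat
      refine ⟨c * (Module.finrank ℂ K : ℝ), Q * Polynomial.C (Module.finrank ℂ K : ℚ), ?_⟩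
      rw [hQ]
      simp [add_mul]
    obtain ⟨M, hM, h2⟩ := ratP_pow h1 (by
      have h3 := hdet 0
      rw [hx0, map_one, map_one, hR] at h3
      rw [Polynomial.eval_mul, Polynomial.eval_C]
      simpa using h3.symm)
    have hfg : Group.FG Γ := Group.fg_def.2 (by rw [← hgen]; exact hx.fg)
    obtain ⟨r, hr⟩ := CS.of_nilpotent Γ
    have hCS : CS r π.range inferInstance := CS.surj r π.rangeRestrict π.rangeRestrict_surjective hr
    have hfin : Finite π.range := by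
      refine fin_of_det π.range hCS hM ?_ ?_
      · rintro _ ⟨g, rfl⟩
        have hg : g ∈ Subgroup.closure (Set.range x) := by rw [hgen]; trivial
        induction hg using Subgroup.closure_induction with
        | mem y hy =>
          obtain ⟨n, rfl⟩ := hy
          rw [hdet, hR]
          have := h2 n
          rwa [Polynomial.eval_mul, Polynomial.eval_C] at this
        | one => rw [map_one, map_one, one_pow]
        | mul a b _ _ ha hb => rw [map_mul, map_mul, mul_pow, ha, hb, one_mul]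
        | inv a _ ha =>
          have h3 : dt (π a⁻¹) * dt (π a) = 1 := by
            rw [← map_mul, ← map_mul, inv_mul_cancel, map_one, map_one]
          have h4 : dt (π a⁻¹) ^ M * dt (π a) ^ M = 1 := by rw [← mul_pow, h3, one_pow]
          rwa [ha, mul_one] at h4
      · intro V hV
        exact hirr V fun g w hw => hV _ ⟨g, rfl⟩ w hw
    obtain ⟨ξ, hξ⟩ := exists_ne (0 : K)
    refine hξ (hNF π.ker inferInstance ξ fun g hg => ?_)
    rw [MonoidHom.mem_ker] at hg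
    rw [hg]; rfl

end fd

end Run7.h190.H
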