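import Pool.Agent.Helper111.EN.Basic

/-! Central series with cyclic factors; polynomial sequences in groups. -/

set_option autoImplicit false
set_option linter.unusedSectionVars false

open scoped commutatorElement

namespace Run7.h190.G

/-- a central series of length `r` with cyclic factors -/
def CS : ℕ → (Γ : Type) → Group Γ → Prop
  | 0, Γ, _ => Subsingleton Γ
  | r + 1, Γ, _ => ∃ c : Γ, (∀ x, c * x = x * c) ∧ ∃ (Δ : Type) (i : Group Δ) (q : Γ →* Δ),
      Function.Surjective q ∧ q.ker = Subgroup.zpowers c ∧ CS r Δ i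

theorem zp_comm {Γ : Type} [Group Γ] {c : Γ} (hc : ∀ x, c * x = x * c) :
    Subgroup.zpowers c ≤ Subgroup.center Γ := by
  rw [Subgroup.zpowers_le]
  exact Subgroup.mem_center_iff.2 fun x => (hc x).symm

theorem normal_of_le {Γ : Type} [Group Γ] {N : Subgroup Γ} (h : N ≤ Subgroup.center Γ) :
    N.Normal := by
  refine ⟨fun n hn g => ?_⟩
  have := Subgroup.mem_center_iff.1 (h hn) g
  rw [this, mul_inv_cancel_right]
  exact hn

/-- factoring through a surjection -/
theorem exists_factor {Γ Δ Λ : Type} [Group Γ] [Group Δ] [Group Λ] (q : Γ →* Δ)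
    (hq : Function.Surjective q) (f : Γ →* Λ) (h : q.ker ≤ f.ker) :
    ∃ g : Δ →* Λ, ∀ x, g (q x) = f x := by
  refine ⟨(q.liftOfRightInverse _ (Function.rightInverse_surjInv hq)) ⟨f, h⟩, fun x => ?_⟩
  exact MonoidHom.liftOfRightInverse_comp_apply _ _ _ ⟨f, h⟩ x

theorem CS.surj : ∀ (r : ℕ) {Γ Γ' : Type} [i : Group Γ] [i' : Group Γ'] (f : Γ →* Γ'),
    Function.Surjective f → CS r Γ i → CS r Γ' i'
  | 0, Γ, Γ', i, i', f, hf, h => by
    have : Subsingleton Γ := h
    exact hf.subsingleton
  | r + 1, Γ, Γ', i, i', f, hf, ⟨c, hc, Δ, iΔ, q, hq, hk, h⟩ => by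
    have hc' : ∀ y, f c * y = y * f c := by
      intro y
      obtain ⟨x, rfl⟩ := hf y
      rw [← map_mul, hc, map_mul]
    have hN : (Subgroup.zpowers (f c)).Normal := normal_of_le (zp_comm hc')
    obtain ⟨g, hg⟩ := exists_factor q hq ((QuotientGroup.mk' (Subgroup.zpowers (f c))).comp f) (by
      rw [hk, Subgroup.zpowers_le]
      show (QuotientGroup.mk' (Subgroup.zpowers (f c))) (f c) = 1
      rw [← MonoidHom.mem_ker, QuotientGroup.ker_mk']
      exact Subgroup.mem_zpowers _)
    refine ⟨f c, hc', _, inferInstance, QuotientGroup.mk' _, QuotientGroup.mk'_surjective _,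
      QuotientGroup.ker_mk' _, CS.surj r g ?_ h⟩
    intro y
    obtain ⟨y, rfl⟩ := QuotientGroup.mk'_surjective _ y
    obtain ⟨x, rfl⟩ := hf y
    exact ⟨q x, hg x⟩

/-- if the central elements have finite order, then the group is finite -/
theorem CS.finite : ∀ (r : ℕ) {Γ : Type} [i : Group Γ], CS r Γ i →
    (∀ z : Γ, (∀ x, z * x = x * z) → IsOfFinOrder z) → Finite Γ
  | 0, Γ, i, h, _ => by
    have : Subsingleton Γ := h
    infer_instance
  | r + 1, Γ, i, ⟨c, hc, Δ, iΔ, q, hq, hk, h⟩, hz => by
    have hcf := hz c hc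
    have h1 : Finite Δ := by
      refine CS.finite r h fun z hzc => ?_
      obtain ⟨a, rfl⟩ := hq z
      -- commutators with `a` are powers of `c`
      obtain ⟨e, he, hce⟩ := isOfFinOrder_iff_pow_eq_one.1 hcf
      have h2 : ∀ x, ∃ j : ℤ, a * x = c ^ j * (x * a) := by
        intro x
        have h3 : a * x * (x * a)⁻¹ ∈ q.ker := by
          rw [MonoidHom.mem_ker, map_mul, map_inv, map_mul, map_mul, hzc, mul_inv_cancel]
        rw [hk, Subgroup.mem_zpowers_iff] at h3
        obtain ⟨j, hj⟩ := h3
        exact ⟨j, by rw [hj, inv_mul_cancel_right]⟩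
      have hcz : ∀ (j : ℤ) (x : Γ), c ^ j * x = x * c ^ j := by
        intro j x
        exact (Subgroup.mem_center_iff.1 (zp_comm hc (Subgroup.zpow_mem_zpowers c j)) x).symm
      have h4 : ∀ x, ∀ n : ℕ, ∃ j : ℤ, a ^ n * x = c ^ (j * n) * (x * a ^ n) := by
        intro x n
        obtain ⟨j, hj⟩ := h2 x
        refine ⟨j, ?_⟩
        induction n with
        | zero => simp
        | succ n ih =>
          rw [pow_succ', mul_assoc, ih, ← mul_assoc a, ← hcz, mul_assoc (c ^ _) a, ← mul_assoc a x,
            hj]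
          push_cast
          rw [mul_add, mul_one, zpow_add]
          simp only [mul_assoc]
      have h5 : ∀ x, a ^ e * x = x * a ^ e := by
        intro x
        obtain ⟨j, hj⟩ := h4 x e
        rw [hj, mul_comm j, zpow_mul, zpow_natCast, hce, one_zpow, one_mul]
      have h6 := hz _ h5
      obtain ⟨e', he', h7⟩ := isOfFinOrder_iff_pow_eq_one.1 h6
      refine isOfFinOrder_iff_pow_eq_one.2 ⟨e * e', Nat.mul_pos he he', ?_⟩
      rw [← map_pow, pow_mul, h7, map_one]
    rw [MonoidHom.finite_iff_finite_ker_range q]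
    constructor
    · rw [hk]
      exact hcf.finite_zpowers
    · exact inferInstance

/-- adding finitely many central elements -/
theorem CS.ext_fin {r : ℕ} {Δ : Type} [iΔ : Group Δ] (hΔ : CS r Δ iΔ) : ∀ (l : List ℕ)
    {Γ : Type} [i : Group Γ] (g : ℕ → Γ), (∀ j ∈ l, ∀ x, g j * x = x * g j) → ∀ (f : Γ →* Δ),
    Function.Surjective f → f.ker = Subgroup.closure (g '' {j | j ∈ l}) → ∃ r', CS r' Γ i
  | [], Γ, i, g, hg, f, hf, hk => by
    simp only [List.not_mem_nil, Set.ofPred_false, Set.image_empty, Subgroup.closure_empty] at hk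
    refine ⟨r, CS.surj r (MulEquiv.ofBijective f ⟨(MonoidHom.ker_eq_bot_iff f).1 hk, hf⟩).symm.toMonoidHom
      (MulEquiv.surjective _) hΔ⟩
  | j :: l, Γ, i, g, hg, f, hf, hk => by
    have hc := hg j (by simp)
    have hN : (Subgroup.zpowers (g j)).Normal := normal_of_le (zp_comm hc)
    have hjk : g j ∈ f.ker := by
      rw [hk]
      exact Subgroup.subset_closure ⟨j, by simp, rfl⟩
    obtain ⟨f', hf'⟩ := exists_factor (QuotientGroup.mk' (Subgroup.zpowers (g j)))
      (QuotientGroup.mk'_surjective _) f (by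
        rw [QuotientGroup.ker_mk', Subgroup.zpowers_le]
        exact hjk)
    have hj1 : (QuotientGroup.mk' (Subgroup.zpowers (g j))) (g j) = 1 := by
      rw [← MonoidHom.mem_ker, QuotientGroup.ker_mk']
      exact Subgroup.mem_zpowers _
    obtain ⟨r', h⟩ := CS.ext_fin hΔ l (Γ := Γ ⧸ Subgroup.zpowers (g j))
      (fun k => QuotientGroup.mk' (Subgroup.zpowers (g j)) (g k)) (by
        intro k hk x
        obtain ⟨x, rfl⟩ := QuotientGroup.mk'_surjective _ x
        rw [← map_mul, hg k (by simp [hk]), map_mul]) f' (by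
        intro y
        obtain ⟨x, rfl⟩ := hf y
        exact ⟨_, hf' x⟩) (by
        ext y
        obtain ⟨x, rfl⟩ := QuotientGroup.mk'_surjective _ y
        rw [MonoidHom.mem_ker, hf', ← MonoidHom.mem_ker, hk]
        constructor
        · intro hx
          have h2 := Subgroup.mem_map_of_mem (QuotientGroup.mk' (Subgroup.zpowers (g j))) hx
          rw [MonoidHom.map_closure] at h2
          have h3 : Subgroup.closure ((QuotientGroup.mk' (Subgroup.zpowers (g j))) ''
              (g '' {k | k ∈ j :: l})) ≤ Subgroup.closure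
              ((fun k => QuotientGroup.mk' (Subgroup.zpowers (g j)) (g k)) '' {k | k ∈ l}) := by
            rw [Subgroup.closure_le]
            rintro _ ⟨_, ⟨k, hk, rfl⟩, rfl⟩
            rcases List.mem_cons.1 hk with rfl | hk
            · rw [hj1]; exact Subgroup.one_mem _
            · exact Subgroup.subset_closure ⟨k, hk, rfl⟩
          exact h3 h2
        · intro hx
          have h3 : Subgroup.closure
              ((fun k => QuotientGroup.mk' (Subgroup.zpowers (g j)) (g k)) '' {k | k ∈ l}) ≤
              (Subgroup.closure (g '' {k | k ∈ j :: l})).map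
                (QuotientGroup.mk' (Subgroup.zpowers (g j))) := by
            rw [Subgroup.closure_le]
            rintro _ ⟨k, hk, rfl⟩
            exact ⟨g k, Subgroup.subset_closure ⟨k, by simp only [Set.mem_ofPred_eq] at hk ⊢; simp [hk], rfl⟩, rfl⟩
          obtain ⟨y, hy, hyx⟩ := h3 hx
          have h4 : y⁻¹ * x ∈ Subgroup.zpowers (g j) := by
            rw [← QuotientGroup.eq]; exact hyx
          have h5 : x = y * (y⁻¹ * x) := by group
          rw [h5]
          refine Subgroup.mul_mem _ hy ?_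
          refine (Subgroup.zpowers_le.2 ?_) h4
          exact Subgroup.subset_closure ⟨j, by simp, rfl⟩)
    exact ⟨r' + 1, g j, hc, _, inferInstance, QuotientGroup.mk' _, QuotientGroup.mk'_surjective _,
      QuotientGroup.ker_mk' _, h⟩

theorem CS.of_nilpotent_aux (Γ : Type) [Group Γ] [Group.IsNilpotent Γ] :
    ∀ _ : Group.FG Γ, ∃ r, CS r Γ inferInstance := by
  refine Group.nilpotent_center_quotient_ind (P := fun Γ _ _ => ∀ _ : Group.FG Γ,
    ∃ r, CS r Γ inferInstance) Γ ?_ ?_
  · intro Γ _ hs _
    exact ⟨0, hs⟩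
  · intro Γ _ _ ih hf
    obtain ⟨r, hr⟩ := ih inferInstance
    obtain ⟨S, hS⟩ := Pool.Agent.Helper111.EN.center_fg (K := Γ)
    have hSl : ∃ g : ℕ → Γ, ∃ l : List ℕ, g '' {j | j ∈ l} = (S : Set Γ) := by
      refine ⟨fun n => S.toList.getD n 1, List.range S.card, ?_⟩
      ext x
      constructor
      · rintro ⟨n, hn, rfl⟩
        have hn' : n < S.toList.length := by
          simpa using hn
        simp only [List.getD_eq_getElem _ _ hn']
        exact Finset.mem_toList.1 (List.getElem_mem hn')
      · intro hx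
        have hx' : x ∈ S.toList := by simpa using hx
        obtain ⟨n, hn, rfl⟩ := List.getElem_of_mem hx'
        exact ⟨n, by simpa using hn, by simp only [List.getD_eq_getElem _ _ hn]⟩
    obtain ⟨g, l, hgl⟩ := hSl
    refine CS.ext_fin hr l g (fun j hj x => ?_) (QuotientGroup.mk' (Subgroup.center Γ))
      (QuotientGroup.mk'_surjective _) (by rw [QuotientGroup.ker_mk', hgl, hS])
    have h1 : g j ∈ Subgroup.center Γ := by
      rw [← hS]
      refine Subgroup.subset_closure ?_
      rw [← hgl]
      exact ⟨j, hj, rfl⟩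
    exact (Subgroup.mem_center_iff.1 h1 x).symm

theorem CS.of_nilpotent (Γ : Type) [Group Γ] [Group.IsNilpotent Γ] [hf : Group.FG Γ] :
    ∃ r, CS r Γ inferInstance := CS.of_nilpotent_aux Γ hf

section poly

variable {Γ : Type} [Group Γ] {Δ : Type} [Group Δ]

/-- the difference of a sequence -/
def dd (x : ℕ → Γ) : ℕ → Γ := fun n => (x n)⁻¹ * x (n + 1)

theorem dd_mul (x : ℕ → Γ) (n : ℕ) : x (n + 1) = x n * dd x n := by
  rw [dd, mul_inv_cancel_left]

/-- polynomial sequences of degree less than `k` -/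
def PS (k : ℕ) (x : ℕ → Γ) : Prop := ∀ n, (dd^[k] x) n = 1

theorem dd_one : dd (fun _ => (1 : Γ)) = fun _ => 1 := by
  funext n; simp [dd]

theorem PS.mono {k l : ℕ} (h : k ≤ l) {x : ℕ → Γ} (hx : PS k x) : PS l x := by
  obtain ⟨j, rfl⟩ := Nat.exists_eq_add_of_le h
  have h1 : dd^[k] x = fun _ => 1 := funext hx
  intro n
  rw [add_comm, Function.iterate_add_apply, h1]
  induction j with
  | zero => rfl
  | succ j ih =>
    rw [Function.iterate_succ_apply, dd_one]
    exact ih (by omega)

theorem dd_map (f : Γ →* Δ) (k : ℕ) (x : ℕ → Γ) :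
    dd^[k] (fun n => f (x n)) = fun n => f ((dd^[k] x) n) := by
  induction k with
  | zero => rfl
  | succ k ih =>
    rw [Function.iterate_succ_apply', ih, Function.iterate_succ_apply']
    funext n
    simp [dd]

theorem PS.map (f : Γ →* Δ) {k : ℕ} {x : ℕ → Γ} (hx : PS k x) : PS k fun n => f (x n) := by
  intro n
  rw [dd_map]
  show f ((dd^[k] x) n) = 1
  rw [hx, map_one]

theorem PS.prod {k : ℕ} {x : ℕ → Γ} {y : ℕ → Δ} (hx : PS k x) (hy : PS k y) :
    PS k fun n => (x n, y n) := by
  have h : ∀ k, dd^[k] (fun n => (x n, y n)) = fun n => ((dd^[k] x) n, (dd^[k] y) n) := by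
    intro k
    induction k with
    | zero => rfl
    | succ k ih =>
      rw [Function.iterate_succ_apply', ih, Function.iterate_succ_apply',
        Function.iterate_succ_apply']
      funext n
      simp [dd]
  intro n
  rw [h]
  show ((dd^[k] x) n, (dd^[k] y) n) = 1
  rw [hx, hy]
  rfl

/-- the values generate a finitely generated group -/
theorem PS.mem (k : ℕ) : ∀ (x : ℕ → Γ), PS k x → ∀ n,
    x n ∈ Subgroup.closure ((fun i => (dd^[i] x) 0) '' {i | i < k}) := by
  induction k with
  | zero =>
    intro x hx n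
    have : x n = 1 := hx n
    rw [this]
    exact Subgroup.one_mem _
  | succ k ih =>
    intro x hx n
    have hx' : PS k (dd x) := fun n => by
      have := hx n
      rwa [Function.iterate_succ_apply] at this
    have h1 := ih (dd x) hx'
    have hle : Subgroup.closure ((fun i => (dd^[i] (dd x)) 0) '' {i | i < k}) ≤
        Subgroup.closure ((fun i => (dd^[i] x) 0) '' {i | i < k + 1}) := by
      refine Subgroup.closure_mono ?_
      rintro _ ⟨i, hi, rfl⟩
      exact ⟨i + 1, Nat.succ_lt_succ hi, rfl⟩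
    induction n with
    | zero => exact Subgroup.subset_closure ⟨0, Nat.succ_pos k, rfl⟩
    | succ n ihn =>
      rw [dd_mul x n]
      exact Subgroup.mul_mem _ ihn (hle (h1 n))

theorem PS.dd_mem (x : ℕ → Γ) (H : Subgroup Γ) (hx : ∀ n, x n ∈ H) (i n : ℕ) :
    (dd^[i] x) n ∈ H := by
  induction i generalizing n with
  | zero => exact hx n
  | succ i ih =>
    rw [Function.iterate_succ_apply']
    exact Subgroup.mul_mem _ (Subgroup.inv_mem _ (ih n)) (ih (n + 1))

theorem PS.fg {k : ℕ} {x : ℕ → Γ} (hx : PS k x) : (Subgroup.closure (Set.range x)).FG := by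
  classical
  rw [Subgroup.fg_iff]
  refine ⟨(fun i => (dd^[i] x) 0) '' {i | i < k}, ?_, (Set.finite_lt_nat k).image _⟩
  apply le_antisymm
  · rw [Subgroup.closure_le]
    rintro _ ⟨i, -, rfl⟩
    exact PS.dd_mem x (Subgroup.closure (Set.range x))
      (fun n => Subgroup.subset_closure ⟨n, rfl⟩) i 0
  · rw [Subgroup.closure_le]
    rintro _ ⟨n, rfl⟩
    exact PS.mem k x hx n

/-- polynomial sequences in finite groups are periodic -/
theorem PS.periodic [Finite Γ] (k : ℕ) : ∀ (x : ℕ → Γ), PS k x →
    ∃ T : ℕ, 0 < T ∧ ∀ n, x (n + T) = x n := by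
  induction k with
  | zero =>
    intro x hx
    refine ⟨1, one_pos, fun n => ?_⟩
    have h1 : ∀ n, x n = 1 := hx
    rw [h1, h1]
  | succ k ih =>
    intro x hx
    obtain ⟨T, hT, h1⟩ := ih (dd x) fun n => by
      have := hx n
      rwa [Function.iterate_succ_apply] at this
    -- the differences with step `m` have period `T`
    have h2 : ∀ m n, (x (n + T))⁻¹ * x (n + T + m) = (x n)⁻¹ * x (n + m) := by
      intro m n
      induction m with
      | zero => simp
      | succ m ihm =>
        rw [← add_assoc, dd_mul x (n + T + m), ← mul_assoc, ihm, ← add_assoc, dd_mul x (n + m),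
          ← mul_assoc]
        congr 1
        rw [show n + T + m = n + m + T by ring, h1]
    have h3 : ∀ j n, x (n + j * T) = x n * ((x n)⁻¹ * x (n + T)) ^ j := by
      intro j
      induction j with
      | zero => intro n; simp
      | succ j ihj =>
        intro n
        have e1 : n + (j + 1) * T = n + T + j * T := by ring
        rw [e1, ihj (n + T), h2 T n, pow_succ', ← mul_assoc, mul_inv_cancel_left]
    obtain ⟨e, he, he1⟩ : ∃ e : ℕ, 0 < e ∧ ∀ g : Γ, g ^ e = 1 :=
      ⟨Nat.card Γ, Nat.card_pos, fun g => pow_card_eq_one'⟩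
    exact ⟨e * T, Nat.mul_pos he hT, fun n => by rw [h3, he1, mul_one]⟩

end poly

end Run7.h190.G
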