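import Pool.Agent.TH261.AB.Final
import Pool.Agent.H697R3.NSPD

/-! Unitary representations: subrepresentations, spaces of null vectors, squares and products. -/

set_option autoImplicit false
set_option linter.unusedSectionVars false

open Finset Filter Topology
open scoped InnerProductSpace Matrix

namespace Run7.h190.H

open Pool.Agent.TH261.AB

section sub

variable {Γ : Type} [Group Γ] {K : Type} [NormedAddCommGroup K] [InnerProductSpace ℂ K]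

theorem rep_inv (π : Γ →* (K ≃ₗᵢ[ℂ] K)) (x : Γ) (ξ : K) : π x⁻¹ (π x ξ) = ξ := by
  rw [← mulA, ← map_mul, inv_mul_cancel, map_one]; rfl

theorem rep_inv' (π : Γ →* (K ≃ₗᵢ[ℂ] K)) (x : Γ) (ξ : K) : π x (π x⁻¹ ξ) = ξ := by
  rw [← mulA, ← map_mul, mul_inv_cancel, map_one]; rfl

theorem rep_mul (π : Γ →* (K ≃ₗᵢ[ℂ] K)) (x y : Γ) (ξ : K) : π (x * y) ξ = π x (π y ξ) := by
  rw [map_mul]; rfl

theorem rep_inner (π : Γ →* (K ≃ₗᵢ[ℂ] K)) (x : Γ) (ξ η : K) :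
    ⟪ξ, π x η⟫_ℂ = ⟪π x⁻¹ ξ, η⟫_ℂ := by
  rw [← LinearIsometryEquiv.inner_map_map (π x) (π x⁻¹ ξ) η, rep_inv']

/-- invariant subspaces -/
def Inv (π : Γ →* (K ≃ₗᵢ[ℂ] K)) (W : Submodule ℂ K) : Prop := ∀ x, ∀ w ∈ W, π x w ∈ W

/-- restriction of a representation to an invariant subspace -/
noncomputable def sub (π : Γ →* (K ≃ₗᵢ[ℂ] K)) (W : Submodule ℂ K) (hW : Inv π W) :
    Γ →* (W ≃ₗᵢ[ℂ] W) where
  toFun x :=
    { toFun := fun w => ⟨π x w, hW x w w.2⟩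
      map_add' := fun v w => Subtype.ext (by simp)
      map_smul' := fun c w => Subtype.ext (by simp)
      invFun := fun w => ⟨π x⁻¹ w, hW x⁻¹ w w.2⟩
      left_inv := fun w => Subtype.ext (rep_inv π x w)
      right_inv := fun w => Subtype.ext (rep_inv' π x w)
      norm_map' := fun w => LinearIsometryEquiv.norm_map (π x) w }
  map_one' := by
    ext w
    show π 1 (w : K) = w
    rw [map_one]; rfl
  map_mul' x y := by
    ext w
    exact rep_mul π x y w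

theorem sub_coe (π : Γ →* (K ≃ₗᵢ[ℂ] K)) (W : Submodule ℂ K) (hW : Inv π W) (x : Γ) (w : W) :
    ((sub π W hW x w : W) : K) = π x w := rfl

theorem Inv.orth {π : Γ →* (K ≃ₗᵢ[ℂ] K)} {W : Submodule ℂ K} (hW : Inv π W) : Inv π Wᗮ := by
  intro x w hw
  rw [Submodule.mem_orthogonal] at hw ⊢
  intro u hu
  rw [rep_inner]
  exact hw _ (hW _ _ hu)

theorem Inv.iSup {ι : Sort*} {π : Γ →* (K ≃ₗᵢ[ℂ] K)} {W : ι → Submodule ℂ K}
    (hW : ∀ i, Inv π (W i)) : Inv π (⨆ i, W i) := by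
  intro x
  have h : (⨆ i, W i) ≤ (⨆ i, W i).comap (π x).toLinearEquiv.toLinearMap := by
    refine iSup_le fun i w hw => ?_
    exact (le_iSup W i) (hW i x w hw)
  exact fun w hw => h hw

theorem Inv.closure {π : Γ →* (K ≃ₗᵢ[ℂ] K)} {W : Submodule ℂ K} (hW : Inv π W) :
    Inv π W.topologicalClosure := by
  intro x w hw
  have h1 : w ∈ _root_.closure (W : Set K) := hw
  have h2 := image_closure_subset_closure_image (LinearIsometryEquiv.continuous (π x))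
    ⟨w, h1, rfl⟩
  refine closure_mono ?_ h2
  rintro _ ⟨w, hw, rfl⟩
  exact hW x w hw

/-- pulling back along a homomorphism -/
theorem sub_mem_map {π : Γ →* (K ≃ₗᵢ[ℂ] K)} {W : Submodule ℂ K} (hW : Inv π W)
    {V : Submodule ℂ W} (hV : Inv (sub π W hW) V) : Inv π (V.map W.subtype) := by
  rintro x _ ⟨v, hv, rfl⟩
  exact ⟨sub π W hW x v, hV x v hv, rfl⟩

end sub

section null

variable {K : Type} [NormedAddCommGroup K] [InnerProductSpace ℂ K]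

/-- the vectors with null averages -/
noncomputable def Z (w : ℕ → ℂ) (u : ℕ → (K ≃ₗᵢ[ℂ] K)) : Submodule ℂ K where
  carrier := {ξ | Tendsto (vav fun n => w n • u n ξ) atTop (𝓝 0)}
  add_mem' := by
    intro ξ η hξ hη
    have h := Tendsto.add hξ hη
    rw [add_zero] at h
    refine h.congr fun N => ?_
    simp only [vav, map_add, smul_add, Finset.sum_add_distrib]
  zero_mem' := by
    have : (vav fun n => w n • u n (0 : K)) = fun _ => 0 := by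
      funext N; simp [vav]
    show Tendsto _ _ _
    rw [this]
    exact tendsto_const_nhds
  smul_mem' := by
    intro c ξ hξ
    have h := Tendsto.const_smul hξ c
    rw [smul_zero] at h
    refine h.congr fun N => ?_
    simp only [vav, LinearIsometryEquiv.map_smul, Finset.smul_sum]
    refine Finset.sum_congr rfl fun n _ => ?_
    simp only [smul_smul]
    congr 1
    ring

theorem mem_Z {w : ℕ → ℂ} {u : ℕ → (K ≃ₗᵢ[ℂ] K)} {ξ : K} :
    ξ ∈ Z w u ↔ Tendsto (vav fun n => w n • u n ξ) atTop (𝓝 0) := Iff.rfl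

theorem vav_sub_le {w : ℕ → ℂ} (hw : ∀ n, ‖w n‖ ≤ 1) (u : ℕ → (K ≃ₗᵢ[ℂ] K)) (ξ η : K) (N : ℕ) :
    ‖vav (fun n => w n • u n ξ) N‖ ≤ ‖ξ - η‖ + ‖vav (fun n => w n • u n η) N‖ := by
  have e : vav (fun n => w n • u n ξ) N = vav (fun n => w n • u n (ξ - η)) N +
      vav (fun n => w n • u n η) N := by
    simp only [vav, map_sub, smul_sub, Finset.sum_sub_distrib]
    abel
  rw [e]
  refine (norm_add_le _ _).trans ?_
  gcongr
  refine vav_le (norm_nonneg _) (fun n => ?_) N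
  rw [norm_smul, LinearIsometryEquiv.norm_map]
  exact mul_le_of_le_one_left (norm_nonneg _) (hw n)

theorem Z_closed {w : ℕ → ℂ} (hw : ∀ n, ‖w n‖ ≤ 1) (u : ℕ → (K ≃ₗᵢ[ℂ] K)) :
    IsClosed (Z w u : Set K) := by
  refine isClosed_of_closure_subset fun ξ hξ => ?_
  show Tendsto _ _ _
  rw [Metric.tendsto_atTop]
  intro ε hε
  obtain ⟨η, hη, hd⟩ := Metric.mem_closure_iff.1 hξ (ε / 2) (by positivity)
  obtain ⟨N0, hN0⟩ := Metric.tendsto_atTop.1 (mem_Z.1 hη) (ε / 2) (by positivity)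
  refine ⟨N0, fun N hN => ?_⟩
  have h1 := hN0 N hN
  have h2 := vav_sub_le hw u ξ η N
  rw [dist_zero_right] at h1 ⊢
  rw [dist_eq_norm] at hd
  linarith

theorem Z_top [CompleteSpace K] {w : ℕ → ℂ} (hw : ∀ n, ‖w n‖ ≤ 1) (u : ℕ → (K ≃ₗᵢ[ℂ] K))
    (W : Submodule ℂ K) (h1 : W ≤ Z w u) (h2 : Wᗮ ≤ Z w u) : Z w u = ⊤ := by
  have hc : CompleteSpace (Z w u) := (Z_closed hw u).completeSpace_coe
  have h3 : (Z w u)ᗮ = ⊥ := by
    rw [Submodule.eq_bot_iff]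
    intro v hv
    have h4 : v ∈ Z w u := h2 (Submodule.orthogonal_le h1 hv)
    have := (Submodule.mem_orthogonal _ _).1 hv v h4
    exact inner_self_eq_zero.1 this
  exact (Submodule.orthogonal_eq_bot_iff).1 h3

theorem Z_of_sub {Γ : Type} [Group Γ] {π : Γ →* (K ≃ₗᵢ[ℂ] K)} {w : ℕ → ℂ} {x : ℕ → Γ}
    {W : Submodule ℂ K} (hW : Inv π W)
    (h : Z w (fun n => sub π W hW (x n)) = ⊤) : W ≤ Z w (fun n => π (x n)) := by
  intro ξ hξ
  have h1 : (⟨ξ, hξ⟩ : W) ∈ Z w (fun n => sub π W hW (x n)) := by rw [h]; trivial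
  have h2 := (W.subtypeL.continuous.tendsto 0).comp (mem_Z.1 h1)
  rw [map_zero] at h2
  refine h2.congr fun N => ?_
  rw [Function.comp_apply, vav, vav, map_smul, map_sum]
  rfl

end null

section kernel

open scoped ComplexOrder

variable {Γ : Type} [Group Γ]

/-- the representation of a kernel -/
theorem exists_kernel {X : Type} (A : Matrix X X ℂ) (hA : A.PosSemidef) (act : Γ → X → X)
    (h1 : ∀ x, act 1 x = x) (h2 : ∀ g h x, act (g * h) x = act g (act h x))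
    (hinv : ∀ g x y, A (act g x) (act g y) = A x y) :
    ∃ (L : Type) (_ : NormedAddCommGroup L) (_ : InnerProductSpace ℂ L) (_ : CompleteSpace L)
      (π : Γ →* (L ≃ₗᵢ[ℂ] L)) (v : X → L), (∀ x y, ⟪v x, v y⟫_ℂ = A x y) ∧
      (∀ g x, π g (v x) = v (act g x)) ∧ ∀ ζ : L, (∀ x, ⟪v x, ζ⟫_ℂ = 0) → ζ = 0 := by
  let _ : MulAction Γ X := { smul := act, one_smul := h1, mul_smul := h2 }
  obtain ⟨H, _, _, _, π0, v, hv, hπ⟩ := H697R3.NS.gns_kernel (G := Γ) A hA hinv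
  let π : Γ →* (H ≃ₗᵢ[ℂ] H) := (Unitary.linearIsometryEquiv (𝕜 := ℂ) (H := H)).toMonoidHom.comp π0
  have hπ' : ∀ g x, π g (v x) = v (act g x) := hπ
  set W0 : Submodule ℂ H := Submodule.span ℂ (Set.range v) with hW0
  have hI0 : Inv π W0 := by
    intro g w hw
    have h3 : W0 ≤ W0.comap (π g).toLinearEquiv.toLinearMap := by
      rw [hW0, Submodule.span_le]
      rintro _ ⟨x, rfl⟩
      show π g (v x) ∈ Submodule.span ℂ (Set.range v)
      rw [hπ']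
      exact Submodule.subset_span ⟨_, rfl⟩
    exact h3 hw
  have hI := hI0.closure
  set W := W0.topologicalClosure with hW
  have hc : CompleteSpace W := W0.isClosed_topologicalClosure.completeSpace_coe
  have hvW : ∀ x, v x ∈ W := fun x => W0.le_topologicalClosure (Submodule.subset_span ⟨x, rfl⟩)
  refine ⟨W, inferInstance, inferInstance, hc, sub π W hI, fun x => ⟨v x, hvW x⟩,
    fun x y => hv x y, fun g x => Subtype.ext (hπ' g x), fun ζ hζ => ?_⟩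
  have h3 : (ζ : H) ∈ W0ᗮ := by
    rw [hW0, Submodule.mem_orthogonal]
    intro u hu
    induction hu using Submodule.span_induction with
    | mem x hx =>
      obtain ⟨x, rfl⟩ := hx
      exact hζ x
    | zero => exact inner_zero_left _
    | add x y _ _ hx hy => rw [inner_add_left, hx, hy, add_zero]
    | smul c x _ hx => rw [inner_smul_left, hx, mul_zero]
  have h4 : (ζ : H) ∈ Wᗮ := by
    have h5 : Wᗮ = W0ᗮ := W0.orthogonal_closure
    rw [h5]; exact h3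
  have := (Submodule.mem_orthogonal _ _).1 h4 ζ ζ.2
  exact Subtype.ext (inner_self_eq_zero.1 this)

variable {K : Type} [NormedAddCommGroup K] [InnerProductSpace ℂ K]

theorem gram_psd {X : Type} (f : X → K) : (Matrix.gram ℂ f).PosSemidef := by
  refine ⟨Matrix.isHermitian_gram _ _, fun x => ?_⟩
  have h : (x.sum fun i a => x.sum fun j b => star a * Matrix.gram ℂ f i j * b) =
      ⟪x.sum fun i a => a • f i, x.sum fun i a => a • f i⟫_ℂ := by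
    rw [Finsupp.sum, Finsupp.sum, sum_inner]
    refine Finset.sum_congr rfl fun i _ => ?_
    rw [Finsupp.sum, inner_sum]
    refine Finset.sum_congr rfl fun j _ => ?_
    rw [inner_smul_left, inner_smul_right, Matrix.gram_apply]
    simp only [RCLike.star_def]
    ring
  rw [h, inner_self_eq_norm_sq_to_K]
  have h2 : (0 : ℝ) ≤ ‖x.sum fun i a => a • f i‖ ^ 2 := by positivity
  have h3 : (0 : ℂ) ≤ ((‖x.sum fun i a => a • f i‖ ^ 2 : ℝ) : ℂ) := Complex.zero_le_real.2 h2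
  rw [Complex.ofReal_pow] at h3
  exact h3

/-- the square of a representation, `π ⊗ π̄` -/
theorem exists_sq (π : Γ →* (K ≃ₗᵢ[ℂ] K)) :
    ∃ (L : Type) (_ : NormedAddCommGroup L) (_ : InnerProductSpace ℂ L) (_ : CompleteSpace L)
      (ρ : Γ →* (L ≃ₗᵢ[ℂ] L)) (v : K → L), (∀ ξ η, ⟪v ξ, v η⟫_ℂ = ⟪ξ, η⟫_ℂ * ⟪η, ξ⟫_ℂ) ∧
      (∀ g ξ, ρ g (v ξ) = v (π g ξ)) ∧ ∀ ζ : L, (∀ ξ, ⟪v ξ, ζ⟫_ℂ = 0) → ζ = 0 := by
  have h1 : (Matrix.gram ℂ (fun ξ : K => ξ)).PosSemidef := gram_psd _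
  exact exists_kernel ((Matrix.gram ℂ (fun ξ : K => ξ)) ⊙ (Matrix.gram ℂ (fun ξ : K => ξ))ᵀ)
    (h1.hadamard h1.transpose) (fun g ξ => π g ξ) (fun ξ => by rw [map_one]; rfl)
    (fun g h ξ => rep_mul π g h ξ) (fun g x y => by
      simp [Matrix.hadamard, Matrix.gram])

/-- the tensor product of two representations -/
theorem exists_tens {K' : Type} [NormedAddCommGroup K'] [InnerProductSpace ℂ K']
    (π : Γ →* (K ≃ₗᵢ[ℂ] K)) (π' : Γ →* (K' ≃ₗᵢ[ℂ] K')) :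
    ∃ (L : Type) (_ : NormedAddCommGroup L) (_ : InnerProductSpace ℂ L) (_ : CompleteSpace L)
      (ρ : Γ →* (L ≃ₗᵢ[ℂ] L)) (v : K × K' → L),
      (∀ p q, ⟪v p, v q⟫_ℂ = ⟪p.1, q.1⟫_ℂ * ⟪p.2, q.2⟫_ℂ) ∧
      (∀ g p, ρ g (v p) = v (π g p.1, π' g p.2)) := by
  have h1 : (Matrix.gram ℂ (fun p : K × K' => p.1)).PosSemidef := gram_psd _
  have h2 : (Matrix.gram ℂ (fun p : K × K' => p.2)).PosSemidef := gram_psd _
  obtain ⟨L, i1, i2, i3, ρ, v, h3, h4, -⟩ := exists_kernel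
    ((Matrix.gram ℂ (fun p : K × K' => p.1)) ⊙ (Matrix.gram ℂ (fun p : K × K' => p.2)))
    (h1.hadamard h2) (fun g p => (π g p.1, π' g p.2)) (fun p => by
      rw [map_one, map_one]; rfl)
    (fun g h p => by rw [rep_mul, rep_mul]) (fun g x y => by
      simp [Matrix.hadamard, Matrix.gram])
  exact ⟨L, i1, i2, i3, ρ, v, h3, h4⟩

end kernel

/-- averages with weights are bounded by the averages in the square -/
theorem sq_ineq {K L : Type} [NormedAddCommGroup K] [InnerProductSpace ℂ K]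
    [NormedAddCommGroup L] [InnerProductSpace ℂ L] {v : K → L}
    (hv : ∀ ξ η, ⟪v ξ, v η⟫_ℂ = ⟪ξ, η⟫_ℂ * ⟪η, ξ⟫_ℂ) {w : ℕ → ℂ} (hw : ∀ n, ‖w n‖ ≤ 1)
    (ζ : ℕ → K) (N : ℕ) :
    ‖vav (fun n => w n • ζ n) N‖ ^ 2 ≤ ‖vav (fun n => v (ζ n)) N‖ := by
  set S : K := ∑ n ∈ range N, w n • ζ n with hS
  set R : L := ∑ n ∈ range N, v (ζ n) with hR
  have hvn : ‖v S‖ = ‖S‖ ^ 2 := by
    have h1 := hv S S
    rw [inner_self_eq_norm_sq_to_K, inner_self_eq_norm_sq_to_K] at h1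
    have h2 : ‖v S‖ ^ 2 = ‖S‖ ^ 2 * ‖S‖ ^ 2 := by exact_mod_cast h1
    have h3 : ‖v S‖ ^ 2 = (‖S‖ ^ 2) ^ 2 := by rw [h2]; ring
    exact (sq_eq_sq₀ (norm_nonneg _) (by positivity)).1 h3
  have h1 : ‖S‖ ^ 2 ≤ ∑ n ∈ range N, ‖⟪S, ζ n⟫_ℂ‖ := by
    have h2 : ((‖S‖ ^ 2 : ℝ) : ℂ) = ∑ n ∈ range N, w n * ⟪S, ζ n⟫_ℂ := by
      have h3 : ⟪S, S⟫_ℂ = ∑ n ∈ range N, w n * ⟪S, ζ n⟫_ℂ := by
        conv_lhs => rw [hS, inner_sum]
        refine Finset.sum_congr rfl fun n _ => ?_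
        rw [inner_smul_right]
      rw [← h3, inner_self_eq_norm_sq_to_K]
      push_cast; rfl
    calc ‖S‖ ^ 2 = ‖((‖S‖ ^ 2 : ℝ) : ℂ)‖ := by
          rw [Complex.norm_real, Real.norm_of_nonneg (by positivity)]
      _ = ‖∑ n ∈ range N, w n * ⟪S, ζ n⟫_ℂ‖ := by rw [h2]
      _ ≤ ∑ n ∈ range N, ‖w n * ⟪S, ζ n⟫_ℂ‖ := norm_sum_le _ _
      _ ≤ _ := Finset.sum_le_sum fun n _ => by
          rw [norm_mul]
          exact mul_le_of_le_one_left (norm_nonneg _) (hw n)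
  have h2 : (∑ n ∈ range N, ‖⟪S, ζ n⟫_ℂ‖) ^ 2 ≤ N * ∑ n ∈ range N, ‖⟪S, ζ n⟫_ℂ‖ ^ 2 := by
    have := sq_sum_le_card_mul_sum_sq (s := range N) (f := fun n => ‖⟪S, ζ n⟫_ℂ‖)
    rwa [card_range] at this
  have h3 : ∑ n ∈ range N, ‖⟪S, ζ n⟫_ℂ‖ ^ 2 ≤ ‖S‖ ^ 2 * ‖R‖ := by
    have h4 : ((∑ n ∈ range N, ‖⟪S, ζ n⟫_ℂ‖ ^ 2 : ℝ) : ℂ) = ⟪v S, R⟫_ℂ := by
      rw [hR, inner_sum]
      push_cast
      refine Finset.sum_congr rfl fun n _ => ?_
      rw [hv, ← inner_conj_symm (ζ n) S, Complex.mul_conj, Complex.normSq_eq_norm_sq]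
      push_cast; rfl
    calc ∑ n ∈ range N, ‖⟪S, ζ n⟫_ℂ‖ ^ 2 = ‖((∑ n ∈ range N, ‖⟪S, ζ n⟫_ℂ‖ ^ 2 : ℝ) : ℂ)‖ := by
          rw [Complex.norm_real, Real.norm_of_nonneg (Finset.sum_nonneg fun n _ => by positivity)]
      _ = ‖⟪v S, R⟫_ℂ‖ := by rw [h4]
      _ ≤ ‖v S‖ * ‖R‖ := norm_inner_le_norm _ _
      _ = _ := by rw [hvn]
  have h5 : ‖S‖ ^ 2 ≤ N * ‖R‖ := by
    by_cases h0 : ‖S‖ = 0
    · rw [h0, zero_pow two_ne_zero]; positivity
    have h6 : 0 < ‖S‖ ^ 2 := by positivity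
    have h7 : (‖S‖ ^ 2) * (‖S‖ ^ 2) ≤ (‖S‖ ^ 2) * (N * ‖R‖) := by
      calc (‖S‖ ^ 2) * (‖S‖ ^ 2) = (‖S‖ ^ 2) ^ 2 := by ring
        _ ≤ (∑ n ∈ range N, ‖⟪S, ζ n⟫_ℂ‖) ^ 2 := by gcongr
        _ ≤ N * ∑ n ∈ range N, ‖⟪S, ζ n⟫_ℂ‖ ^ 2 := h2
        _ ≤ N * (‖S‖ ^ 2 * ‖R‖) := by gcongr
        _ = _ := by ring
    exact le_of_mul_le_mul_left h7 h6
  rw [vav_norm, vav_norm, ← hS, ← hR]
  rcases Nat.eq_zero_or_pos N with h0 | h0
  · subst h0; simp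
  have hN : (0 : ℝ) < N := by exact_mod_cast h0
  rw [div_pow, div_le_div_iff₀ (by positivity) hN]
  nlinarith

end Run7.h190.H
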