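import Pool.Agent.H648R4.PolyB
import Pool.Agent.H648R4.Fit
import Pool.Agent.H53R2.FinNil

/-! Locally virtually nilpotent groups (after Hirsch, Plotkin and Gruenberg). -/

set_option autoImplicit false
set_option linter.unusedSectionVars false

open Subgroup
open scoped commutatorElement

namespace Run7.h190.V

open Pool.Agent.H648R4

variable {G : Type} [Group G]

/-- finitely generated subgroups of nilpotent groups, as subgroups of a fixed group -/
theorem nil_noeth {K H : Subgroup G} (hfg : K.FG) (hK : Group.IsNilpotent K) (hH : H ≤ K) :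
    H.FG := by
  have h1 : Group.FG K := (Group.fg_iff_subgroup_fg K).2 hfg
  have h2 := Pool.Agent.H53R2.nil_maxC K (H.subgroupOf K)
  obtain ⟨S, hS, hSf⟩ := (Subgroup.fg_iff _).1 h2
  refine (Subgroup.fg_iff _).2 ⟨K.subtype '' S, ?_, hSf.image _⟩
  rw [← MonoidHom.map_closure, hS, subgroupOf_map_subtype, inf_eq_left.2 hH]

theorem fg_of_fin {A B : Subgroup G} (hAB : A ≤ B) (h : A.relIndex B ≠ 0) (hA : A.FG) :
    B.FG := by
  obtain ⟨F, hF, hFB, hFr⟩ := exists_reps h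
  obtain ⟨S, hS, hSf⟩ := (Subgroup.fg_iff _).1 hA
  refine (Subgroup.fg_iff _).2 ⟨F ∪ S, ?_, hF.union hSf⟩
  apply le_antisymm
  · rw [closure_le]
    refine Set.union_subset hFB (fun x hx => hAB ?_)
    rw [← hS]; exact subset_closure hx
  · intro y hy
    obtain ⟨r, hr, hry⟩ := hFr y hy
    have h1 : r⁻¹ * y ∈ closure (F ∪ S) := by
      rw [← hS] at hry
      exact closure_mono Set.subset_union_right hry
    have h2 : r ∈ closure (F ∪ S) := subset_closure (Or.inl hr)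
    have := mul_mem h2 h1
    rwa [mul_inv_cancel_left] at this

theorem vnil_noeth {S : Subgroup G} (hfg : S.FG) (hv : VNil S) {H : Subgroup G} (hH : H ≤ S) :
    H.FG ∧ VNil H := by
  obtain ⟨K, hKS, hKi, hKn⟩ := hv
  have hKfg : K.FG := fg_of_relIndex hKS hKi hfg
  have h1 : (H ⊓ K).FG := nil_noeth hKfg hKn inf_le_right
  have h2 : (H ⊓ K).relIndex H ≠ 0 := by
    rw [inf_relIndex_left]
    exact fun h => hKi (relIndex_eq_zero_of_le_right hH h)
  exact ⟨fg_of_fin inf_le_left h2 h1, ⟨H ⊓ K, inf_le_left, h2, nilp_mono inf_le_right hKn⟩⟩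

theorem nz_sup2 {P A B : Subgroup G} (hA : ∀ a ∈ A, Nz P a) (hB : ∀ b ∈ B, Nz P b) :
    ∀ t ∈ A ⊔ B, Nz P t := by
  intro t ht
  rw [Subgroup.sup_eq_closure] at ht
  induction ht using closure_induction with
  | mem x hx =>
    rcases hx with hx | hx
    · exact hA x hx
    · exact hB x hx
  | one => exact Nz.one P
  | mul a b _ _ ha hb => exact ha.mul hb
  | inv a _ ha => exact ha.inv

/-- the elements of a product of two subgroups, one normalised by the other -/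
theorem mem_sup_mul {A B : Subgroup G} (hA : ∀ a ∈ A, Nz B a) {y : G} (hy : y ∈ A ⊔ B) :
    ∃ a ∈ A, ∃ b ∈ B, y = a * b := by
  rw [Subgroup.sup_eq_closure] at hy
  induction hy using closure_induction with
  | mem x hx =>
    rcases hx with hx | hx
    · exact ⟨x, hx, 1, B.one_mem, by simp⟩
    · exact ⟨1, A.one_mem, x, hx, by simp⟩
  | one => exact ⟨1, A.one_mem, 1, B.one_mem, by simp⟩
  | mul u v _ _ hu hv =>
    obtain ⟨a, ha, b, hb, rfl⟩ := hu
    obtain ⟨a', ha', b', hb', rfl⟩ := hv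
    refine ⟨a * a', A.mul_mem ha ha', a'⁻¹ * b * a' * b', B.mul_mem ((hA a' ha' b hb).2) hb', ?_⟩
    group
  | inv u _ hu =>
    obtain ⟨a, ha, b, hb, rfl⟩ := hu
    refine ⟨a⁻¹, A.inv_mem ha, a * b⁻¹ * a⁻¹, (hA a ha _ (B.inv_mem hb)).1, ?_⟩
    group

theorem normal_subgroupOf {K S : Subgroup G} (h : ∀ t ∈ S, Nz K t) : (K.subgroupOf S).Normal := by
  refine ⟨fun n hn g => ?_⟩
  rw [mem_subgroupOf] at hn ⊢
  exact (h g g.2 _ hn).1

theorem vnil_sup {A B : Subgroup G} (hA : A.FG) (hB : B.FG) (vA : VNil A) (vB : VNil B)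
    (hAB : ∀ a ∈ A, Nz B a) (hBA : ∀ b ∈ B, Nz A b) : VNil (A ⊔ B) := by
  obtain ⟨K, hKA, hKi, hKn, hKc⟩ := exists_char_sub hA vA
  obtain ⟨L, hLB, hLi, hLn, hLc⟩ := exists_char_sub hB vB
  have nA : ∀ t ∈ A ⊔ B, Nz K t := fun t ht =>
    hKc t (nz_sup2 (P := A) (fun a ha => Nz.of_mem ha) hBA t ht)
  have nB : ∀ t ∈ A ⊔ B, Nz L t := fun t ht =>
    hLc t (nz_sup2 (P := B) hAB (fun b hb => Nz.of_mem hb) t ht)
  have i1 := normal_subgroupOf nA
  have i2 := normal_subgroupOf nB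
  have h1 : Group.IsNilpotent (K.subgroupOf (A ⊔ B)) := nilp_subgroupOf hKn
  have h2 : Group.IsNilpotent (L.subgroupOf (A ⊔ B)) := nilp_subgroupOf hLn
  have h3 := fitting_thm h1 h2
  have h4 := nilp_map (A ⊔ B).subtype h3
  have hK' : K ≤ A ⊔ B := hKA.trans le_sup_left
  have hL' : L ≤ A ⊔ B := hLB.trans le_sup_right
  have h5 : (K.subgroupOf (A ⊔ B) ⊔ L.subgroupOf (A ⊔ B)).map (A ⊔ B).subtype = K ⊔ L := by
    rw [Subgroup.map_sup, subgroupOf_map_subtype, subgroupOf_map_subtype, inf_eq_left.2 hK',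
      inf_eq_left.2 hL']
  rw [h5] at h4
  refine ⟨K ⊔ L, sup_le hK' hL', ?_, h4⟩
  obtain ⟨F, hF, hFA, hFr⟩ := exists_reps hKi
  obtain ⟨F', hF', hFB, hFr'⟩ := exists_reps hLi
  refine relIndex_of_cover (F := Set.image2 (· * ·) F F') (hF.image2 _ hF') ?_ fun y hy => ?_
  · rintro _ ⟨a, ha, b, hb, rfl⟩
    exact mul_mem (mem_sup_left (hFA ha)) (mem_sup_right (hFB hb))
  · obtain ⟨a, ha, b, hb, rfl⟩ := mem_sup_mul hAB hy
    obtain ⟨r, hr, hra⟩ := hFr a ha
    obtain ⟨r', hr', hrb⟩ := hFr' b hb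
    refine ⟨r * r', ⟨r, hr, r', hr', rfl⟩, ?_⟩
    have e : (r * r')⁻¹ * (a * b) = (r'⁻¹ * (r⁻¹ * a) * r') * (r'⁻¹ * b) := by group
    rw [e]
    exact mul_mem (mem_sup_left (nA r' (mem_sup_right (hFB hr')) _ hra).2) (mem_sup_right hrb)

/-- locally virtually nilpotent -/
def LV (S : Subgroup G) : Prop := ∀ H ≤ S, H.FG → VNil H

theorem LV.mono {S T : Subgroup G} (h : LV S) (hT : T ≤ S) : LV T := fun H hH hfg =>
  h H (hH.trans hT) hfg

theorem nz_closure_of {s : Set G} {Q : Subgroup G} (h : ∀ x ∈ s, Nz Q x) :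
    ∀ x ∈ closure s, Nz Q x := by
  intro x hx
  induction hx using closure_induction with
  | mem x hx => exact h x hx
  | one => exact Nz.one Q
  | mul a b _ _ ha hb => exact ha.mul hb
  | inv a _ ha => exact ha.inv

/-- the analogue of the theorem of Hirsch and Plotkin -/
theorem LV.sup {N M : Subgroup G} (hN : LV N) (hM : LV M) (hNM : ∀ a ∈ N, Nz M a)
    (hMN : ∀ b ∈ M, Nz N b) : LV (N ⊔ M) := by
  intro H hH hfg
  obtain ⟨F, hF, hFf⟩ := (Subgroup.fg_iff _).1 hfg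
  have h0 : ∀ y : G, ∃ a b : G, y ∈ F → a ∈ N ∧ b ∈ M ∧ y = a * b := by
    intro y
    by_cases hy : y ∈ F
    · have : y ∈ N ⊔ M := hH (by rw [← hF]; exact subset_closure hy)
      obtain ⟨a, ha, b, hb, e⟩ := mem_sup_mul hNM this
      exact ⟨a, b, fun _ => ⟨ha, hb, e⟩⟩
    · exact ⟨1, 1, fun h => absurd h hy⟩
  choose fa fb hab using h0
  -- the generating sets, closed under inverses
  set X₀ : Set G := fa '' F ∪ (fun y => (fa y)⁻¹) '' F with hX₀
  set Y₀ : Set G := fb '' F ∪ (fun y => (fb y)⁻¹) '' F with hY₀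
  have hX₀f : X₀.Finite := (hFf.image _).union (hFf.image _)
  have hY₀f : Y₀.Finite := (hFf.image _).union (hFf.image _)
  have hX₀N : ∀ x ∈ X₀, x ∈ N := by
    rintro x (⟨y, hy, rfl⟩ | ⟨y, hy, rfl⟩)
    · exact (hab y hy).1
    · exact N.inv_mem (hab y hy).1
  have hY₀M : ∀ x ∈ Y₀, x ∈ M := by
    rintro x (⟨y, hy, rfl⟩ | ⟨y, hy, rfl⟩)
    · exact (hab y hy).2.1
    · exact M.inv_mem (hab y hy).2.1
  have hX₀i : ∀ x ∈ X₀, x⁻¹ ∈ X₀ := by
    rintro x (⟨y, hy, rfl⟩ | ⟨y, hy, rfl⟩)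
    · exact Or.inr ⟨y, hy, rfl⟩
    · exact Or.inl ⟨y, hy, by simp⟩
  have hY₀i : ∀ x ∈ Y₀, x⁻¹ ∈ Y₀ := by
    rintro x (⟨y, hy, rfl⟩ | ⟨y, hy, rfl⟩)
    · exact Or.inr ⟨y, hy, rfl⟩
    · exact Or.inl ⟨y, hy, by simp⟩
  set X := closure X₀ with hX
  set Y := closure Y₀ with hY
  have hXN : X ≤ N := (closure_le N).2 hX₀N
  have hYM : Y ≤ M := (closure_le M).2 hY₀M
  set C : Set G := Set.image2 (fun x y => ⁅x, y⁆) X₀ Y₀ with hC
  have hCf : C.Finite := hX₀f.image2 _ hY₀f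
  have hcomm : ∀ x ∈ N, ∀ y ∈ M, ⁅x, y⁆ ∈ N ⊓ M := by
    intro x hx y hy
    refine ⟨?_, ?_⟩
    · have e : ⁅x, y⁆ = x * (y * x⁻¹ * y⁻¹) := by rw [commutatorElement_def]; group
      rw [e]
      exact N.mul_mem hx (hMN y hy _ (N.inv_mem hx)).1
    · have e : ⁅x, y⁆ = (x * y * x⁻¹) * y⁻¹ := by rw [commutatorElement_def]
      rw [e]
      exact M.mul_mem (hNM x hx y hy).1 (M.inv_mem hy)
  have hCNM : ∀ c ∈ C, c ∈ N ⊓ M := by
    rintro _ ⟨x, hx, y, hy, rfl⟩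
    exact hcomm x (hX₀N x hx) y (hY₀M y hy)
  -- the first closure
  set P := closure {z | ∃ x ∈ X, ∃ c ∈ C, z = x * c * x⁻¹} with hP
  have hCP : ∀ c ∈ C, c ∈ P := fun c hc => subset_closure ⟨1, X.one_mem, c, hc, by simp⟩
  have hPle : P ≤ closure (X₀ ∪ C) := by
    rw [hP, closure_le]
    rintro _ ⟨x, hx, c, hc, rfl⟩
    have h1 : x ∈ closure (X₀ ∪ C) := closure_mono Set.subset_union_left hx
    have h2 : c ∈ closure (X₀ ∪ C) := subset_closure (Or.inr hc)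
    exact mul_mem (mul_mem h1 h2) (inv_mem h1)
  have hXCN : closure (X₀ ∪ C) ≤ N := by
    rw [closure_le]
    exact Set.union_subset hX₀N (fun c hc => (hCNM c hc).1)
  have hXCfg : (closure (X₀ ∪ C)).FG := (Subgroup.fg_iff _).2 ⟨_, rfl, hX₀f.union hCf⟩
  have hPfg : P.FG := (vnil_noeth hXCfg (hN _ hXCN hXCfg) hPle).1
  have hPM : P ≤ M := by
    rw [hP, closure_le]
    rintro _ ⟨x, hx, c, hc, rfl⟩
    exact (hNM x (hXN hx) c (hCNM c hc).2).1
  have hPN : P ≤ N := hPle.trans hXCN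
  have hXP : ∀ x ∈ X, Nz P x := by
    intro x hx
    refine Nz.closure ?_
    rintro _ ⟨x', hx', c, hc, rfl⟩
    refine ⟨subset_closure ⟨x * x', X.mul_mem hx hx', c, hc, by group⟩,
      subset_closure ⟨x⁻¹ * x', X.mul_mem (X.inv_mem hx) hx', c, hc, by group⟩⟩
  -- the second closure
  set Q := closure {z | ∃ y ∈ Y, ∃ p ∈ P, z = y * p * y⁻¹} with hQ
  have hPQ : P ≤ Q := fun p hp => subset_closure ⟨1, Y.one_mem, p, hp, by simp⟩
  have hYfg : Y.FG := (Subgroup.fg_iff _).2 ⟨_, rfl, hY₀f⟩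
  have hXfg : X.FG := (Subgroup.fg_iff _).2 ⟨_, rfl, hX₀f⟩
  have hQle : Q ≤ Y ⊔ P := by
    rw [hQ, closure_le]
    rintro _ ⟨y, hy, p, hp, rfl⟩
    exact mul_mem (mul_mem (mem_sup_left hy) (mem_sup_right hp)) (inv_mem (mem_sup_left hy))
  have hYPfg : (Y ⊔ P).FG := hYfg.sup hPfg
  have hQfg : Q.FG := (vnil_noeth hYPfg (hM _ (sup_le hYM hPM) hYPfg) hQle).1
  have hQM : Q ≤ M := hQle.trans (sup_le hYM hPM)
  have hQN : Q ≤ N := by
    rw [hQ, closure_le]
    rintro _ ⟨y, hy, p, hp, rfl⟩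
    exact (hMN y (hYM hy) p (hPN hp)).1
  have hYQ : ∀ y ∈ Y, Nz Q y := by
    intro y hy
    refine Nz.closure ?_
    rintro _ ⟨y', hy', p, hp, rfl⟩
    refine ⟨subset_closure ⟨y * y', Y.mul_mem hy hy', p, hp, by group⟩,
      subset_closure ⟨y⁻¹ * y', Y.mul_mem (Y.inv_mem hy) hy', p, hp, by group⟩⟩
  have hXY : ∀ x ∈ X₀, ∀ y ∈ Y, ⁅x, y⁆ ∈ Q := by
    intro x hx y hy
    have h1 : ∀ y ∈ Y, y ∈ Y ∧ ⁅x, y⁆ ∈ Q := by
      intro y hy
      rw [hY] at hy
      induction hy using closure_induction with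
      | mem y hy => exact ⟨subset_closure hy, hPQ (hCP _ ⟨x, hx, y, hy, rfl⟩)⟩
      | one => exact ⟨Y.one_mem, by simp⟩
      | mul a b _ _ ha hb =>
        refine ⟨Y.mul_mem ha.1 hb.1, ?_⟩
        have e : ⁅x, a * b⁆ = ⁅x, a⁆ * (a * ⁅x, b⁆ * a⁻¹) := by
          simp only [commutatorElement_def]; group
        rw [e]
        exact Q.mul_mem ha.2 (hYQ a ha.1 _ hb.2).1
      | inv a _ ha =>
        refine ⟨Y.inv_mem ha.1, ?_⟩
        have e : ⁅x, a⁻¹⁆ = a⁻¹ * ⁅x, a⁆⁻¹ * a := by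
          simp only [commutatorElement_def]; group
        rw [e]
        exact (hYQ a ha.1 _ (Q.inv_mem ha.2)).2
    exact (h1 y hy).2
  have hXQ0 : ∀ x ∈ X₀, ∀ q ∈ Q, x * q * x⁻¹ ∈ Q := by
    intro x hx q hq
    rw [hQ] at hq
    induction hq using closure_induction with
    | mem z hz =>
      obtain ⟨y, hy, p, hp, rfl⟩ := hz
      have e : x * (y * p * y⁻¹) * x⁻¹ = ⁅x, y⁆ * (y * (x * p * x⁻¹) * y⁻¹) * ⁅x, y⁆⁻¹ := by
        simp only [commutatorElement_def]; group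
      rw [e]
      have h1 := hXY x hx y hy
      exact Q.mul_mem (Q.mul_mem h1 (subset_closure ⟨y, hy, _, (hXP x (subset_closure hx) p hp).1,
        rfl⟩)) (Q.inv_mem h1)
    | one => simp
    | mul a b _ _ ha hb =>
      rw [show x * (a * b) * x⁻¹ = (x * a * x⁻¹) * (x * b * x⁻¹) by group]
      exact Q.mul_mem ha hb
    | inv a _ ha =>
      rw [show x * a⁻¹ * x⁻¹ = (x * a * x⁻¹)⁻¹ by group]
      exact Q.inv_mem ha
  have hXQ : ∀ x ∈ X, Nz Q x := by
    refine nz_closure_of fun x hx q hq => ⟨hXQ0 x hx q hq, ?_⟩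
    have := hXQ0 x⁻¹ (hX₀i x hx) q hq
    rwa [inv_inv] at this
  -- the two factors
  have hA : ∀ b ∈ Y ⊔ Q, Nz (X ⊔ Q) b := by
    have h1 : ∀ y ∈ Y₀, ∀ z ∈ X ⊔ Q, y * z * y⁻¹ ∈ X ⊔ Q := by
      intro y hy z hz
      have hyY : y ∈ Y := subset_closure hy
      rw [Subgroup.sup_eq_closure] at hz
      induction hz using closure_induction with
      | mem z hz =>
        rcases hz with hz | hz
        · have hz' : z ∈ X := hz
          rw [hX] at hz'
          induction hz' using closure_induction with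
          | mem x hx =>
            have e : y * x * y⁻¹ = ⁅x, y⁆⁻¹ * x := by simp only [commutatorElement_def]; group
            rw [e]
            exact mul_mem (mem_sup_right (Q.inv_mem (hXY x hx y hyY)))
              (mem_sup_left (subset_closure hx))
          | one => simp
          | mul a b ha' hb' ha hb =>
            rw [show y * (a * b) * y⁻¹ = (y * a * y⁻¹) * (y * b * y⁻¹) by group]
            exact mul_mem (ha ha') (hb hb')
          | inv a ha' ha =>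
            rw [show y * a⁻¹ * y⁻¹ = (y * a * y⁻¹)⁻¹ by group]
            exact inv_mem (ha ha')
        · exact mem_sup_right (hYQ y hyY z hz).1
      | one => simp
      | mul a b _ _ ha hb =>
        rw [show y * (a * b) * y⁻¹ = (y * a * y⁻¹) * (y * b * y⁻¹) by group]
        exact mul_mem ha hb
      | inv a _ ha =>
        rw [show y * a⁻¹ * y⁻¹ = (y * a * y⁻¹)⁻¹ by group]
        exact inv_mem ha
    refine nz_sup2 ?_ (fun q hq => Nz.of_mem (mem_sup_right hq))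
    refine nz_closure_of fun y hy z hz => ⟨h1 y hy z hz, ?_⟩
    have := h1 y⁻¹ (hY₀i y hy) z hz
    rwa [inv_inv] at this
  have hB : ∀ a ∈ X ⊔ Q, Nz (Y ⊔ Q) a := by
    have h1 : ∀ x ∈ X₀, ∀ z ∈ Y ⊔ Q, x * z * x⁻¹ ∈ Y ⊔ Q := by
      intro x hx z hz
      have hxX : x ∈ X := subset_closure hx
      obtain ⟨y, hy, q, hq, rfl⟩ := mem_sup_mul hYQ hz
      have e : x * (y * q) * x⁻¹ = (⁅x, y⁆ * y) * (x * q * x⁻¹) := by
        simp only [commutatorElement_def]; group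
      rw [e]
      exact mul_mem (mul_mem (mem_sup_right (hXY x hx y hy)) (mem_sup_left hy))
        (mem_sup_right (hXQ x hxX q hq).1)
    refine nz_sup2 ?_ (fun q hq => Nz.of_mem (mem_sup_right hq))
    refine nz_closure_of fun x hx z hz => ⟨h1 x hx z hz, ?_⟩
    have := h1 x⁻¹ (hX₀i x hx) z hz
    rwa [inv_inv] at this
  have f1 : (X ⊔ Q).FG := hXfg.sup hQfg
  have f2 : (Y ⊔ Q).FG := hYfg.sup hQfg
  have v1 : VNil (X ⊔ Q) := hN _ (sup_le hXN hQN) f1
  have v2 : VNil (Y ⊔ Q) := hM _ (sup_le hYM hQM) f2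
  have v3 := vnil_sup f1 f2 v1 v2 hB hA
  refine (vnil_noeth (f1.sup f2) v3 ?_).2
  rw [← hF, closure_le]
  intro y hy
  obtain ⟨-, -, e⟩ := hab y hy
  rw [e]
  exact mul_mem (mem_sup_left (mem_sup_left (subset_closure (Or.inl ⟨y, hy, rfl⟩))))
    (mem_sup_right (mem_sup_left (subset_closure (Or.inl ⟨y, hy, rfl⟩))))

end Run7.h190.V
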