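import Pool.Agent.Run7.h190.LV

/-! Joins and subnormal chains of locally virtually nilpotent groups. -/

set_option autoImplicit false
set_option linter.unusedSectionVars false

open Subgroup
open scoped commutatorElement

namespace Run7.h190.V

open Pool.Agent.H648R4

variable {G : Type} [Group G]

/-- the normaliser -/
def nzS (P : Subgroup G) : Subgroup G where
  carrier := {x | Nz P x}
  mul_mem' := fun ha hb => Nz.mul ha hb
  one_mem' := Nz.one P
  inv_mem' := fun ha => Nz.inv ha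

theorem nz_sSup {P : Subgroup G} {F : Set (Subgroup G)} (h : ∀ N ∈ F, ∀ a ∈ N, Nz P a) :
    ∀ t ∈ sSup F, Nz P t := by
  have : sSup F ≤ nzS P := sSup_le fun N hN a ha => h N hN a ha
  exact fun t ht => this ht

theorem nz_sSup' {F : Set (Subgroup G)} {x : G} (h : ∀ N ∈ F, Nz N x) : Nz (sSup F) x := by
  have key : ∀ x : G, (∀ N ∈ F, Nz N x) → ∀ y ∈ sSup F, x * y * x⁻¹ ∈ sSup F := by
    intro x h y hy
    have h1 : sSup F ≤ (sSup F).comap (MulAut.conj x).toMonoidHom := by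
      refine sSup_le fun N hN a ha => ?_
      rw [mem_comap]
      exact (le_sSup hN : N ≤ _) (h N hN a ha).1
    exact h1 hy
  intro y hy
  refine ⟨key x h y hy, ?_⟩
  have := key x⁻¹ (fun N hN => (h N hN).inv) y hy
  rwa [inv_inv] at this

theorem lv_bot : LV (⊥ : Subgroup G) := by
  intro H hH _
  have : H = ⊥ := eq_bot_iff.2 hH
  subst this
  exact VNil.of_nilp inferInstance

theorem lv_finite {T : Set (Subgroup G)} (hT : T.Finite) (hF : ∀ N ∈ T, LV N)
    (hn : ∀ N ∈ T, ∀ M ∈ T, ∀ m ∈ M, Nz N m) : LV (sSup T) := by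
  induction T, hT using Set.Finite.induction_on with
  | empty => rw [sSup_empty]; exact lv_bot
  | insert _ _ ih =>
    rename_i a s _ _
    rw [sSup_insert]
    have h1 := ih (fun N hN => hF N (Or.inr hN)) (fun N hN M hM =>
      hn N (Or.inr hN) M (Or.inr hM))
    refine LV.sup (hF a (Or.inl rfl)) h1 ?_ ?_
    · intro x hx
      exact nz_sSup' fun N hN => hn N (Or.inr hN) a (Or.inl rfl) x hx
    · exact nz_sSup fun N hN x hx => hn a (Or.inl rfl) N (Or.inr hN) x hx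

theorem exists_finite_sSup {F : Set (Subgroup G)} {x : G} (hx : x ∈ sSup F) :
    ∃ T ⊆ F, T.Finite ∧ x ∈ sSup T := by
  set K : Set (Subgroup G) := {N | ∃ T ⊆ F, T.Finite ∧ N = sSup T} with hK
  have h1 : sSup F ≤ sSup K := by
    refine sSup_le fun N hN => le_sSup ⟨{N}, Set.singleton_subset_iff.2 hN, Set.finite_singleton N, ?_⟩
    rw [sSup_singleton]
  have h2 : K.Nonempty := ⟨⊥, ∅, Set.empty_subset _, Set.finite_empty, by rw [sSup_empty]⟩
  have h3 : DirectedOn (· ≤ ·) K := by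
    rintro _ ⟨T, hT, hTf, rfl⟩ _ ⟨T', hT', hTf', rfl⟩
    exact ⟨sSup (T ∪ T'), ⟨_, Set.union_subset hT hT', hTf.union hTf', rfl⟩,
      sSup_le_sSup Set.subset_union_left, sSup_le_sSup Set.subset_union_right⟩
  obtain ⟨_, ⟨T, hT, hTf, rfl⟩, h4⟩ := (mem_sSup_of_directedOn h2 h3).1 (h1 hx)
  exact ⟨T, hT, hTf, h4⟩

theorem lv_sSup {F : Set (Subgroup G)} (hF : ∀ N ∈ F, LV N)
    (hn : ∀ N ∈ F, ∀ M ∈ F, ∀ m ∈ M, Nz N m) : LV (sSup F) := by
  intro H hH hfg
  obtain ⟨S, hS, hSf⟩ := (Subgroup.fg_iff _).1 hfg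
  have h0 : ∀ y : G, ∃ T : Set (Subgroup G), y ∈ S → T ⊆ F ∧ T.Finite ∧ y ∈ sSup T := by
    intro y
    by_cases hy : y ∈ S
    · have : y ∈ sSup F := hH (by rw [← hS]; exact subset_closure hy)
      obtain ⟨T, h⟩ := exists_finite_sSup this
      exact ⟨T, fun _ => h⟩
    · exact ⟨∅, fun h => absurd h hy⟩
  choose T hT using h0
  set T' : Set (Subgroup G) := ⋃ y ∈ S, T y with hT'
  have hT'F : T' ⊆ F := Set.iUnion₂_subset fun y hy => (hT y hy).1
  have hT'f : T'.Finite := hSf.biUnion fun y hy => (hT y hy).2.1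
  have h1 : LV (sSup T') := lv_finite hT'f (fun N hN => hF N (hT'F hN)) (fun N hN M hM =>
    hn N (hT'F hN) M (hT'F hM))
  refine h1 H ?_ hfg
  rw [← hS, closure_le]
  intro y hy
  have h2 : sSup (T y) ≤ sSup T' := sSup_le_sSup (Set.subset_biUnion_of_mem (u := T) hy)
  exact h2 (hT y hy).2.2

/-- conjugates of subgroups -/
def cj (q : G) (N : Subgroup G) : Subgroup G := N.map (MulAut.conj q).toMonoidHom

theorem mem_cj {q : G} {N : Subgroup G} {y : G} : y ∈ cj q N ↔ q⁻¹ * y * q ∈ N := by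
  constructor
  · rintro ⟨x, hx, rfl⟩
    have e : q⁻¹ * ((MulAut.conj q).toMonoidHom x) * q = x := by
      simp only [MulEquiv.toMonoidHom_eq_coe, MonoidHom.coe_coe, MulAut.conj_apply]; group
    rw [e]; exact hx
  · intro h
    refine ⟨_, h, ?_⟩
    simp only [MulEquiv.toMonoidHom_eq_coe, MonoidHom.coe_coe, MulAut.conj_apply]; group

theorem vnil_map {H : Type} [Group H] {f : G →* H} (hf : Function.Injective f) {S : Subgroup G}
    (h : VNil S) : VNil (S.map f) := by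
  obtain ⟨K, hK, hKi, hKn⟩ := h
  refine ⟨K.map f, map_mono hK, ?_, nilp_map f hKn⟩
  rwa [relIndex_map_map_of_injective _ _ hf]

theorem LV.map {H : Type} [Group H] {f : G →* H} (hf : Function.Injective f) {S : Subgroup G}
    (h : LV S) : LV (S.map f) := by
  intro T hT hfg
  have h1 : T = (T.comap f).map f := by
    rw [map_comap_eq, inf_eq_right.2]
    exact hT.trans (map_le_range f S)
  have h2 : (T.comap f).FG := by
    obtain ⟨s, hs, hsf⟩ := (Subgroup.fg_iff _).1 hfg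
    refine (Subgroup.fg_iff _).2 ⟨f ⁻¹' s, ?_, hsf.preimage hf.injOn⟩
    apply map_injective hf
    rw [← h1, MonoidHom.map_closure, Set.image_preimage_eq_of_subset, hs]
    intro x hx
    have : x ∈ T := by rw [← hs]; exact subset_closure hx
    obtain ⟨y, -, hy⟩ := hT this
    exact ⟨y, hy⟩
  have h3 : T.comap f ≤ S := by
    intro x hx
    obtain ⟨y, hy, e⟩ := hT hx
    rwa [← hf e]
  rw [h1]
  exact vnil_map hf (h _ h3 h2)

theorem LV.cj {N : Subgroup G} (h : LV N) (q : G) : LV (cj q N) :=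
  LV.map (MulAut.conj q).injective h

theorem lv_step {N P Q : Subgroup G} (hN : LV N) (hNP : N ≤ P) (hP : ∀ p ∈ P, Nz N p)
    (hPQ : ∀ q ∈ Q, Nz P q) :
    ∃ N' : Subgroup G, LV N' ∧ N ≤ N' ∧ N' ≤ P ∧ ∀ q ∈ Q, Nz N' q := by
  have hle : ∀ q ∈ Q, Run7.h190.V.cj q N ≤ P := by
    intro q hq y hy
    rw [mem_cj] at hy
    have := (hPQ q hq _ (hNP hy)).1
    rwa [show q * (q⁻¹ * y * q) * q⁻¹ = y by group] at this
  have hnz : ∀ q ∈ Q, ∀ p ∈ P, Nz (Run7.h190.V.cj q N) p := by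
    have key : ∀ q ∈ Q, ∀ p ∈ P, ∀ y ∈ Run7.h190.V.cj q N, p * y * p⁻¹ ∈ Run7.h190.V.cj q N := by
      intro q hq p hp y hy
      rw [mem_cj] at hy ⊢
      have h1 : q⁻¹ * p * q ∈ P := (hPQ q hq p hp).2
      have h2 := (hP _ h1 _ hy).1
      rwa [show q⁻¹ * p * q * (q⁻¹ * y * q) * (q⁻¹ * p * q)⁻¹ = q⁻¹ * (p * y * p⁻¹) * q by group]
        at h2
    intro q hq p hp y hy
    refine ⟨key q hq p hp y hy, ?_⟩
    have := key q hq p⁻¹ (P.inv_mem hp) y hy
    rwa [inv_inv] at this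
  refine ⟨sSup {M | ∃ q ∈ Q, M = Run7.h190.V.cj q N}, ?_, ?_, ?_, ?_⟩
  · refine lv_sSup ?_ ?_
    · rintro _ ⟨q, _, rfl⟩
      exact hN.cj q
    · rintro _ ⟨q, hq, rfl⟩ _ ⟨q', hq', rfl⟩ m hm
      exact hnz q hq m (hle q' hq' hm)
  · refine le_sSup ⟨1, Q.one_mem, ?_⟩
    ext y
    rw [mem_cj]; simp
  · refine sSup_le ?_
    rintro _ ⟨q, hq, rfl⟩
    exact hle q hq
  · have key : ∀ q ∈ Q, ∀ y ∈ sSup {M | ∃ q ∈ Q, M = Run7.h190.V.cj q N},
        q * y * q⁻¹ ∈ sSup {M | ∃ q ∈ Q, M = Run7.h190.V.cj q N} := by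
      intro q hq
      have h1 : sSup {M | ∃ q ∈ Q, M = Run7.h190.V.cj q N} ≤
          (sSup {M | ∃ q ∈ Q, M = Run7.h190.V.cj q N}).comap (MulAut.conj q).toMonoidHom := by
        refine sSup_le ?_
        rintro _ ⟨q', hq', rfl⟩ y hy
        rw [mem_comap]
        have h2 : Run7.h190.V.cj (q * q') N ≤ sSup {M | ∃ q ∈ Q, M = Run7.h190.V.cj q N} :=
          le_sSup ⟨_, Q.mul_mem hq hq', rfl⟩
        apply h2
        rw [mem_cj] at hy ⊢
        simp only [MulEquiv.toMonoidHom_eq_coe, MonoidHom.coe_coe, MulAut.conj_apply]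
        rwa [show (q * q')⁻¹ * (q * y * q⁻¹) * (q * q') = q'⁻¹ * y * q' by group]
      exact fun y hy => h1 hy
    intro q hq y hy
    refine ⟨key q hq y hy, ?_⟩
    have := key q⁻¹ (Q.inv_mem hq) y hy
    rwa [inv_inv] at this

theorem nz_lcs {E : Subgroup G} (i : ℕ) : ∀ e ∈ E, Nz (E.lowerCentralSeries i) e := by
  have key : ∀ e ∈ E, ∀ y ∈ E.lowerCentralSeries i, e * y * e⁻¹ ∈ E.lowerCentralSeries i := by
    intro e he y hy
    have e1 : e * y * e⁻¹ = y * ⁅y⁻¹, e⁆ := by rw [commutatorElement_def]; group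
    rw [e1]
    refine mul_mem hy (E.lowerCentralSeries_antitone (Nat.le_succ i) ?_)
    exact commutator_mem_commutator (inv_mem hy) he
  intro e he y hy
  refine ⟨key e he y hy, ?_⟩
  have := key e⁻¹ (E.inv_mem he) y hy
  rwa [inv_inv] at this

theorem nz_sup_of {A B : Subgroup G} {t : G}
    (hA : ∀ a ∈ A, t * a * t⁻¹ ∈ A ⊔ B ∧ t⁻¹ * a * t ∈ A ⊔ B)
    (hB : ∀ b ∈ B, t * b * t⁻¹ ∈ A ⊔ B ∧ t⁻¹ * b * t ∈ A ⊔ B) : Nz (A ⊔ B) t := by
  rw [Subgroup.sup_eq_closure] at hA hB ⊢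
  refine Nz.closure ?_
  rintro y (hy | hy)
  · exact hA y hy
  · exact hB y hy

/-- a subnormal locally virtually nilpotent subgroup lies in a normal one -/
theorem lv_chain {E A K : Subgroup G} {c : ℕ} (hc : E.lowerCentralSeries c ≤ A) (hAK : A ≤ K)
    (hKE : K ≤ E) (hK : LV K) : ∃ N : Subgroup G, LV N ∧ K ≤ N ∧ N ≤ E ∧ ∀ e ∈ E, Nz N e := by
  have key : ∀ d ≤ c, ∃ N : Subgroup G, LV N ∧ K ≤ N ∧ N ≤ K ⊔ E.lowerCentralSeries (c - d) ∧
      ∀ p ∈ K ⊔ E.lowerCentralSeries (c - d), Nz N p := by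
    intro d
    induction d with
    | zero =>
      intro _
      have h1 : K ⊔ E.lowerCentralSeries (c - 0) = K := by
        rw [Nat.sub_zero, sup_eq_left]; exact hc.trans hAK
      rw [h1]
      exact ⟨K, hK, le_rfl, le_rfl, fun p hp => Nz.of_mem hp⟩
    | succ d ih =>
      intro hd
      obtain ⟨N, hN, hKN, hNP, hP⟩ := ih (by omega)
      have e1 : c - d = (c - (d + 1)) + 1 := by omega
      rw [e1] at hNP hP
      set i := c - (d + 1) with hi
      have hPQ : ∀ q ∈ K ⊔ E.lowerCentralSeries i, Nz (K ⊔ E.lowerCentralSeries (i + 1)) q := by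
        refine nz_sup2 (fun k hk => Nz.of_mem (mem_sup_left hk)) fun t ht => ?_
        have htE : t ∈ E := lowerCentralSeries_le_self E i ht
        have h2 : ∀ t ∈ E.lowerCentralSeries i, ∀ k ∈ K,
            t * k * t⁻¹ ∈ K ⊔ E.lowerCentralSeries (i + 1) := by
          intro t ht k hk
          have e2 : t * k * t⁻¹ = ⁅t, k⁆ * k := by rw [commutatorElement_def]; group
          rw [e2]
          exact mul_mem (mem_sup_right (commutator_mem_commutator ht (hKE hk))) (mem_sup_left hk)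
        refine nz_sup_of (fun k hk => ⟨h2 t ht k hk, ?_⟩) (fun b hb => ?_)
        · have := h2 t⁻¹ (inv_mem ht) k hk
          rwa [inv_inv] at this
        · have := nz_lcs (i + 1) t htE b hb
          exact ⟨mem_sup_right this.1, mem_sup_right this.2⟩
      obtain ⟨N', h3, h4, h5, h6⟩ := lv_step hN hNP hP hPQ
      refine ⟨N', h3, hKN.trans h4, h5.trans ?_, h6⟩
      exact sup_le_sup_left (E.lowerCentralSeries_antitone (Nat.le_succ i)) K
  obtain ⟨N, h1, h2, h3, h4⟩ := key c le_rfl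
  rw [Nat.sub_self, Subgroup.lowerCentralSeries_zero, sup_eq_right.2 hKE] at h3 h4
  exact ⟨N, h1, h2, h3, h4⟩

end Run7.h190.V
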