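import Pool.Agent.Run7.h190.LV2

/-! Elements acting quasi-unipotently on abelian normal subgroups. -/

set_option autoImplicit false
set_option linter.unusedSectionVars false

open Subgroup
open scoped commutatorElement

namespace Run7.h190.V

open Pool.Agent.H648R4

variable {G : Type} [Group G]

/-- the difference for the conjugation by `b` -/
def db (b v : G) : G := v⁻¹ * (b * v * b⁻¹)

theorem db_conj (y b v : G) : db (y * b * y⁻¹) (y * v * y⁻¹) = y * db b v * y⁻¹ := by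
  rw [db, db]; group

theorem db_conj_iter (y b v : G) (k : ℕ) :
    (db (y * b * y⁻¹))^[k] (y * v * y⁻¹) = y * (db b)^[k] v * y⁻¹ := by
  induction k generalizing v with
  | zero => rfl
  | succ k ih => rw [Function.iterate_succ_apply, db_conj, ih, Function.iterate_succ_apply]

theorem db_comm {x b : G} (h : x * b = b * x) (v : G) : db b (x * v * x⁻¹) = x * db b v * x⁻¹ := by
  have e : x * b * x⁻¹ = b := by rw [h]; group
  have := db_conj x b v
  rwa [e] at this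

section abel

variable (A : Subgroup G) (hA : ∀ x ∈ A, ∀ y ∈ A, x * y = y * x)

theorem db_mem {b : G} (hb : Nz A b) {v : G} (hv : v ∈ A) : db b v ∈ A :=
  A.mul_mem (A.inv_mem hv) (hb v hv).1

/-- one step -/
def stepW (b : G) (hb : Nz A b) (W : Subgroup G) : Subgroup G where
  carrier := {v | v ∈ A ∧ db b v ∈ W}
  mul_mem' := by
    rintro v w ⟨hv, h1⟩ ⟨hw, h2⟩
    refine ⟨A.mul_mem hv hw, ?_⟩
    have e : db b (v * w) = db b v * db b w := by
      have h3 := hA _ (A.inv_mem hw) _ (db_mem A hb hv)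
      have e1 : db b (v * w) = w⁻¹ * db b v * (b * w * b⁻¹) := by rw [db, db]; group
      rw [e1, h3, db, db]; group
    rw [e]
    exact W.mul_mem h1 h2
  one_mem' := ⟨A.one_mem, by rw [db]; simp⟩
  inv_mem' := by
    rintro v ⟨hv, h1⟩
    refine ⟨A.inv_mem hv, ?_⟩
    have e : db b v⁻¹ = (db b v)⁻¹ := by
      have h3 := hA _ hv _ (A.inv_mem (hb v hv).1)
      have e1 : db b v⁻¹ = v * (b * v * b⁻¹)⁻¹ := by rw [db]; group
      have e2 : (db b v)⁻¹ = (b * v * b⁻¹)⁻¹ * v := by rw [db]; group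
      rw [e1, e2, h3]
    rw [e]
    exact W.inv_mem h1

/-- the kernels of the powers of the difference -/
def WW (b : G) (hb : Nz A b) : ℕ → Subgroup G
  | 0 => ⊥
  | k + 1 => stepW A hA b hb (WW b hb k)

variable {A} {b : G} (hb : Nz A b)

theorem mem_WW_succ {k : ℕ} {v : G} : v ∈ WW A hA b hb (k + 1) ↔ v ∈ A ∧ db b v ∈ WW A hA b hb k :=
  Iff.rfl

theorem WW_le (k : ℕ) : WW A hA b hb k ≤ A := by
  cases k with
  | zero => exact bot_le
  | succ k => exact fun v hv => hv.1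

theorem WW_mono (k : ℕ) : WW A hA b hb k ≤ WW A hA b hb (k + 1) := by
  induction k with
  | zero => exact bot_le
  | succ k ih => exact fun v hv => ⟨hv.1, ih hv.2⟩

theorem WW_mono' {k l : ℕ} (h : k ≤ l) : WW A hA b hb k ≤ WW A hA b hb l :=
  monotone_nat_of_le_succ (WW_mono hA hb) h

theorem mem_WW_iff {k : ℕ} {v : G} (hv : v ∈ A) : v ∈ WW A hA b hb k ↔ (db b)^[k] v = 1 := by
  induction k generalizing v with
  | zero => exact Subgroup.mem_bot
  | succ k ih =>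
    rw [mem_WW_succ, Function.iterate_succ_apply, ← ih (db_mem A hb hv)]
    exact ⟨fun h => h.2, fun h => ⟨hv, h⟩⟩

theorem nz_WW {x : G} (hx : Nz A x) (hxb : x * b = b * x) (k : ℕ) : Nz (WW A hA b hb k) x := by
  have key : ∀ x : G, Nz A x → x * b = b * x → ∀ k : ℕ, ∀ v ∈ WW A hA b hb k,
      x * v * x⁻¹ ∈ WW A hA b hb k := by
    intro x hx hxb k
    induction k with
    | zero =>
      intro v hv
      have : v = 1 := Subgroup.mem_bot.1 hv
      rw [this]; simp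
    | succ k ih =>
      intro v hv
      refine ⟨(hx v hv.1).1, ?_⟩
      rw [db_comm hxb]
      exact ih _ hv.2
  intro v hv
  refine ⟨key x hx hxb k v hv, ?_⟩
  have h1 : x⁻¹ * b = b * x⁻¹ := by
    have h2 : x⁻¹ * (x * b) * x⁻¹ = x⁻¹ * (b * x) * x⁻¹ := by rw [hxb]
    rw [show x⁻¹ * (x * b) * x⁻¹ = b * x⁻¹ by group, show x⁻¹ * (b * x) * x⁻¹ = x⁻¹ * b by group]
      at h2
    exact h2.symm
  have := key x⁻¹ hx.inv h1 k v hv
  rwa [inv_inv] at this

theorem db_zpow {k : ℕ} {v : G} (hv : v ∈ WW A hA b hb (k + 1)) (i : ℤ) :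
    db (b ^ i) v ∈ WW A hA b hb k := by
  have hn : Nz (WW A hA b hb k) b := nz_WW hA hb hb rfl k
  induction i using Int.induction_on with
  | zero =>
    have : db (b ^ (0 : ℤ)) v = 1 := by rw [db]; simp
    rw [this]; exact Subgroup.one_mem _
  | succ i ih =>
    have e : db (b ^ ((i : ℤ) + 1)) v = db (b ^ (i : ℤ)) v * (b ^ (i : ℤ) * db b v * (b ^ (i : ℤ))⁻¹) := by
      rw [db, db, db, zpow_add_one]; group
    rw [e]
    exact mul_mem ih ((hn.zpow (i : ℤ)) _ hv.2).1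
  | pred i ih =>
    have e : db (b ^ (-(i : ℤ) - 1)) v = db (b ^ (-(i : ℤ))) v *
        (b ^ (-(i : ℤ) - 1) * db b v * (b ^ (-(i : ℤ) - 1))⁻¹)⁻¹ := by
      rw [db, db, db, zpow_sub_one]; group
    rw [e]
    exact mul_mem ih (inv_mem ((hn.zpow (-(i : ℤ) - 1)) _ hv.2).1)

theorem WW_pow {k : ℕ} (j : ℕ) (hbj : Nz A (b ^ j)) :
    WW A hA b hb k ≤ WW A hA (b ^ j) hbj k := by
  induction k with
  | zero => exact bot_le
  | succ k ih =>
    intro v hv
    refine ⟨hv.1, ih ?_⟩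
    have := db_zpow hA hb hv (j : ℤ)
    rwa [zpow_natCast] at this

theorem comm_WW (k : ℕ) : ⁅WW A hA b hb (k + 1), A ⊔ zpowers b⁆ ≤ WW A hA b hb k := by
  rw [commutator_le]
  intro v hv y hy
  obtain ⟨w, hw, i, rfl⟩ := (mem_sup_cyc hb y).1 hy
  have h1 := db_zpow hA hb hv i
  have hvA : v ∈ A := hv.1
  have hu : b ^ i * v * (b ^ i)⁻¹ ∈ A := ((hb.zpow i) v hvA).1
  have e : ⁅v, w * b ^ i⁆ = (db (b ^ i) v)⁻¹ := by
    have e1 : ⁅v, w * b ^ i⁆ = v * (w * (b ^ i * v * (b ^ i)⁻¹)⁻¹ * w⁻¹) := by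
      rw [commutatorElement_def]; group
    have e2 : w * (b ^ i * v * (b ^ i)⁻¹)⁻¹ * w⁻¹ = (b ^ i * v * (b ^ i)⁻¹)⁻¹ := by
      rw [hA w hw _ (A.inv_mem hu)]; group
    have e3 : (db (b ^ i) v)⁻¹ = (b ^ i * v * (b ^ i)⁻¹)⁻¹ * v := by rw [db]; group
    rw [e1, e2, e3, hA v hvA _ (A.inv_mem hu)]
  rw [e]
  exact inv_mem h1

theorem nilp_WW (k : ℕ) : Group.IsNilpotent (WW A hA b hb k ⊔ zpowers b : Subgroup G) := by
  have hn : Nz (WW A hA b hb k) b := nz_WW hA hb hb rfl k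
  have key : ∀ i ≤ k, (WW A hA b hb k ⊔ zpowers b).lowerCentralSeries (i + 1) ≤
      WW A hA b hb (k - i) := by
    intro i
    induction i with
    | zero => intro _; exact comm_cyc hn
    | succ i ih =>
      intro hi
      rw [Subgroup.lowerCentralSeries_succ]
      have e : k - i = (k - (i + 1)) + 1 := by omega
      have h1 := ih (by omega)
      rw [e] at h1
      refine (commutator_mono h1 ?_).trans (comm_WW hA hb (k - (i + 1)))
      exact sup_le_sup_right (WW_le hA hb k) _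
  refine (isNilpotent_iff_lowerCentralSeries _).2 ⟨k + 1, ?_⟩
  have h1 := key k le_rfl
  rw [Nat.sub_self] at h1
  exact eq_bot_iff.2 h1

theorem vnil_WW {a : G} (ha : Nz A a) {M : ℕ} (hM : 0 < M) (hb : Nz A (a ^ M)) (k : ℕ) :
    VNil (WW A hA (a ^ M) hb k ⊔ zpowers a) := by
  have hn : Nz (WW A hA (a ^ M) hb k) a := nz_WW hA hb ha (by rw [← pow_succ', pow_succ]) k
  refine ⟨WW A hA (a ^ M) hb k ⊔ zpowers (a ^ M), ?_, ?_, nilp_WW hA hb k⟩
  · refine sup_le_sup_left ?_ _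
    rw [zpowers_le]
    exact pow_mem (mem_zpowers a) M
  · refine relIndex_of_cover (F := (fun j : ℕ => a ^ j) '' Set.Iio M) ((Set.finite_Iio M).image _)
      ?_ fun y hy => ?_
    · rintro _ ⟨j, _, rfl⟩
      exact pow_mem (mem_sup_right (mem_zpowers a)) j
    · obtain ⟨v, hv, i, rfl⟩ := (mem_sup_cyc hn y).1 hy
      have hM' : (M : ℤ) ≠ 0 := by exact_mod_cast hM.ne'
      have h1 := Int.emod_nonneg i hM'
      have h2 := Int.emod_lt_of_pos i (by exact_mod_cast hM : (0 : ℤ) < M)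
      obtain ⟨r, hr⟩ := Int.eq_ofNat_of_zero_le h1
      refine ⟨a ^ r, ⟨r, ?_, rfl⟩, ?_⟩
      · rw [Set.mem_Iio]
        rw [hr] at h2
        exact_mod_cast h2
      · have e : a ^ i = a ^ (r : ℤ) * (a ^ M) ^ (i / M) := by
          rw [← zpow_natCast a M, ← zpow_mul, ← zpow_add]
          congr 1
          have := Int.emod_add_mul_ediv i M
          rw [hr] at this
          exact this.symm
        have e2 : (a ^ r)⁻¹ * (v * a ^ i) = (a ^ (r : ℤ))⁻¹ * v * a ^ (r : ℤ) * (a ^ M) ^ (i / M) := by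
          rw [e, zpow_natCast]; group
        rw [e2]
        exact mul_mem (mem_sup_left ((hn.zpow (r : ℤ)) v hv).2)
          (mem_sup_right (zpow_mem (mem_zpowers _) _))

/-- locally quasi-unipotent action -/
def LQ (A : Subgroup G) (a : G) : Prop := ∀ v ∈ A, ∃ M : ℕ, 0 < M ∧ ∃ k : ℕ, (db (a ^ M))^[k] v = 1

theorem nz_pow {A : Subgroup G} {a : G} (ha : Nz A a) (M : ℕ) : Nz A (a ^ M) := by
  have := ha.zpow (M : ℤ)
  rwa [zpow_natCast] at this

/-- cyclic extensions -/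
theorem lv_cyc (hA : ∀ x ∈ A, ∀ y ∈ A, x * y = y * x) {a : G} (ha : Nz A a) (hq : LQ A a) :
    LV (A ⊔ zpowers a) := by
  intro H hH hfg
  obtain ⟨S, hS, hSf⟩ := (Subgroup.fg_iff _).1 hfg
  have hSle : ∀ y ∈ S, y ∈ A ⊔ zpowers a := fun y hy => hH (by rw [← hS]; exact subset_closure hy)
  have key : ∃ M : ℕ, 0 < M ∧ ∃ k : ℕ, ∀ y ∈ S,
      y ∈ WW A hA (a ^ M) (nz_pow ha M) k ⊔ zpowers a := by
    clear hS
    induction S, hSf using Set.Finite.induction_on with
    | empty => exact ⟨1, one_pos, 0, fun y hy => absurd hy (Set.notMem_empty y)⟩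
    | insert _ _ ih =>
      rename_i y S _ _
      obtain ⟨M, hM, k, h1⟩ := ih (fun z hz => hSle z (Or.inr hz))
      obtain ⟨v, hv, i, hy⟩ := (mem_sup_cyc ha y).1 (hSle y (Or.inl rfl))
      obtain ⟨M', hM', k', h2⟩ := hq v hv
      refine ⟨M * M', Nat.mul_pos hM hM', max k k', ?_⟩
      have h3 : v ∈ WW A hA (a ^ (M * M')) (nz_pow ha _) (max k k') := by
        refine WW_mono' hA _ (le_max_right k k') ?_
        have h4 := (mem_WW_iff hA (nz_pow ha M') hv).2 h2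
        have h5 := WW_pow hA (nz_pow ha M') M (nz_pow (nz_pow ha M') M) h4
        rw [mem_WW_iff hA _ hv] at h5 ⊢
        rwa [← pow_mul, mul_comm] at h5
      rintro z (rfl | hz)
      · rw [hy]
        exact mul_mem (mem_sup_left h3) (mem_sup_right (zpow_mem (mem_zpowers a) i))
      · have hle : WW A hA (a ^ M) (nz_pow ha M) k ≤
            WW A hA (a ^ (M * M')) (nz_pow ha _) (max k k') := ?_
        · exact (sup_le_sup_right hle (zpowers a)) (h1 z hz)
        intro w hw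
        have hwA := WW_le hA (nz_pow ha M) k hw
        refine WW_mono' hA _ (le_max_left k k') ?_
        have h5 := WW_pow hA (nz_pow ha M) M' (nz_pow (nz_pow ha M) M') hw
        rw [mem_WW_iff hA _ hwA] at h5 ⊢
        rwa [← pow_mul] at h5
  obtain ⟨M, hM, k, h1⟩ := key
  obtain ⟨K, hK, hKi, hKn⟩ := vnil_WW hA ha hM (nz_pow ha M) k
  have hle : H ≤ WW A hA (a ^ M) (nz_pow ha M) k ⊔ zpowers a := by
    rw [← hS, closure_le]
    exact h1
  refine ⟨H ⊓ K, inf_le_left, ?_, nilp_mono inf_le_right hKn⟩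
  rw [inf_relIndex_left]
  exact fun h => hKi (relIndex_eq_zero_of_le_right hle h)

theorem LQ.conj (hA : ∀ x ∈ A, ∀ y ∈ A, x * y = y * x) (hN : ∀ x : G, Nz A x) {s : G}
    (hq : LQ A s) (y : G) (m : ℕ) : LQ A (y * s ^ m * y⁻¹) := by
  intro v hv
  have hw : y⁻¹ * v * y ∈ A := (hN y v hv).2
  obtain ⟨M, hM, k, h1⟩ := hq _ hw
  refine ⟨M, hM, k, ?_⟩
  have h2 := (mem_WW_iff hA (hN _) hw).2 h1
  have h3 := WW_pow hA (hN (s ^ M)) m (hN _) h2
  rw [mem_WW_iff hA _ hw] at h3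
  have e1 : (y * s ^ m * y⁻¹) ^ M = y * (s ^ M) ^ m * y⁻¹ := by
    rw [conj_pow, ← pow_mul, ← pow_mul, mul_comm]
  have e2 : v = y * (y⁻¹ * v * y) * y⁻¹ := by group
  rw [e1, e2, db_conj_iter, h3]
  simp

end abel

/-- the group generated by the power `s ^ m` and its conjugates -/
def EE (s g : G) (m : ℕ) : Subgroup G :=
  closure (insert (s ^ m) (Set.range fun j : ℤ => (s ^ j * g⁻¹) * s ^ m * (s ^ j * g⁻¹)⁻¹))

theorem EE_fg (s g : G) {m : ℕ} (hm : 0 < m) : (EE s g m).FG := by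
  set T : Set G := insert (s ^ m) ((fun j : ℕ => (s ^ j * g⁻¹) * s ^ m * (s ^ j * g⁻¹)⁻¹) ''
    Set.Iio m) with hT
  refine (Subgroup.fg_iff _).2 ⟨T, ?_, ((Set.finite_Iio m).image _).insert _⟩
  apply le_antisymm
  · rw [closure_le, hT]
    refine Set.insert_subset (subset_closure (Or.inl rfl)) ?_
    rintro _ ⟨j, _, rfl⟩
    refine subset_closure (Or.inr ⟨(j : ℤ), ?_⟩)
    simp only [zpow_natCast]
  · rw [EE, closure_le]
    refine Set.insert_subset (subset_closure (Or.inl rfl)) ?_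
    rintro _ ⟨j, rfl⟩
    have hM' : (m : ℤ) ≠ 0 := by exact_mod_cast hm.ne'
    have h1 := Int.emod_nonneg j hM'
    have h2 := Int.emod_lt_of_pos j (by exact_mod_cast hm : (0 : ℤ) < m)
    obtain ⟨r, hr⟩ := Int.eq_ofNat_of_zero_le h1
    have h3 : (s ^ r * g⁻¹) * s ^ m * (s ^ r * g⁻¹)⁻¹ ∈ closure T := by
      refine subset_closure (Or.inr ⟨r, ?_, rfl⟩)
      rw [Set.mem_Iio]
      rw [hr] at h2
      exact_mod_cast h2
    have h4 : s ^ m ∈ closure T := subset_closure (Or.inl rfl)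
    have e : s ^ j = (s ^ m) ^ (j / m) * s ^ r := by
      rw [← zpow_natCast s m, ← zpow_natCast s r, ← zpow_mul, ← zpow_add]
      congr 1
      have := Int.emod_add_mul_ediv j m
      rw [hr] at this
      linarith
    have e2 : (s ^ j * g⁻¹) * s ^ m * (s ^ j * g⁻¹)⁻¹ =
        (s ^ m) ^ (j / m) * ((s ^ r * g⁻¹) * s ^ m * (s ^ r * g⁻¹)⁻¹) * ((s ^ m) ^ (j / m))⁻¹ := by
      rw [e]; group
    simp only [SetLike.mem_coe]
    rw [e2]
    exact mul_mem (mul_mem (zpow_mem h4 _) h3) (inv_mem (zpow_mem h4 _))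

/-- the inductive step -/
theorem step {A : Subgroup G} [hAn : A.Normal] (hA : ∀ x ∈ A, ∀ y ∈ A, x * y = y * x) {s g : G}
    (hq : LQ A s) {m : ℕ} (hm : 0 < m) {c : ℕ} (hc : (EE s g m).lowerCentralSeries c ≤ A) :
    ∃ m' : ℕ, 0 < m' ∧ Group.IsNilpotent (EE s g m') := by
  have hN : ∀ x : G, Nz A x := fun x => Nz.of_normal A x
  set E := EE s g m ⊔ A with hE
  have hEc : E.lowerCentralSeries c ≤ A := by
    have h1 : E.map (QuotientGroup.mk' A) = (EE s g m).map (QuotientGroup.mk' A) := by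
      rw [hE, Subgroup.map_sup]
      have : A.map (QuotientGroup.mk' A) = ⊥ := by
        rw [Subgroup.map_eq_bot_iff, QuotientGroup.ker_mk']
      rw [this, sup_bot_eq]
    have h2 : (E.lowerCentralSeries c).map (QuotientGroup.mk' A) = ⊥ := by
      rw [map_lowerCentralSeries, h1, ← map_lowerCentralSeries, Subgroup.map_eq_bot_iff,
        QuotientGroup.ker_mk']
      exact hc
    rwa [Subgroup.map_eq_bot_iff, QuotientGroup.ker_mk'] at h2
  set T : Set G := insert (s ^ m)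
    (Set.range fun j : ℤ => (s ^ j * g⁻¹) * s ^ m * (s ^ j * g⁻¹)⁻¹) with hT
  have hTE : ∀ a ∈ T, a ∈ E := fun a ha => mem_sup_left (subset_closure ha)
  have hTq : ∀ a ∈ T, LQ A a := by
    rintro a (rfl | ⟨j, rfl⟩)
    · have := hq.conj hA hN 1 m
      simpa using this
    · exact hq.conj hA hN _ m
  have h0 : ∀ a : G, ∃ N : Subgroup G, a ∈ T → LV N ∧ A ⊔ zpowers a ≤ N ∧ N ≤ E ∧
      ∀ e ∈ E, Nz N e := by
    intro a
    by_cases ha : a ∈ T
    · obtain ⟨N, h⟩ := lv_chain hEc (le_sup_left : A ≤ A ⊔ zpowers a) (sup_le le_sup_right (by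
        rw [zpowers_le]; exact hTE a ha)) (lv_cyc hA (hN a) (hTq a ha))
      exact ⟨N, fun _ => h⟩
    · exact ⟨⊥, fun h => absurd h ha⟩
  choose NN hNN using h0
  have h1 : LV (sSup (NN '' T)) := by
    refine lv_sSup ?_ ?_
    · rintro _ ⟨a, ha, rfl⟩
      exact (hNN a ha).1
    · rintro _ ⟨a, ha, rfl⟩ _ ⟨a', ha', rfl⟩ x hx
      exact (hNN a ha).2.2.2 x ((hNN a' ha').2.2.1 hx)
  have h2 : EE s g m ≤ sSup (NN '' T) := by
    rw [EE, closure_le]
    intro a ha
    have h3 : a ∈ NN a := (hNN a ha).2.1 (mem_sup_right (mem_zpowers a))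
    have h4 : NN a ≤ sSup (NN '' T) := le_sSup ⟨a, ha, rfl⟩
    exact h4 h3
  obtain ⟨K, hK, hKi, hKn⟩ := h1 _ h2 (EE_fg s g hm)
  -- a power maps the group into `K`
  have h4 : ∃ r : ℕ, 0 < r ∧ ∀ x ∈ EE s g m, x ^ r ∈ K := by
    refine ⟨(K.relIndex (EE s g m)).factorial, Nat.factorial_pos _, fun x hx => ?_⟩
    exact (Subgroup.pow_mem_of_relIndex_ne_zero_of_dvd hKi hx
      (fun i hi hi' => Nat.dvd_factorial hi hi')).1
  obtain ⟨r, hr, h5⟩ := h4
  refine ⟨m * r, Nat.mul_pos hm hr, nilp_mono ?_ hKn⟩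
  rw [EE, closure_le]
  refine Set.insert_subset ?_ ?_
  · have := h5 (s ^ m) (subset_closure (Or.inl rfl))
    rwa [← pow_mul] at this
  · rintro _ ⟨j, rfl⟩
    have := h5 ((s ^ j * g⁻¹) * s ^ m * (s ^ j * g⁻¹)⁻¹) (subset_closure (Or.inr ⟨j, rfl⟩))
    rwa [conj_pow, ← pow_mul] at this

end Run7.h190.V
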