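import Mathlib

/-! Modules over the integral polynomials and dissociate orbits. -/

set_option autoImplicit false
set_option linter.unusedSectionVars false

open Polynomial Finset

namespace Run7.h190.M

/-- the subset sums of the sequence are distinct, and adding one more copy of a summand does not lead
to another subset sum, except by removing it -/
def Dis {M : Type*} [AddCommMonoid M] (g : ℕ → M) : Prop :=
  ∀ F F' : Finset ℕ, (∑ i ∈ F, g i = ∑ i ∈ F', g i → F = F') ∧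
    ∀ j ∈ F, g j + ∑ i ∈ F, g i = ∑ i ∈ F', g i → F' = F.erase j

theorem Dis.congr {M : Type*} [AddCommMonoid M] {g g' : ℕ → M} (h : ∀ j, g' j = g j) (hd : Dis g) :
    Dis g' := by
  rw [funext h]
  exact hd

theorem dis_of_poly {k A : Type*} [CommRing k] [Nontrivial k] [CommRing A] [Algebra k A] (y : A)
    (h : ∀ q : k[X], (∀ i, q.coeff i = -1 ∨ q.coeff i = 0 ∨ q.coeff i = 1 ∨ q.coeff i = 2) →
      aeval y q = 0 → q = 0) : Dis (fun j => y ^ j) := by
  classical
  have hc : ∀ (F : Finset ℕ) (i : ℕ), (∑ j ∈ F, (X : k[X]) ^ j).coeff i = if i ∈ F then 1 else 0 := by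
    intro F i
    rw [finsetSum_coeff]
    simp [coeff_X_pow]
  have ha : ∀ F : Finset ℕ, aeval y (∑ j ∈ F, (X : k[X]) ^ j) = ∑ j ∈ F, y ^ j := by
    intro F; simp
  intro F F'
  refine ⟨fun hF => ?_, fun j hj hF => ?_⟩
  · have h1 := h (∑ j ∈ F, X ^ j - ∑ j ∈ F', X ^ j) (fun i => by
      rw [coeff_sub, hc, hc]
      by_cases h1 : i ∈ F <;> by_cases h2 : i ∈ F' <;> simp [h1, h2]) (by
        rw [map_sub, ha, ha, hF, sub_self])
    ext i
    have h2 := congrArg (fun q : k[X] => q.coeff i) h1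
    simp only [coeff_sub, hc, coeff_zero] at h2
    by_cases h3 : i ∈ F <;> by_cases h4 : i ∈ F' <;> simp [h3, h4] at h2 ⊢
  · have h1 := h (X ^ j + ∑ j ∈ F, X ^ j - ∑ j ∈ F', X ^ j) (fun i => by
      rw [coeff_sub, coeff_add, hc, hc, coeff_X_pow]
      by_cases h3 : i = j
      · subst h3
        by_cases h2 : i ∈ F'
        · simp [hj, h2]
        · right; right; right
          simp [hj, h2]; norm_num
      · by_cases h1 : i ∈ F <;> by_cases h2 : i ∈ F' <;> simp [h1, h2, h3]) (by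
        rw [map_sub, map_add, ha, ha, map_pow, aeval_X, hF, sub_self])
    ext i
    have h2 := congrArg (fun q : k[X] => q.coeff i) h1
    simp only [coeff_sub, coeff_add, hc, coeff_zero, coeff_X_pow] at h2
    rw [Finset.mem_erase]
    by_cases h5 : i = j
    · subst h5
      by_cases h4 : i ∈ F'
      · simp [hj, h4] at h2
      · simp [h4]
    · by_cases h3 : i ∈ F <;> by_cases h4 : i ∈ F' <;> simp [h3, h4, h5] at h2 ⊢

/-- the orbit of a large number -/
theorem dis_of_abv {L : Type*} [Field L] [CharZero L] (f : AbsoluteValue L ℝ) (y : L)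
    (hy : 1 + 2 / min 1 (f 2) ≤ f y) : Dis (fun j => y ^ j) := by
  have hf2 : 0 < f 2 := f.pos two_ne_zero
  have hk : 0 < min 1 (f 2) := lt_min one_pos hf2
  have hy1 : 1 < f y := by
    have : 0 < 2 / min 1 (f 2) := by positivity
    linarith
  have hf2' : f 2 ≤ 2 := by
    have := f.add_le 1 1
    rw [map_one] at this
    norm_num at this
    exact this
  refine dis_of_poly (k := ℤ) y fun q hq h0 => ?_
  by_contra hne
  have hcb : ∀ i, f ((q.coeff i : ℤ) : L) ≤ 2 := by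
    intro i
    rcases hq i with h | h | h | h <;> rw [h] <;> simp <;> linarith
  have hl : min 1 (f 2) ≤ f ((q.coeff q.natDegree : ℤ) : L) := by
    have h1 : q.coeff q.natDegree ≠ 0 := by
      rw [coeff_natDegree]; exact leadingCoeff_ne_zero.2 hne
    rcases hq q.natDegree with h | h | h | h
    · rw [h]; simp
    · exact absurd h h1
    · rw [h]; simp
    · rw [h]; simp
  set n := q.natDegree with hn
  rw [aeval_eq_sum_range, Finset.sum_range_succ] at h0
  have h1 : q.coeff n • y ^ n = -∑ i ∈ range n, q.coeff i • y ^ i := by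
    rw [eq_neg_iff_add_eq_zero, add_comm]; exact h0
  have h2 : f (q.coeff n • y ^ n) = f ((q.coeff n : ℤ) : L) * f y ^ n := by
    rw [zsmul_eq_mul, map_mul, map_pow]
  have h3 : f (∑ i ∈ range n, q.coeff i • y ^ i) ≤ ∑ i ∈ range n, 2 * f y ^ i := by
    refine (f.sum_le _ _).trans (Finset.sum_le_sum fun i _ => ?_)
    rw [zsmul_eq_mul, map_mul, map_pow]
    exact mul_le_mul_of_nonneg_right (hcb i) (pow_nonneg (f.nonneg y) i)
  have h4 : min 1 (f 2) * f y ^ n ≤ 2 * ∑ i ∈ range n, f y ^ i := by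
    rw [Finset.mul_sum]
    refine le_trans ?_ h3
    have h10 : f (∑ i ∈ range n, q.coeff i • y ^ i) = f (q.coeff n • y ^ n) := by
      rw [h1, f.map_neg]
    rw [h10, h2]
    exact mul_le_mul_of_nonneg_right hl (pow_nonneg (f.nonneg y) n)
  rw [geom_sum_eq (ne_of_gt hy1)] at h4
  have h5 : 0 < f y - 1 := by linarith
  have h6 : 2 ≤ min 1 (f 2) * (f y - 1) := by
    have : 2 / min 1 (f 2) ≤ f y - 1 := by linarith
    rwa [div_le_iff₀ hk, mul_comm] at this
  have h7 : min 1 (f 2) * f y ^ n * (f y - 1) ≤ 2 * (f y ^ n - 1) := by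
    have := mul_le_mul_of_nonneg_right h4 h5.le
    rwa [mul_assoc 2, div_mul_cancel₀ _ h5.ne'] at this
  have h8 : 0 < f y ^ n := by positivity
  nlinarith

theorem exists_pow_abv {L : Type*} [Field L] [CharZero L] (f : AbsoluteValue L ℝ) (y : L)
    (hy : 1 < f y) : ∃ s : ℕ, 0 < s ∧ Dis (fun j => (y ^ s) ^ j) := by
  obtain ⟨s, hs⟩ := pow_unbounded_of_one_lt (1 + 2 / min 1 (f 2)) hy
  refine ⟨s, ?_, dis_of_abv f (y ^ s) (by rw [map_pow]; exact hs.le)⟩
  rcases Nat.eq_zero_or_pos s with rfl | h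
  · exfalso
    have hf2 : 0 < f 2 := f.pos two_ne_zero
    have hk : 0 < min 1 (f 2) := lt_min one_pos hf2
    have : 0 < 2 / min 1 (f 2) := by positivity
    rw [pow_zero] at hs
    linarith
  · exact h

/-- existence of a dissociate orbit in a subquotient -/
def Ex (N : Type) [AddCommGroup N] [Module ℤ[X] N] : Prop :=
  ∃ (N₁ : AddSubgroup N) (M : Type) (_ : AddCommGroup M) (φ : N₁ →+ M) (w : N) (s : ℕ)
    (hw : ∀ j : ℕ, (X ^ (s * j) : ℤ[X]) • w ∈ N₁), 0 < s ∧ Dis (fun j => φ ⟨_, hw j⟩)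

theorem Ex.of_surjective {N N' : Type} [AddCommGroup N] [Module ℤ[X] N] [AddCommGroup N']
    [Module ℤ[X] N'] (f : N →ₗ[ℤ[X]] N') (hf : Function.Surjective f) (h : Ex N') : Ex N := by
  obtain ⟨N₁, M, _, φ, w, s, hw, hs, hd⟩ := h
  obtain ⟨w', rfl⟩ := hf w
  let g : N₁.comap f.toAddMonoidHom →+ N₁ :=
    (f.toAddMonoidHom.comp (N₁.comap f.toAddMonoidHom).subtype).codRestrict N₁ (fun x => x.2)
  refine ⟨N₁.comap f.toAddMonoidHom, M, _, φ.comp g, w', s, fun j => ?_, hs, ?_⟩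
  · rw [AddSubgroup.mem_comap]
    have := hw j
    rwa [← map_smul] at this
  · convert hd using 2 with j
    show φ (g _) = _
    congr 1
    apply Subtype.ext
    show f ((X ^ (s * j) : ℤ[X]) • w') = _
    rw [map_smul]

theorem Ex.of_injective {N N' : Type} [AddCommGroup N] [Module ℤ[X] N] [AddCommGroup N']
    [Module ℤ[X] N'] (f : N' →ₗ[ℤ[X]] N) (hf : Function.Injective f) (h : Ex N') : Ex N := by
  obtain ⟨N₁, M, _, φ, w, s, hw, hs, hd⟩ := h
  let e := N₁.equivMapOfInjective f.toAddMonoidHom hf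
  refine ⟨N₁.map f.toAddMonoidHom, M, _, φ.comp e.symm.toAddMonoidHom, f w, s, fun j => ?_, hs, ?_⟩
  · rw [← map_smul]
    exact ⟨_, hw j, rfl⟩
  · convert hd using 2 with j
    show φ (e.symm _) = _
    congr 1
    rw [AddEquiv.symm_apply_eq]
    apply Subtype.ext
    show (X ^ (s * j) : ℤ[X]) • f w = f ((X ^ (s * j) : ℤ[X]) • w)
    rw [map_smul]

/-- quasi-unipotence with a nilpotent part -/
def QP (N : Type) [AddCommGroup N] [Module ℤ[X] N] : Prop :=
  ∀ v : N, ∃ a m k : ℕ, 0 < m ∧ (X ^ a * (X ^ m - 1) ^ k : ℤ[X]) • v = 0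

theorem ex_quot {A L : Type} [CommRing A] [Field L] [CharZero L] (f : AbsoluteValue L ℝ)
    [Module ℤ[X] A] (x : A) (hx : ∀ n : ℕ, (X ^ n : ℤ[X]) • (1 : A) = x ^ n) (ψ : A →+* L)
    (h : 1 < f (ψ x)) : Ex A := by
  obtain ⟨s, hs, hd⟩ := exists_pow_abv f (ψ x) h
  refine ⟨⊤, L, _, ψ.toAddMonoidHom.comp (⊤ : AddSubgroup A).subtype, 1, s, fun _ => trivial, hs, ?_⟩
  refine Dis.congr (fun j => ?_) hd
  show ψ ((X ^ (s * j) : ℤ[X]) • (1 : A)) = _
  rw [hx, map_pow, pow_mul]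

theorem ex_alg {A k : Type} [CommRing A] [CommRing k] [Nontrivial k] [Algebra k A]
    [Module ℤ[X] A] (x : A) (hx : ∀ n : ℕ, (X ^ n : ℤ[X]) • (1 : A) = x ^ n)
    (h : ∀ q : k[X], aeval x q = 0 → q = 0) : Ex A := by
  refine ⟨⊤, A, _, (⊤ : AddSubgroup A).subtype, 1, 1, fun _ => trivial, one_pos, ?_⟩
  have hd := dis_of_poly (k := k) x (fun q _ hq => h q hq)
  refine Dis.congr (fun j => ?_) hd
  show (X ^ (1 * j) : ℤ[X]) • (1 : A) = _
  rw [hx, one_mul]

/-- algebraic elements over a finite field are zero or roots of unity -/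
theorem root_of_unity {A : Type} [CommRing A] [IsDomain A] {p : ℕ} [hp : Fact p.Prime]
    [Algebra (ZMod p) A] {x : A} (hx : IsIntegral (ZMod p) x) (hx0 : x ≠ 0) :
    ∃ m : ℕ, 0 < m ∧ x ^ m = 1 := by
  have h1 : Module.Finite (ZMod p) (Algebra.adjoin (ZMod p) {x}) :=
    Module.Finite.iff_fg.2 hx.fg_adjoin_singleton
  have h2 : Finite (Algebra.adjoin (ZMod p) {x}) := Module.finite_of_finite (ZMod p)
  let y : Algebra.adjoin (ZMod p) {x} := ⟨x, Algebra.self_mem_adjoin_singleton _ x⟩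
  obtain ⟨i, j, hij, h⟩ := Finite.exists_ne_map_eq_of_infinite (fun n : ℕ => y ^ n)
  have h3 : x ^ i = x ^ j := congrArg Subtype.val h
  wlog hlt : i < j generalizing i j
  · exact this j i hij.symm h.symm h3.symm (lt_of_le_of_ne (not_lt.1 hlt) hij.symm)
  refine ⟨j - i, by omega, ?_⟩
  have h4 : x ^ i * x ^ (j - i) = x ^ i * 1 := by
    rw [← pow_add, mul_one, Nat.add_sub_cancel' hlt.le, h3]
  exact mul_left_cancel₀ (pow_ne_zero i hx0) h4

/-- the arithmetic part: Kronecker's theorem with all places -/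
theorem exists_place (K : Type) [Field K] [NumberField K] (y : K) (hy : y ≠ 0)
    (h1 : ∀ m : ℕ, 0 < m → y ^ m ≠ 1) :
    ∃ (L : Type) (_ : Field L) (_ : CharZero L) (f : AbsoluteValue L ℝ) (ψ : K →+* L),
      1 < f (ψ y) := by
  by_cases hi : IsIntegral ℤ y
  · have h2 : ∃ φ : K →+* ℂ, 1 < ‖φ y‖ := by
      by_contra hcon
      push Not at hcon
      obtain ⟨n, hn, h3⟩ := NumberField.Embeddings.pow_eq_one_of_norm_le_one K ℂ hy hi hcon
      exact h1 n hn h3
    obtain ⟨φ, hφ⟩ := h2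
    exact ⟨ℂ, inferInstance, inferInstance, NormedField.toAbsoluteValue ℂ, φ, hφ⟩
  · have h2 : ∃ v : IsDedekindDomain.HeightOneSpectrum (NumberField.RingOfIntegers K),
        1 < v.valuation K y := by
      by_contra hcon
      push Not at hcon
      obtain ⟨z, hz⟩ := IsDedekindDomain.HeightOneSpectrum.mem_integers_of_valuation_le_one K y hcon
      apply hi
      rw [← hz]
      exact z.2
    obtain ⟨v, hv⟩ := h2
    refine ⟨K, inferInstance, inferInstance, NumberField.HeightOneSpectrum.adicAbv K v,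
      RingHom.id K, ?_⟩
    rw [RingHom.id_apply, NumberField.HeightOneSpectrum.adicAbv_def]
    have h3 := WithZeroMulInt.toNNReal_strictMono
      (NumberField.HeightOneSpectrum.one_lt_absNorm_nnreal v) hv
    rw [map_one] at h3
    exact_mod_cast h3

/-- algebraic elements of domains of characteristic zero -/
theorem alg_case {A K : Type} [CommRing A] [Field K] [CharZero K] (i : A →+* K)
    (hi : Function.Injective i) (x : A) (hgen : ∀ a : A, ∃ q : ℤ[X], aeval x q = a) {q : ℤ[X]}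
    (hq0 : q ≠ 0) (hq : aeval x q = 0) (hx0 : x ≠ 0) (hxm : ∀ m : ℕ, 0 < m → x ^ m ≠ 1) :
    ∃ (L : Type) (_ : Field L) (_ : CharZero L) (f : AbsoluteValue L ℝ) (ψ : A →+* L),
      1 < f (ψ x) := by
  have haev : ∀ r : ℤ[X], i (aeval x r) = aeval (i x) r := by
    intro r
    exact (aeval_algHom_apply i.toIntAlgHom x r).symm
  have hyalg : IsAlgebraic ℚ (i x) := by
    refine ⟨q.map (Int.castRingHom ℚ), ?_, ?_⟩
    · rw [Ne, Polynomial.map_eq_zero_iff (RingHom.injective_int _)]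
      exact hq0
    · rw [aeval_def, eval₂_map]
      have h1 : (algebraMap ℚ K).comp (Int.castRingHom ℚ) = algebraMap ℤ K :=
        RingHom.ext_int _ _
      rw [h1, ← aeval_def, ← haev, hq, map_zero]
  have hfin : FiniteDimensional ℚ (IntermediateField.adjoin ℚ {i x}) :=
    IntermediateField.adjoin.finiteDimensional hyalg.isIntegral
  have hnf : NumberField (IntermediateField.adjoin ℚ {i x}) := ⟨⟩
  have hmem : ∀ a : A, i a ∈ IntermediateField.adjoin ℚ {i x} := by
    intro a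
    obtain ⟨r, rfl⟩ := hgen a
    rw [haev, aeval_eq_sum_range]
    exact sum_mem fun j _ => zsmul_mem (pow_mem (IntermediateField.mem_adjoin_simple_self ℚ (i x)) j) _
  let θ : A →+* IntermediateField.adjoin ℚ {i x} :=
    { toFun := fun a => ⟨i a, hmem a⟩
      map_one' := Subtype.ext (map_one i)
      map_mul' := fun a b => Subtype.ext (map_mul i a b)
      map_zero' := Subtype.ext (map_zero i)
      map_add' := fun a b => Subtype.ext (map_add i a b) }
  have hθ : Function.Injective θ := fun a b h => hi (congrArg Subtype.val h)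
  obtain ⟨L, h1, h2, f, ψ, hψ⟩ := exists_place (IntermediateField.adjoin ℚ {i x}) (θ x)
    (fun h => hx0 (hθ (by rw [h, map_zero])))
    (fun m hm h => hxm m hm (hθ (by rw [map_pow, h, map_one])))
  exact ⟨L, h1, h2, f, ψ.comp θ, hψ⟩

/-- prime cyclic modules -/
theorem prime_case (P : Ideal ℤ[X]) [hP : P.IsPrime] (h : ¬ Ex (ℤ[X] ⧸ P)) : QP (ℤ[X] ⧸ P) := by
  classical
  set x : ℤ[X] ⧸ P := Ideal.Quotient.mk P X with hx
  have hsm : ∀ (q : ℤ[X]) (v : ℤ[X] ⧸ P), q • v = Ideal.Quotient.mk P q * v := by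
    intro q v
    obtain ⟨r, rfl⟩ := Ideal.Quotient.mk_surjective v
    rw [← map_mul]; rfl
  have hx1 : ∀ n : ℕ, (X ^ n : ℤ[X]) • (1 : ℤ[X] ⧸ P) = x ^ n := by
    intro n
    rw [hsm, map_pow, mul_one]
  have haev : ∀ q : ℤ[X], aeval x q = Ideal.Quotient.mk P q := by
    intro q
    have h3 : (aeval x : ℤ[X] →ₐ[ℤ] ℤ[X] ⧸ P) = Ideal.Quotient.mkₐ ℤ P := by
      apply Polynomial.algHom_ext
      rw [aeval_X]; rfl
    rw [h3]; rfl
  -- it suffices that `x` is zero or a root of unity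
  suffices hsuff : x = 0 ∨ ∃ m : ℕ, 0 < m ∧ x ^ m = 1 by
    intro v
    rcases hsuff with h0 | ⟨m, hm, h0⟩
    · refine ⟨1, 1, 0, one_pos, ?_⟩
      rw [hsm]
      simp [← hx, h0]
    · refine ⟨0, m, 1, hm, ?_⟩
      rw [hsm]
      simp [← hx, h0]
  by_contra hcon
  push Not at hcon
  obtain ⟨hx0, hxm⟩ := hcon
  apply h
  obtain ⟨p, hp⟩ := CharP.exists (ℤ[X] ⧸ P)
  rcases CharP.char_is_prime_or_zero (ℤ[X] ⧸ P) p with hpp | hp0
  · have hfp : Fact p.Prime := ⟨hpp⟩
    let _ : Algebra (ZMod p) (ℤ[X] ⧸ P) := ZMod.algebra _ p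
    refine ex_alg (k := ZMod p) x hx1 fun q hq => ?_
    by_contra hq0
    have h1 : IsAlgebraic (ZMod p) x := ⟨q, hq0, hq⟩
    obtain ⟨m, hm, h2⟩ := root_of_unity h1.isIntegral hx0
    exact hxm m hm h2
  · subst hp0
    have hcz : CharZero (ℤ[X] ⧸ P) := CharP.charP_to_charZero _
    by_cases halg : ∃ q : ℤ[X], q ≠ 0 ∧ aeval x q = 0
    · obtain ⟨q, hq0, hq⟩ := halg
      have hinj : Function.Injective (algebraMap (ℤ[X] ⧸ P) (FractionRing (ℤ[X] ⧸ P))) :=
        IsFractionRing.injective _ _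
      have hcK : CharZero (FractionRing (ℤ[X] ⧸ P)) := charZero_of_injective_algebraMap hinj
      obtain ⟨L, _, _, f, ψ, hψ⟩ := alg_case (algebraMap (ℤ[X] ⧸ P) (FractionRing (ℤ[X] ⧸ P))) hinj x
        (fun a => by
          obtain ⟨r, rfl⟩ := Ideal.Quotient.mk_surjective a
          exact ⟨r, haev r⟩) hq0 hq hx0 hxm
      exact ex_quot f x hx1 ψ hψ
    · push Not at halg
      refine ex_alg (k := ℤ) x hx1 fun q hq => ?_
      by_contra hq0
      exact halg q hq0 hq

theorem dvd_aux (m m' k : ℕ) : ((X ^ m - 1) ^ k : ℤ[X]) ∣ (X ^ (m * m') - 1) ^ k := by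
  refine pow_dvd_pow_of_dvd ?_ k
  rw [pow_mul]
  exact sub_one_dvd_pow_sub_one _ _

/-- finitely generated modules -/
theorem fg_case (N : Type) [AddCommGroup N] [Module ℤ[X] N] [hN : Module.Finite ℤ[X] N] :
    ¬ Ex N → QP N := by
  refine IsNoetherianRing.induction_on_isQuotientEquivQuotientPrime ℤ[X] (M := N) hN
    (motive := fun N _ _ _ => ¬ Ex N → QP N) ?_ ?_ ?_
  · intro N _ _ _ _ _ v
    exact ⟨0, 1, 0, one_pos, Subsingleton.elim _ _⟩
  · intro N _ _ _ p e h
    have h1 : ¬ Ex (ℤ[X] ⧸ p.1) := fun h2 => h (h2.of_surjective e.toLinearMap e.surjective)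
    have := p.2
    have h2 := prime_case p.1 h1
    intro v
    obtain ⟨a, m, k, hm, h3⟩ := h2 (e v)
    refine ⟨a, m, k, hm, ?_⟩
    apply e.injective
    rw [map_smul, h3, map_zero]
  · intro N₁ _ _ _ N₂ _ _ _ N₃ _ _ _ f g hf hg hfg ih1 ih3 h
    have h1 := ih1 fun h2 => h (h2.of_injective f hf)
    have h3 := ih3 fun h2 => h (h2.of_surjective g hg)
    intro v
    obtain ⟨a, m, k, hm, hv⟩ := h3 (g v)
    rw [← map_smul] at hv
    obtain ⟨w, hw⟩ := (hfg _).1 hv
    obtain ⟨a', m', k', hm', hw'⟩ := h1 w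
    refine ⟨a' + a, m' * m, k' + k, Nat.mul_pos hm' hm, ?_⟩
    obtain ⟨c, hc⟩ := dvd_aux m m' k
    obtain ⟨c', hc'⟩ := dvd_aux m' m k'
    have e : (X ^ (a' + a) * (X ^ (m' * m) - 1) ^ (k' + k) : ℤ[X]) =
        (c * c') * ((X ^ a' * (X ^ m' - 1) ^ k') * (X ^ a * (X ^ m - 1) ^ k)) := by
      rw [pow_add, pow_add _ k' k, hc']
      rw [show m' * m = m * m' from mul_comm _ _, hc]
      ring
    have h5 : ((X ^ a' * (X ^ m' - 1) ^ k') * (X ^ a * (X ^ m - 1) ^ k) : ℤ[X]) • v = 0 := by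
      rw [mul_smul, ← hw, ← map_smul, hw', map_zero]
    rw [e, mul_smul, h5, smul_zero]

/-- **modules without dissociate orbits are quasi-unipotent** -/
theorem qp_of_not_ex (N : Type) [AddCommGroup N] [Module ℤ[X] N] (h : ¬ Ex N) : QP N := by
  intro v
  have h1 : ¬ Ex (Submodule.span ℤ[X] {v}) := fun h2 =>
    h (h2.of_injective (Submodule.span ℤ[X] {v}).subtype Subtype.val_injective)
  obtain ⟨a, m, k, hm, h3⟩ := fg_case _ h1 ⟨v, Submodule.mem_span_singleton_self v⟩
  exact ⟨a, m, k, hm, congrArg Subtype.val h3⟩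

end Run7.h190.M
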