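import Pool.Agent.Run7.h190.Cst

/-! Möbius orthogonality of the orbits of tame unitaries and of the products of functionals. -/

set_option autoImplicit false
set_option linter.unusedSectionVars false

open Finset Filter Topology
open scoped InnerProductSpace ComplexOrder

namespace Run7.h190.S

open Pool.Agent.TH261.AB Pool.Agent.TH261.NP Pool.Agent.Helper188.NCM Pool.Agent.W661.Nrm
open Run7.h190.G Run7.h190.H

variable {U : Type} [CStarAlgebra U]

/-- the restriction to the unitary group -/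
def sg (α : U →⋆ₐ[ℂ] U) : unitary U →* unitary U where
  toFun g := ⟨α g, by
    constructor
    · rw [← map_star, ← map_mul, Unitary.star_mul_self_of_mem g.2, map_one]
    · rw [← map_star, ← map_mul, Unitary.mul_star_self_of_mem g.2, map_one]⟩
  map_one' := Subtype.ext (by simp)
  map_mul' g h := Subtype.ext (by simp)

theorem sg_iter (α : U →⋆ₐ[ℂ] U) (n : ℕ) (g : unitary U) :
    ((((sg α)^[n]) g : unitary U) : U) = (α^[n]) (g : U) := by
  induction n generalizing g with
  | zero => rfl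
  | succ n ih => rw [Function.iterate_succ_apply, Function.iterate_succ_apply, ih]; rfl

/-- tame unitaries -/
theorem orbitU {α : U →⋆ₐ[ℂ] U} {M : ℕ} {g : unitary U} (h : TN (sg α) M g) (r : ℕ)
    {K : Type} [NormedAddCommGroup K] [InnerProductSpace ℂ K] [CompleteSpace K]
    (π : U →⋆ₐ[ℂ] (K →L[ℂ] K)) :
    ∃ (L : Type) (_ : Group L) (_ : Group.IsNilpotent L) (k : ℕ) (x : ℕ → L)
      (ρ : L →* (K ≃ₗᵢ[ℂ] K)), PS k x ∧ x 0 = 1 ∧
      ∀ n ξ, π ((α^[M * n + r]) (g : U)) ξ = π ((α^[r]) (g : U)) (ρ (x n) ξ) := by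
  obtain ⟨L, hL, k, x, hx, hx0, h1⟩ := h.orbit r
  refine ⟨L, inferInstance, hL, k, x, repU L.subtype π, hx, hx0, fun n ξ => ?_⟩
  rw [← sg_iter, h1, Submonoid.coe_mul, sg_iter, map_mul]
  rfl

theorem goodP_of_TN {α : U →⋆ₐ[ℂ] U} {M : ℕ} (hM : 0 < M) {g : unitary U}
    (h : TN (sg α) M g) : GoodP α (g : U) := by
  intro τ K _ _ _ π ξ
  refine vav_of_residues (C := ‖(g : U)‖ * ‖ξ‖) (by positivity) (fun n => ?_) hM fun r hr => ?_
  · rw [norm_smul, norm_smul, norm_ee, one_mul]
    calc _ ≤ 1 * (‖(g : U)‖ * ‖ξ‖) := by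
          gcongr
          · exact norm_mob_le _
          · refine (ContinuousLinearMap.le_opNorm _ _).trans ?_
            gcongr
            exact (NonUnitalStarAlgHom.norm_apply_le π _).trans (iter_norm α n _)
      _ = _ := one_mul _
  · obtain ⟨L, iL, hL, k, x, ρ, hx, hx0, h1⟩ := orbitU h r π
    have h2 := mob_null hx hx0 ρ (f := fun j => ((M : ℝ) * j + r) * τ)
      ((((IsPF.const (M : ℝ)).mul IsPF.id).add (IsPF.const (r : ℝ))).mul (IsPF.const τ)) hM hr ξ
    have h3 := ((π ((α^[r]) (g : U))).continuous.tendsto 0).comp h2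
    rw [map_zero] at h3
    refine h3.congr fun N => ?_
    rw [Function.comp_apply, vav, vav, map_smul, map_sum]
    congr 1
    refine Finset.sum_congr rfl fun j _ => ?_
    rw [h1, map_smul, map_smul]
    congr 3
    push_cast
    ring

/-! ### products of matrix coefficients -/

/-- matrix coefficients along polynomial sequences of nilpotent groups -/
def IsMC (F : ℕ → ℂ) : Prop :=
  ∃ (L : Type) (_ : Group L) (_ : Group.IsNilpotent L) (k : ℕ) (x : ℕ → L) (K : Type)
    (_ : NormedAddCommGroup K) (_ : InnerProductSpace ℂ K) (_ : CompleteSpace K)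
    (ρ : L →* (K ≃ₗᵢ[ℂ] K)) (ζ ω : K), PS k x ∧ x 0 = 1 ∧ ∀ n, F n = ⟪ζ, ρ (x n) ω⟫_ℂ

theorem IsMC.one : IsMC fun _ => 1 := by
  refine ⟨PUnit, inferInstance, inferInstance, 0, fun _ => 1, ℂ, inferInstance, inferInstance,
    inferInstance, 1, 1, 1, fun n => rfl, rfl, fun n => ?_⟩
  show (1 : ℂ) = ⟪(1 : ℂ), (1 : ℂ)⟫_ℂ
  simp

theorem IsMC.mul {F F' : ℕ → ℂ} (h : IsMC F) (h' : IsMC F') : IsMC fun n => F n * F' n := by
  obtain ⟨L, i1, i2, k, x, K, i3, i4, i5, ρ, ζ, ω, hx, hx0, hF⟩ := h
  obtain ⟨L', i1', i2', k', x', K', i3', i4', i5', ρ', ζ', ω', hx', hx0', hF'⟩ := h'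
  obtain ⟨T, _, _, _, π, v, hv, hπ⟩ := exists_tens (ρ.comp (MonoidHom.fst L L'))
    (ρ'.comp (MonoidHom.snd L L'))
  refine ⟨L × L', inferInstance, inferInstance, max k k', fun n => (x n, x' n), T, inferInstance,
    inferInstance, inferInstance, π, v (ζ, ζ'), v (ω, ω'),
    (hx.mono (le_max_left _ _)).prod (hx'.mono (le_max_right _ _)), Prod.ext hx0 hx0', fun n => ?_⟩
  show F n * F' n = _
  rw [hπ, hv, hF, hF']
  rfl

theorem IsMC.mob {F : ℕ → ℂ} (h : IsMC F) {f : ℕ → ℝ} (hf : IsPF f) {m r : ℕ} (hm : 0 < m)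
    (hr : r < m) : Tendsto (vav fun j => mob (m * j + r) * (ee (f j) * F j)) atTop (𝓝 0) := by
  obtain ⟨L, i1, i2, k, x, K, i3, i4, i5, ρ, ζ, ω, hx, hx0, hF⟩ := h
  have h1 := mob_null hx hx0 ρ hf hm hr ω
  have h2 := (continuous_const.inner continuous_id : Continuous fun y : K =>
    inner ℂ ζ y).tendsto 0
  rw [inner_zero_right] at h2
  refine (h2.comp h1).congr fun N => ?_
  rw [Function.comp_apply, vav, vav, inner_smul_right, inner_sum]
  congr 1
  refine Finset.sum_congr rfl fun j _ => ?_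
  rw [inner_smul_right, inner_smul_right, hF]

theorem functional_rep (U : Type) [CStarAlgebra U] : ∃ (K : Type) (_ : NormedAddCommGroup K)
    (_ : InnerProductSpace ℂ K) (_ : CompleteSpace K) (π : U →⋆ₐ[ℂ] (K →L[ℂ] K)),
    ∀ ρ : U →L[ℂ] ℂ, ∃ ζ ω : K, ∀ a, ρ a = ⟪ζ, π a ω⟫_ℂ := by
  obtain ⟨K, i1, i2, i3, π, hπ⟩ := H759R2.Kad.prove7_rep H759R2.Kad.prove7_jord
    (H759R2.Kad.prove7_univ H759R2.Kad.prove7_gns) U
  refine ⟨K, i1, i2, i3, π, fun ρ => ?_⟩
  obtain ⟨ζ, ω, hρ, -⟩ := hπ ρ.toLinearMap ‖ρ‖ (norm_nonneg _) fun a => ρ.le_opNorm a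
  exact ⟨ζ, ω, fun a => hρ a⟩

theorem isMC_of_TN {α : U →⋆ₐ[ℂ] U} {M : ℕ} {g : unitary U} (h : TN (sg α) M g) (r : ℕ)
    (ρ : U →L[ℂ] ℂ) : IsMC fun n => ρ ((α^[M * n + r]) (g : U)) := by
  obtain ⟨K, _, _, _, π, hπ⟩ := functional_rep U
  obtain ⟨ζ, ω, hρ⟩ := hπ ρ
  obtain ⟨L, iL, hL, k, x, ρ', hx, hx0, h1⟩ := orbitU h r π
  refine ⟨L, iL, hL, k, x, K, inferInstance, inferInstance, inferInstance, ρ',
    ContinuousLinearMap.adjoint (π ((α^[r]) (g : U))) ζ, ω, hx, hx0, fun n => ?_⟩
  show ρ ((α^[M * n + r]) (g : U)) = _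
  rw [hρ, h1, ContinuousLinearMap.adjoint_inner_left]

/-- unitaries which are tame for some step -/
def TU (α : U →⋆ₐ[ℂ] U) (g : U) : Prop :=
  ∃ w : unitary U, (w : U) = g ∧ ∃ M : ℕ, 0 < M ∧ TN (sg α) M w

theorem TU.goodP {α : U →⋆ₐ[ℂ] U} {g : U} (h : TU α g) : GoodP α g := by
  obtain ⟨w, rfl, M, hM, h1⟩ := h
  exact goodP_of_TN hM h1

/-- products of functionals on tame unitaries -/
theorem mob_list {α : U →⋆ₐ[ℂ] U} (L : List ((U →L[ℂ] ℂ) × U)) (hL : ∀ p ∈ L, TU α p.2) (τ : ℝ) :
    Tendsto (vav fun n => mob n * (ee (n * τ) * (L.map fun p => p.1 ((α^[n]) p.2)).prod))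
      atTop (𝓝 0) := by
  -- a common step
  have h1 : ∃ M : ℕ, 0 < M ∧ ∀ p ∈ L, ∃ w : unitary U, (w : U) = p.2 ∧ TN (sg α) M w := by
    induction L with
    | nil => exact ⟨1, one_pos, fun p hp => absurd hp List.not_mem_nil⟩
    | cons q L ih =>
      obtain ⟨M, hM, h2⟩ := ih fun p hp => hL p (List.mem_cons_of_mem _ hp)
      obtain ⟨w, hw, M', hM', h3⟩ := hL q List.mem_cons_self
      refine ⟨M * M', Nat.mul_pos hM hM', fun p hp => ?_⟩
      rcases List.mem_cons.1 hp with rfl | hp
      · exact ⟨w, hw, by rw [mul_comm]; exact h3.mul M⟩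
      · obtain ⟨w, hw, h4⟩ := h2 p hp
        exact ⟨w, hw, h4.mul M'⟩
  obtain ⟨M, hM, h2⟩ := h1
  have hb : ∀ L : List ((U →L[ℂ] ℂ) × U), ∃ C : ℝ, 0 ≤ C ∧
      ∀ n, ‖(L.map fun p => p.1 ((α^[n]) p.2)).prod‖ ≤ C := by
    intro L
    induction L with
    | nil => exact ⟨1, zero_le_one, fun n => by simp⟩
    | cons p L ih =>
      obtain ⟨C, hC0, hC⟩ := ih
      refine ⟨‖p.1‖ * ‖p.2‖ * C, by positivity, fun n => ?_⟩
      rw [List.map_cons, List.prod_cons, norm_mul]
      have h2 : ‖p.1 ((α^[n]) p.2)‖ ≤ ‖p.1‖ * ‖p.2‖ := by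
        refine (p.1.le_opNorm _).trans ?_
        have := iter_norm α n p.2
        gcongr
      have h3 := hC n
      gcongr
  obtain ⟨C, hC0, hC⟩ := hb L
  refine vav_of_residues hC0 (fun n => ?_) hM fun r hr => ?_
  · rw [norm_mul, norm_mul, norm_ee, one_mul]
    exact (mul_le_of_le_one_left (norm_nonneg _) (norm_mob_le n)).trans (hC n)
  · have h3 : IsMC fun n => (L.map fun p => p.1 ((α^[M * n + r]) p.2)).prod := by
      clear hL hC
      induction L with
      | nil => simpa using IsMC.one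
      | cons p L ih =>
        obtain ⟨w, hw, h4⟩ := h2 p List.mem_cons_self
        have h5 := (isMC_of_TN h4 r p.1).mul (ih fun q hq => h2 q (List.mem_cons_of_mem _ hq))
        rw [hw] at h5
        simp only [List.map_cons, List.prod_cons]
        exact h5
    have h4 := h3.mob (f := fun j => ((M : ℝ) * j + r) * τ)
      ((((IsPF.const (M : ℝ)).mul IsPF.id).add (IsPF.const (r : ℝ))).mul (IsPF.const τ)) hM hr
    refine h4.congr fun N => ?_
    rw [vav, vav]
    congr 1
    refine Finset.sum_congr rfl fun j _ => ?_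
    congr 3
    push_cast
    ring

variable {α : U →⋆ₐ[ℂ] U}

/-- all elements of the generated algebra -/
theorem good_all {S : Set U} (hσ : ∀ g ∈ S, TU α g)
    (hd : (Submodule.span ℂ (Prods α S)).topologicalClosure = ⊤)
    {W : Type} [CStarAlgebra W] (γ : W →⋆ₐ[ℂ] W) (ι : U →⋆ₐ[ℂ] W)
    (hι : ∀ a, γ (ι a) = ι (α a))
    (hgen : (Submodule.span ℂ (Prods γ (Set.range ι))).topologicalClosure = ⊤) :
    ∀ x, Good γ x := by
  have hS : ∀ x ∈ Prods γ (Set.range ι), Good γ x := by
    rintro x ⟨_, ⟨a, rfl⟩, v, w, hv, hw, rfl⟩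
    have hcont : Continuous fun a : U => v * ι a * w :=
      (continuous_const.mul (AddMonoidHomClass.continuous_of_bound ι 1 fun x => by
        rw [one_mul]; exact NonUnitalStarAlgHom.norm_apply_le ι x)).mul continuous_const
    have h1 : ∀ a ∈ Submodule.span ℂ (Prods α S), Good γ (v * ι a * w) := by
      intro a ha
      induction ha using Submodule.span_induction with
      | mem x hx =>
        obtain ⟨g, hg, v', w', hv', hw', rfl⟩ := hx
        have h2 := GoodP.ext2 (TU.goodP (hσ g hg)) γ ι hι (hv.mul (hv'.map hι))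
          ((hw'.map hι).mul hw)
        have e : v * ι (v' * g * w') * w = v * ι v' * ι g * (ι w' * w) := by
          rw [map_mul, map_mul]; simp only [mul_assoc]
        rw [e]
        exact h2
      | zero => rw [map_zero, mul_zero, zero_mul]; exact Good.zero γ
      | add x y _ _ hx hy => rw [map_add, mul_add, add_mul]; exact hx.add hy
      | smul c x _ hx => rw [map_smul, mul_smul_comm, smul_mul_assoc]; exact hx.smul c
    have h2 : a ∈ closure (Submodule.span ℂ (Prods α S) : Set U) := by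
      have : a ∈ (Submodule.span ℂ (Prods α S)).topologicalClosure := by
        rw [hd]; trivial
      exact this
    refine Good.closed (S := (fun a : U => v * ι a * w) ''
      (Submodule.span ℂ (Prods α S) : Set U))
      ?_ _ (image_closure_subset_closure_image hcont ⟨a, h2, rfl⟩)
    rintro _ ⟨a, ha, rfl⟩
    exact h1 a ha
  intro x
  refine Good.of_span hS x ?_
  rw [hgen]; trivial

/-- **Products of functionals.** -/
theorem multi {S : Set U} (hσ : ∀ g ∈ S, TU α g)
    (hd : (Submodule.span ℂ (Prods α S)).topologicalClosure = ⊤)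
    {W : Type} [CStarAlgebra W] (γ : W →⋆ₐ[ℂ] W) (ι : U →⋆ₐ[ℂ] W)
    (hι : ∀ a, γ (ι a) = ι (α a))
    (hgen : (Submodule.span ℂ (Prods γ (Set.range ι))).topologicalClosure = ⊤)
    (L : List ((W →L[ℂ] ℂ) × W)) :
    Tendsto (vav fun n => mob n * (L.map fun p => p.1 ((γ^[n]) p.2)).prod) atTop (𝓝 0) := by
  have hb1 : ∀ (ρ : W →L[ℂ] ℂ) (a : W) (n : ℕ), ‖ρ ((γ^[n]) a)‖ ≤ ‖ρ‖ * ‖a‖ := by
    intro ρ a n
    refine (ρ.le_opNorm _).trans ?_
    have := iter_norm γ n a
    gcongr
  have hb2' : ∀ (ρ : U →L[ℂ] ℂ) (a : U) (n : ℕ), ‖ρ ((α^[n]) a)‖ ≤ ‖ρ‖ * ‖a‖ := by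
    intro ρ a n
    refine (ρ.le_opNorm _).trans ?_
    have := iter_norm α n a
    gcongr
  have hb1' : ∀ L : List ((W →L[ℂ] ℂ) × W), ∃ C : ℝ, 0 ≤ C ∧
      ∀ n, ‖(L.map fun p => p.1 ((γ^[n]) p.2)).prod‖ ≤ C := by
    intro L
    induction L with
    | nil => exact ⟨1, zero_le_one, fun n => by simp⟩
    | cons p L ih =>
      obtain ⟨C, hC0, hC⟩ := ih
      refine ⟨‖p.1‖ * ‖p.2‖ * C, by positivity, fun n => ?_⟩
      rw [List.map_cons, List.prod_cons, norm_mul]
      have h2 := hb1 p.1 p.2 n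
      have h3 := hC n
      gcongr
  have hb2 : ∀ L : List ((U →L[ℂ] ℂ) × U), ∃ C : ℝ, 0 ≤ C ∧
      ∀ n, ‖(L.map fun p => p.1 ((α^[n]) p.2)).prod‖ ≤ C := by
    intro L
    induction L with
    | nil => exact ⟨1, zero_le_one, fun n => by simp⟩
    | cons p L ih =>
      obtain ⟨C, hC0, hC⟩ := ih
      refine ⟨‖p.1‖ * ‖p.2‖ * C, by positivity, fun n => ?_⟩
      rw [List.map_cons, List.prod_cons, norm_mul]
      have h2 := hb2' p.1 p.2 n
      have h3 := hC n
      gcongr
  have key : ∀ (L : List ((W →L[ℂ] ℂ) × W)) (L2 : List ((U →L[ℂ] ℂ) × U)),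
      (∀ p ∈ L2, p.2 ∈ S) → ∀ τ : ℝ,
      Tendsto (vav fun n => mob n * (ee (n * τ) * ((L.map fun p => p.1 ((γ^[n]) p.2)).prod *
        (L2.map fun p => p.1 ((α^[n]) p.2)).prod))) atTop (𝓝 0) := by
    intro L
    induction L with
    | nil =>
      intro L2 hL2 τ
      refine (mob_list L2 (fun p hp => hσ p.2 (hL2 p hp)) τ).congr fun N => ?_
      simp
    | cons p L ih =>
      intro L2 hL2 τ
      obtain ⟨ρ, a0⟩ := p
      obtain ⟨C, hC0, hC⟩ := hb1' L
      obtain ⟨C2, hC20, hC2⟩ := hb2 L2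
      -- the statement for one element
      set F : ℕ → ℂ := fun n => (L.map fun p => p.1 ((γ^[n]) p.2)).prod *
        (L2.map fun p => p.1 ((α^[n]) p.2)).prod with hF
      have hFb : ∀ n, ‖F n‖ ≤ C * C2 := by
        intro n
        rw [hF]
        simp only
        rw [norm_mul]
        have h1 := hC n
        have h2 := hC2 n
        gcongr
      have hwb : ∀ (τ : ℝ) n, ‖mob n * (ee (n * τ) * F n)‖ ≤ C * C2 := by
        intro τ n
        rw [norm_mul, norm_mul, norm_ee, one_mul]
        calc _ ≤ 1 * (C * C2) := by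
              gcongr
              · exact norm_mob_le _
              · exact hFb n
          _ = _ := one_mul _
      -- generators of `U`, all functionals on `U`
      have h1 : ∀ (τ : ℝ) (g : U), g ∈ S → ∀ (ψ : U →L[ℂ] ℂ), Tendsto (vav fun n =>
          (mob n * (ee (n * τ) * F n)) * ψ ((α^[n]) g)) atTop (𝓝 0) := by
        intro τ g hg ψ
        refine (ih ((ψ, g) :: L2) (fun q hq => ?_) τ).congr fun N => ?_
        · rcases List.mem_cons.1 hq with rfl | hq
          · exact hg
          · exact hL2 q hq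
        · rw [vav, vav]
          congr 1
          refine Finset.sum_congr rfl fun n _ => ?_
          rw [List.map_cons, List.prod_cons, hF]
          simp only
          ring
      -- closure
      have hcl : ∀ (D : Set W) (τ : ℝ), (∀ a ∈ D, Tendsto (vav fun n =>
          (mob n * (ee (n * τ) * F n)) * ρ ((γ^[n]) a)) atTop (𝓝 0)) →
          ∀ a ∈ closure D, Tendsto (vav fun n =>
          (mob n * (ee (n * τ) * F n)) * ρ ((γ^[n]) a)) atTop (𝓝 0) := by
        intro D τ hD a ha
        refine vav_approx fun ε hε => ?_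
        obtain ⟨b, hb, hab⟩ := Metric.mem_closure_iff.1 ha (ε / (C * C2 * ‖ρ‖ + 1)) (by positivity)
        refine ⟨_, fun n => ?_, hD b hb⟩
        rw [← mul_sub, ← map_sub, ← Pool.Agent.TH261.AB.iter_sub, norm_mul]
        have h2 := hwb τ n
        have h3 := hb1 ρ (a - b) n
        rw [dist_eq_norm] at hab
        calc _ ≤ (C * C2) * (‖ρ‖ * ‖a - b‖) := by gcongr
          _ ≤ (C * C2) * (‖ρ‖ * (ε / (C * C2 * ‖ρ‖ + 1))) := by gcongr
          _ = (C * C2 * ‖ρ‖) / (C * C2 * ‖ρ‖ + 1) * ε := by ring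
          _ ≤ 1 * ε := by
              gcongr
              rw [div_le_one (by positivity)]
              linarith
          _ = ε := one_mul _
      have hspan : ∀ (D : Set W) (τ : ℝ), (∀ a ∈ D, Tendsto (vav fun n =>
          (mob n * (ee (n * τ) * F n)) * ρ ((γ^[n]) a)) atTop (𝓝 0)) →
          ∀ a ∈ Submodule.span ℂ D, Tendsto (vav fun n =>
          (mob n * (ee (n * τ) * F n)) * ρ ((γ^[n]) a)) atTop (𝓝 0) := by
        intro D τ hD a ha
        induction ha using Submodule.span_induction with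
        | mem x hx => exact hD x hx
        | zero =>
          have h0 : ∀ n, (γ^[n]) (0 : W) = 0 := fun n => by
            have := Pool.Agent.Helper188.NCM.iter_smul γ n 0 0
            rwa [zero_smul, zero_smul] at this
          have : (vav fun n => (mob n * (ee (n * τ) * F n)) * ρ ((γ^[n]) (0 : W))) = fun _ => 0 := by
            funext N
            simp [vav, h0]
          rw [this]
          exact tendsto_const_nhds
        | add x y _ _ hx hy =>
          refine (vav_add' hx hy).congr fun N => ?_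
          rw [vav, vav]
          congr 1
          exact Finset.sum_congr rfl fun n _ => by rw [Pool.Agent.TH261.AB.iter_add, map_add, mul_add]
        | smul c x _ hx =>
          refine (vav_mul' c hx).congr fun N => ?_
          rw [vav, vav]
          congr 1
          exact Finset.sum_congr rfl fun n _ => by
            rw [Pool.Agent.Helper188.NCM.iter_smul, map_smul, smul_eq_mul]; ring
      -- products with eigenvectors
      have h2 : ∀ a ∈ Prods γ (Set.range ι), Tendsto (vav fun n =>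
          (mob n * (ee (n * τ) * F n)) * ρ ((γ^[n]) a)) atTop (𝓝 0) := by
        rintro x ⟨_, ⟨a, rfl⟩, v, w, hv, hw, rfl⟩
        have hcont : Continuous fun a : U => v * ι a * w :=
          (continuous_const.mul (AddMonoidHomClass.continuous_of_bound ι 1 fun x => by
            rw [one_mul]; exact NonUnitalStarAlgHom.norm_apply_le ι x)).mul continuous_const
        have h3 : a ∈ closure (Submodule.span ℂ (Prods α S) : Set U) := by
          have : a ∈ (Submodule.span ℂ (Prods α S)).topologicalClosure := by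
            rw [hd]; trivial
          exact this
        refine hcl ((fun a : U => v * ι a * w) ''
          (Submodule.span ℂ (Prods α S) : Set U)) τ ?_ _
          (image_closure_subset_closure_image hcont ⟨a, h3, rfl⟩)
        rintro _ ⟨a, ha, rfl⟩
        have h4 : v * ι a * w ∈ Submodule.span ℂ ((fun a : U => v * ι a * w) ''
            (Prods α S)) := by
          have hl : (fun a : U => v * ι a * w) = ((LinearMap.mulRight ℂ w).comp
            ((LinearMap.mulLeft ℂ v).comp (ι : U →ₐ[ℂ] W).toLinearMap) : U →ₗ[ℂ] W) := rfl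
          rw [hl, Submodule.span_image]
          exact ⟨a, ha, rfl⟩
        refine hspan _ τ ?_ _ h4
        rintro _ ⟨_, ⟨g, hg, v', w', hv', hw', rfl⟩, rfl⟩
        have e : v * ι (v' * g * w') * w = v * ι v' * ι g * (ι w' * w) := by
          rw [map_mul, map_mul]; simp only [mul_assoc]
        simp only [e]
        obtain ⟨l, hl, hV⟩ := hv.mul (hv'.map hι)
        obtain ⟨l', hl', hW⟩ := (hw'.map hι).mul hw
        obtain ⟨θ, rfl⟩ := exists_ee hl
        obtain ⟨θ', rfl⟩ := exists_ee hl'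
        set V := v * ι v'
        set Z := ι w' * w
        -- the functional on `U`
        have hψ : ∃ ψ : U →L[ℂ] ℂ, ∀ b, ψ b = ρ (V * ι b * Z) := by
          refine ⟨LinearMap.mkContinuous ((ρ : W →ₗ[ℂ] ℂ).comp ((LinearMap.mulRight ℂ Z).comp
            ((LinearMap.mulLeft ℂ V).comp (ι : U →ₐ[ℂ] W).toLinearMap))) (‖ρ‖ * (‖V‖ * ‖Z‖))
            fun b => ?_, fun b => rfl⟩
          show ‖ρ (V * ι b * Z)‖ ≤ _
          refine (ρ.le_opNorm _).trans ?_
          have h5 := norm_mul_le (V * ι b) Z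
          have h6 := norm_mul_le V (ι b)
          have h7 : ‖ι b‖ ≤ ‖b‖ := NonUnitalStarAlgHom.norm_apply_le ι b
          calc _ ≤ ‖ρ‖ * (‖V‖ * ‖b‖ * ‖Z‖) := by
                gcongr
                refine h5.trans ?_
                gcongr
                exact h6.trans (by gcongr)
            _ = _ := by ring
        obtain ⟨ψ, hψ⟩ := hψ
        have hn : ∀ n : ℕ, (γ^[n]) (ι g) = ι ((α^[n]) g) := by
          intro n
          generalize g = y
          induction n with
          | zero => rfl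
          | succ n ih => rw [Function.iterate_succ_apply', ih, hι, Function.iterate_succ_apply']
        refine (h1 (τ + (θ + θ')) g hg ψ).congr fun N => ?_
        rw [vav, vav]
        congr 1
        refine Finset.sum_congr rfl fun n _ => ?_
        rw [Pool.Agent.TH261.AB.iter_mul, Pool.Agent.TH261.AB.iter_mul, eig_iter hV, eig_iter hW, hn, hψ, smul_mul_assoc,
          mul_smul_comm, smul_mul_assoc, smul_smul, map_smul, smul_eq_mul,
          show (n : ℝ) * (τ + (θ + θ')) = n * τ + (n * θ' + n * θ) by ring, ee_add, ee_add]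
        ring
      have h5 : a0 ∈ closure (Submodule.span ℂ (Prods γ (Set.range ι)) : Set W) := by
        have : a0 ∈ (Submodule.span ℂ (Prods γ (Set.range ι))).topologicalClosure := by
          rw [hgen]; trivial
        exact this
      refine (hcl _ τ (hspan _ τ h2) a0 h5).congr fun N => ?_
      rw [vav, vav]
      congr 1
      refine Finset.sum_congr rfl fun n _ => ?_
      rw [List.map_cons, List.prod_cons, hF]
      simp only
      ring
  refine (key L [] (fun p hp => absurd hp List.not_mem_nil) 0).congr fun N => ?_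
  rw [vav, vav]
  congr 1
  refine Finset.sum_congr rfl fun n _ => ?_
  rw [mul_zero, ee_zero, one_mul, List.map_nil, List.prod_nil, mul_one]

end Run7.h190.S
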