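import Pool.Agent.H596Q.Lcs
import Pool.Agent.Run7.h190.Grp

/-! Unipotent endomorphisms of nilpotent groups (after P. Hall). -/

set_option autoImplicit false
set_option linter.unusedSectionVars false

open scoped commutatorElement

namespace Run7.h190.G

variable {N : Type} [Group N]

/-- the difference for a self-map -/
def De (f : N → N) (h : N) : N := h⁻¹ * f h

/-- the weighted commutators -/
inductive Fm (τ : N →* N) (E : Set N) : ℕ → ℕ → N → Prop
  | gen {e : N} (he : e ∈ E) (i : ℕ) : Fm τ E 1 i ((De τ)^[i] e)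
  | one (l j : ℕ) : Fm τ E l j 1
  | mul {l j : ℕ} {a b : N} : Fm τ E l j a → Fm τ E l j b → Fm τ E l j (a * b)
  | inv {l j : ℕ} {a : N} : Fm τ E l j a → Fm τ E l j a⁻¹
  | comm {l j l' j' : ℕ} {a b : N} : Fm τ E l j a → Fm τ E l' j' b →
      Fm τ E (l + l') (j + j') ⁅a, b⁆
  | mono {l j : ℕ} {a : N} : Fm τ E l (j + 1) a → Fm τ E l j a
  | low {l j : ℕ} {a : N} : Fm τ E (l + 1) 0 a → Fm τ E l j a

variable {τ : N →* N} {E : Set N}

theorem Fm.monoN {l j j' : ℕ} {a : N} (h : Fm τ E l j' a) (hj : j ≤ j') : Fm τ E l j a := by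
  obtain ⟨d, rfl⟩ := Nat.exists_eq_add_of_le hj
  clear hj
  induction d with
  | zero => exact h
  | succ d ih => exact ih (Fm.mono h)

theorem Fm.down {l l' j j' : ℕ} {a : N} (h : Fm τ E l' j' a) (hl : l < l') : Fm τ E l j a := by
  obtain ⟨d, rfl⟩ := Nat.exists_eq_add_of_lt hl
  clear hl
  induction d generalizing j j' with
  | zero => exact Fm.low (h.monoN (Nat.zero_le _))
  | succ d ih => exact ih (j' := 0) (Fm.low (h.monoN (Nat.zero_le _)))

theorem Fm.conj {l j l' j' : ℕ} {x y : N} (hx : Fm τ E l j x) (hy : Fm τ E l' j' y) :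
    Fm τ E l j (y * x * y⁻¹) := by
  have e : y * x * y⁻¹ = ⁅y, x⁆ * x := by rw [commutatorElement_def, inv_mul_cancel_right]
  rw [e]
  refine Fm.mul ?_ hx
  have h := Fm.comm hy hx
  rcases Nat.eq_zero_or_pos l' with rfl | hl
  · rw [zero_add] at h
    exact h.monoN (Nat.le_add_left _ _)
  · exact h.down (by omega)

theorem Fm.conj' {l j l' j' : ℕ} {x y : N} (hx : Fm τ E l j x) (hy : Fm τ E l' j' y) :
    Fm τ E l j (y⁻¹ * x * y) := by
  have := hx.conj hy.inv
  rwa [inv_inv] at this

/-- differences raise the weight -/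
theorem Fm.diff {l j : ℕ} {a : N} (h : Fm τ E l j a) : Fm τ E l (j + 1) (De τ a) := by
  induction h with
  | gen he i =>
    have := Fm.gen (τ := τ) he (i + 1)
    rwa [Function.iterate_succ_apply'] at this
  | one l j =>
    have : De τ 1 = 1 := by rw [De, map_one, inv_one, one_mul]
    rw [this]
    exact Fm.one _ _
  | @mul l j a b ha hb iha ihb =>
    have e : De τ (a * b) = (b⁻¹ * De τ a * b) * De τ b := by
      simp only [De, map_mul]; group
    rw [e]
    exact Fm.mul (iha.conj' hb) ihb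
  | @inv l j a ha iha =>
    have e : De τ a⁻¹ = a * (De τ a)⁻¹ * a⁻¹ := by
      simp only [De, map_inv]; group
    rw [e]
    exact iha.inv.conj ha
  | @comm l j l' j' a b ha hb iha ihb =>
    have e : De τ ⁅a, b⁆ = (⁅a, b⁆⁻¹ * (a * ⁅De τ a, b * De τ b⁆ * a⁻¹) * ⁅a, b⁆) *
        (b * ⁅a, De τ b⁆ * b⁻¹) := by
      simp only [De, commutatorElement_def, map_mul, map_inv]; group
    rw [e]
    have h1 : Fm τ E (l + l') (j + 1 + j') ⁅De τ a, b * De τ b⁆ := Fm.comm iha (Fm.mul hb (Fm.mono ihb))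
    have h2 : Fm τ E (l + l') (j + (j' + 1)) ⁅a, De τ b⁆ := Fm.comm ha ihb
    have h3 : j + 1 + j' = j + j' + 1 := by omega
    rw [h3] at h1
    exact Fm.mul ((h1.conj ha).conj' (Fm.comm ha hb)) (h2.conj hb)
  | mono _ ih => exact Fm.mono ih
  | low _ ih => exact Fm.low (Fm.mono ih)

theorem Fm.map {l j : ℕ} {a : N} (h : Fm τ E l j a) : Fm τ E l j (τ a) := by
  have e : τ a = a * De τ a := by rw [De, mul_inv_cancel_left]
  rw [e]
  exact Fm.mul h (Fm.mono h.diff)

theorem Fm.iter {l j : ℕ} {a : N} (h : Fm τ E l j a) (i : ℕ) : Fm τ E l j (τ^[i] a) := by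
  induction i with
  | zero => exact h
  | succ i ih => rw [Function.iterate_succ_apply']; exact ih.map

theorem Fm.diffN {l j : ℕ} {a : N} (h : Fm τ E l j a) (i : ℕ) :
    Fm τ E l (j + 1) (De (τ^[i]) a) := by
  induction i with
  | zero =>
    have : De (τ^[0]) a = 1 := by simp [De]
    rw [this]
    exact Fm.one _ _
  | succ i ih =>
    have e : De (τ^[i + 1]) a = De (τ^[i]) a * τ^[i] (De τ a) := by
      have e2 : ∀ (n : ℕ) (x y : N), τ^[n] (x * y) = τ^[n] x * τ^[n] y := by
        intro n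
        induction n with
        | zero => intro x y; rfl
        | succ n ihn => intro x y; rw [Function.iterate_succ_apply, map_mul, ihn]; rfl
      have e3 : τ a = a * De τ a := by rw [De, mul_inv_cancel_left]
      rw [De, Function.iterate_succ_apply, e3, e2, ← mul_assoc]
      simp [De]
    rw [e]
    exact Fm.mul ih (h.diff.iter i)

/-- the lower central series, starting with the index `1` -/
def lc (l : ℕ) : Subgroup N := (⊤ : Subgroup N).lowerCentralSeries (l - 1)

instance lc_normal (l : ℕ) : (lc l : Subgroup N).Normal := by rw [lc]; infer_instance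

theorem lc_comm (l l' : ℕ) {a b : N} (ha : a ∈ lc l) (hb : b ∈ lc l') : ⁅a, b⁆ ∈ lc (l + l') := by
  have h1 := Pool.Agent.H596Q.lcs_comm (G := N) (l' - 1) (l - 1)
    (Subgroup.commutator_mem_commutator ha hb)
  exact Subgroup.lowerCentralSeries_antitone _ (by omega) h1

theorem lc_anti {l l' : ℕ} (h : l ≤ l') : (lc l' : Subgroup N) ≤ lc l :=
  Subgroup.lowerCentralSeries_antitone _ (by omega)

/-- weighted commutators are in the lower central series -/
theorem Fm.mem {k : ℕ} (hE : ∀ e ∈ E, ∀ i, k ≤ i → (De τ)^[i] e ∈ (lc 2 : Subgroup N)) {l j : ℕ}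
    {a : N} (h : Fm τ E l j a) : a ∈ (lc l : Subgroup N) ∧ (l * k ≤ j → a ∈ (lc (l + 1) : Subgroup N)) := by
  induction h with
  | gen he i =>
    refine ⟨?_, fun hk => hE _ he i (by omega)⟩
    rw [lc]
    simp
  | one l j => exact ⟨Subgroup.one_mem _, fun _ => Subgroup.one_mem _⟩
  | mul _ _ iha ihb =>
    exact ⟨Subgroup.mul_mem _ iha.1 ihb.1, fun hk => Subgroup.mul_mem _ (iha.2 hk) (ihb.2 hk)⟩
  | inv _ iha => exact ⟨Subgroup.inv_mem _ iha.1, fun hk => Subgroup.inv_mem _ (iha.2 hk)⟩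
  | @comm l j l' j' a b _ _ iha ihb =>
    refine ⟨lc_comm l l' iha.1 ihb.1, fun hk => ?_⟩
    rw [add_mul] at hk
    rcases (by omega : l * k ≤ j ∨ l' * k ≤ j') with h1 | h1
    · have := lc_comm (l + 1) l' (iha.2 h1) ihb.1
      rwa [show l + 1 + l' = l + l' + 1 by omega] at this
    · exact lc_comm l (l' + 1) iha.1 (ihb.2 h1)
  | mono _ ih => exact ⟨ih.1, fun hk => ih.2 (by omega)⟩
  | low _ ih => exact ⟨lc_anti (Nat.le_succ _) ih.1, fun _ => ih.1⟩

/-- **Unipotence on the abelianization implies unipotence (after P. Hall).** -/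
theorem hall [Group.IsNilpotent N] {k : ℕ}
    (hE : ∀ e ∈ E, ∀ i, k ≤ i → (De τ)^[i] e ∈ (lc 2 : Subgroup N))
    (hgen : Subgroup.closure {x | ∃ e ∈ E, ∃ n : ℕ, x = τ^[n] e} = ⊤) (i : ℕ) :
    ∃ t, ∀ h : N, (De (τ^[i]))^[t] h = 1 := by
  have h0 : ∀ h : N, Fm τ E 1 0 h := by
    intro h
    have hh : h ∈ Subgroup.closure {x | ∃ e ∈ E, ∃ n : ℕ, x = τ^[n] e} := by rw [hgen]; trivial
    induction hh using Subgroup.closure_induction with
    | mem x hx =>
      obtain ⟨e, he, n, rfl⟩ := hx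
      exact (Fm.gen he 0).iter n
    | one => exact Fm.one _ _
    | mul a b _ _ ha hb => exact Fm.mul ha hb
    | inv a _ ha => exact Fm.inv ha
  have h1 : ∀ l : ℕ, ∀ h ∈ (lc (l + 1) : Subgroup N), Fm τ E (l + 1) 0 h := by
    intro l
    induction l with
    | zero => intro h _; exact h0 h
    | succ l ih =>
      intro h hh
      have h2 : h ∈ (⊤ : Subgroup N).lowerCentralSeries (l + 1) := hh
      rw [Subgroup.mem_lowerCentralSeries_succ_iff] at h2
      induction h2 using Subgroup.closure_induction with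
      | mem x hx =>
        obtain ⟨p, hp, q, -, rfl⟩ := hx
        exact Fm.comm (ih p hp) (h0 q)
      | one => exact Fm.one _ _
      | mul a b ha hb iha ihb => exact Fm.mul (iha ha) (ihb hb)
      | inv a ha iha => exact Fm.inv (iha ha)
  have h2 : ∀ (l j : ℕ) (h : N) (t : ℕ), Fm τ E l j h → Fm τ E l (j + t) ((De (τ^[i]))^[t] h) := by
    intro l j h t hh
    induction t with
    | zero => exact hh
    | succ t ih =>
      rw [Function.iterate_succ_apply']
      exact ih.diffN i
  have h3 : ∀ l : ℕ, ∃ t, ∀ h : N, (De (τ^[i]))^[t] h ∈ (lc (l + 1) : Subgroup N) := by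
    intro l
    induction l with
    | zero =>
      refine ⟨0, fun h => ?_⟩
      rw [lc]
      simp
    | succ l ih =>
      obtain ⟨t, ht⟩ := ih
      refine ⟨(l + 1) * k + t, fun h => ?_⟩
      rw [Function.iterate_add_apply]
      have h4 := h2 (l + 1) 0 _ ((l + 1) * k) (h1 l _ (ht h))
      exact (h4.mem hE).2 (by omega)
  obtain ⟨c, hc⟩ := Subgroup.nilpotent_iff_lowerCentralSeries.1 (inferInstance : Group.IsNilpotent N)
  obtain ⟨t, ht⟩ := h3 c
  refine ⟨t, fun h => ?_⟩
  have h4 := ht h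
  rw [lc, Nat.add_sub_cancel, hc] at h4
  exact h4

/-- the unipotent elements -/
def Un (f : N → N) (h : N) : Prop := ∃ k, (De f)^[k] h = 1

theorem De_one_iter (τ : N →* N) (j t : ℕ) : (De (τ^[j]))^[t] (1 : N) = 1 := by
  have h1 : τ^[j] (1 : N) = 1 := by
    induction j with
    | zero => rfl
    | succ j ih => rw [Function.iterate_succ_apply, map_one, ih]
  induction t with
  | zero => rfl
  | succ t ih => rw [Function.iterate_succ_apply, De, h1, inv_one, one_mul, ih]

/-- the elements of the group generated by unipotent elements -/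
theorem un_closure [Group.IsNilpotent N] (τ : N →* N) (E : Set N) {k : ℕ}
    (hE : ∀ e ∈ E, (De τ)^[k] e = 1) (i : ℕ) {h : N} (hh : h ∈ Subgroup.closure E) :
    Un (τ^[i]) h := by
  set M : Subgroup N := Subgroup.closure {x | ∃ e ∈ E, ∃ n : ℕ, x = τ^[n] e} with hM
  have hτM : ∀ x ∈ M, τ x ∈ M := by
    intro x hx
    have h1 : M ≤ M.comap τ := by
      rw [hM, Subgroup.closure_le]
      rintro _ ⟨e, he, n, rfl⟩
      refine Subgroup.subset_closure ⟨e, he, n + 1, ?_⟩
      rw [Function.iterate_succ_apply']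
    exact h1 hx
  let τ' : M →* M := (τ.comp M.subtype).codRestrict M fun x => hτM x x.2
  have hτ' : ∀ (n : ℕ) (x : M), ((τ'^[n] x : M) : N) = τ^[n] (x : N) := by
    intro n
    induction n with
    | zero => intro x; rfl
    | succ n ih => intro x; rw [Function.iterate_succ_apply, Function.iterate_succ_apply, ih]; rfl
  have hDe : ∀ (i t : ℕ) (x : M), (((De (τ'^[i]))^[t] x : M) : N) = (De (τ^[i]))^[t] (x : N) := by
    intro i t
    induction t with
    | zero => intro x; rfl
    | succ t ih =>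
      intro x
      rw [Function.iterate_succ_apply, Function.iterate_succ_apply, ih]
      congr 1
      show ((x : N))⁻¹ * ((τ'^[i] x : M) : N) = _
      rw [hτ', De]
  have hEM : ∀ e ∈ E, e ∈ M := fun e he => Subgroup.subset_closure ⟨e, he, 0, rfl⟩
  have hfix : ∀ (e : M) (i : ℕ), (e : N) ∈ E → k ≤ i → (De τ')^[i] e = 1 := by
    intro e i he hi
    obtain ⟨d, rfl⟩ := Nat.exists_eq_add_of_le hi
    refine Subtype.ext ?_
    have h1 := hDe 1 (k + d) e
    rw [Function.iterate_one, Function.iterate_one] at h1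
    rw [h1, add_comm, Function.iterate_add_apply, hE e he]
    have := De_one_iter τ 1 d
    rwa [Function.iterate_one] at this
  have hgen : Subgroup.closure {x : M | ∃ e ∈ {e : M | (e : N) ∈ E}, ∃ n : ℕ, x = τ'^[n] e} = ⊤ := by
    have h1 : (Subgroup.closure {x : M | ∃ e ∈ {e : M | (e : N) ∈ E}, ∃ n : ℕ, x = τ'^[n] e}).map
        M.subtype = (⊤ : Subgroup M).map M.subtype := by
      rw [MonoidHom.map_closure, ← MonoidHom.range_eq_map, M.range_subtype]
      have h2 : M.subtype '' {x : M | ∃ e ∈ {e : M | (e : N) ∈ E}, ∃ n : ℕ, x = τ'^[n] e} =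
          {x | ∃ e ∈ E, ∃ n : ℕ, x = τ^[n] e} := by
        ext x
        constructor
        · rintro ⟨_, ⟨e, he, n, rfl⟩, rfl⟩
          exact ⟨e, he, n, hτ' n e⟩
        · rintro ⟨e, he, n, rfl⟩
          exact ⟨τ'^[n] ⟨e, hEM e he⟩, ⟨⟨e, hEM e he⟩, he, n, rfl⟩, hτ' n _⟩
      rw [h2]
    exact Subgroup.map_injective M.subtype_injective h1
  obtain ⟨t, ht⟩ := hall (N := M) (τ := τ') (E := {e : M | (e : N) ∈ E}) (k := k)
    (fun e he i hi => by rw [hfix e i he hi]; exact Subgroup.one_mem _) hgen i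
  have hhM : h ∈ M := by
    have : Subgroup.closure E ≤ M := by
      rw [Subgroup.closure_le]
      exact hEM
    exact this hh
  refine ⟨t, ?_⟩
  have h5 := hDe i t ⟨h, hhM⟩
  rw [ht] at h5
  exact h5.symm

end Run7.h190.G
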